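import Mathlib

/-! Pointwise inequalities for the vectorial fractional p-Laplacian. -/

namespace Pool.Agent.helper32.Frac

open Real
open scoped RealInnerProductSpace

variable {F : Type*} [NormedAddCommGroup F] [InnerProductSpace ℝ F]

/-- Basic identity. -/
theorem inner_identity (a b : F) (g1 g2 : ℝ) :
    ⟪a - b, g1 • a - g2 • b⟫ =
      (1/2) * ‖a - b‖ ^ 2 * (g1 + g2) + (1/2) * (‖a‖ ^ 2 - ‖b‖ ^ 2) * (g1 - g2) := by
  have h : ‖a - b‖ ^ 2 = ‖a‖ ^ 2 - 2 * ⟪a, b⟫ + ‖b‖ ^ 2 := by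
    rw [← real_inner_self_eq_norm_sq (a - b)]
    rw [real_inner_sub_sub_self, real_inner_self_eq_norm_sq, real_inner_self_eq_norm_sq]
  rw [h]
  simp only [inner_sub_left, inner_sub_right, inner_smul_right, real_inner_self_eq_norm_sq]
  rw [real_inner_comm a b]
  ring

theorem rpow_sub_two_mul_sq {p D : ℝ} (hp : 1 < p) (hD : 0 ≤ D) :
    D ^ (p - 2) * D ^ 2 = D ^ p := by
  rcases hD.eq_or_lt with h | h
  · subst h
    rw [Real.zero_rpow (by linarith : p ≠ 0)]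
    simp
  · rw [← Real.rpow_natCast D 2, ← Real.rpow_add h]
    congr 1
    push_cast
    ring

theorem rpow_sub_two_mul {p D : ℝ} (hp : 1 < p) (hD : 0 ≤ D) :
    D ^ (p - 2) * D = D ^ (p - 1) := by
  rcases hD.eq_or_lt with h | h
  · subst h
    rw [Real.zero_rpow (by linarith : p - 1 ≠ 0)]
    simp
  · nth_rewrite 2 [← Real.rpow_one D]
    rw [← Real.rpow_add h]
    congr 1
    ring

theorem rpow_sub_one_mul {p D : ℝ} (hp : 1 < p) (hD : 0 ≤ D) :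
    D ^ (p - 1) * D = D ^ p := by
  rcases hD.eq_or_lt with h | h
  · subst h
    rw [Real.zero_rpow (by linarith : p ≠ 0)]
    simp
  · nth_rewrite 2 [← Real.rpow_one D]
    rw [← Real.rpow_add h]
    congr 1
    ring

/-- Young type inequality 1. -/
theorem young1 {p X z Y : ℝ} (L : ℕ) (hp : 1 < p) (hL : p ≤ L) (hX : 0 ≤ X) (hz : 0 ≤ z)
    (hz1 : z ≤ 1) (hY : 0 ≤ Y) :
    X ^ (p - 1) * z ^ (L - 1) * Y ≤ (1/2) * (X ^ p * z ^ L) + (2 * Y) ^ (p - 1) * Y := by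
  have hL1 : 1 ≤ L := by
    have : (1:ℝ) < L := lt_of_lt_of_le hp hL
    exact_mod_cast this.le
  have hzL : z ^ L = z ^ (L - 1) * z := by
    rw [← pow_succ]; congr 1; omega
  have hXp : 0 ≤ X ^ (p - 1) := Real.rpow_nonneg hX _
  rcases le_total (2 * Y) (X * z) with h | h
  · have h1 : X ^ (p - 1) * z ^ (L - 1) * Y ≤ X ^ (p - 1) * z ^ (L - 1) * (X * z / 2) := by
      apply mul_le_mul_of_nonneg_left _ (by positivity)
      linarith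
    have h2 : X ^ (p - 1) * z ^ (L - 1) * (X * z / 2) = (1/2) * (X ^ p * z ^ L) := by
      rw [hzL, ← rpow_sub_one_mul hp hX]; ring
    have h3 : 0 ≤ (2 * Y) ^ (p - 1) * Y := by positivity
    linarith
  · have h1 : X ^ (p - 1) * z ^ (L - 1) ≤ (2 * Y) ^ (p - 1) := by
      have h2 : z ^ (L - 1) ≤ z ^ (p - 1) := by
        rw [← Real.rpow_natCast z (L - 1)]
        rcases hz.eq_or_lt with h0 | h0
        · subst h0
          rw [Real.zero_rpow (by linarith : p - 1 ≠ 0), Real.zero_rpow]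
          have : (1:ℝ) < (L:ℝ) := lt_of_lt_of_le hp hL
          have h3 : 1 < L := by exact_mod_cast this
          have : 0 < L - 1 := by omega
          have : (0:ℝ) < ((L - 1 : ℕ) : ℝ) := by exact_mod_cast this
          linarith
        · apply Real.rpow_le_rpow_of_exponent_ge h0 hz1
          rw [Nat.cast_sub hL1]; push_cast; linarith
      calc X ^ (p - 1) * z ^ (L - 1) ≤ X ^ (p - 1) * z ^ (p - 1) := by gcongr
        _ = (X * z) ^ (p - 1) := (Real.mul_rpow hX hz).symm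
        _ ≤ (2 * Y) ^ (p - 1) := by
          apply Real.rpow_le_rpow (by positivity) h (by linarith)
    have h2 : X ^ (p - 1) * z ^ (L - 1) * Y ≤ (2 * Y) ^ (p - 1) * Y := by gcongr
    have h3 : 0 ≤ (1/2) * (X ^ p * z ^ L) := by positivity
    linarith

/-- Young type inequality 2. -/
theorem young2 {p X z Y : ℝ} (L : ℕ) (hp : 2 ≤ p) (hL : p ≤ L) (hX : 0 ≤ X) (hz : 0 ≤ z)
    (hz1 : z ≤ 1) (hY : 0 ≤ Y) :
    X ^ (p - 2) * z ^ (L - 2) * Y ≤ (1/2) * (X ^ p * z ^ L) + (2 * Y) ^ ((p - 2) / 2) * Y := by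
  have hp1 : 1 < p := by linarith
  have hL1 : 2 ≤ L := by
    have : (2:ℝ) ≤ L := hp.trans hL
    exact_mod_cast this
  have hzL : z ^ L = z ^ (L - 2) * z ^ 2 := by
    rw [← pow_add]; congr 1; omega
  have hXp : 0 ≤ X ^ (p - 2) := Real.rpow_nonneg hX _
  rcases le_total (2 * Y) (X ^ 2 * z ^ 2) with h | h
  · have h1 : X ^ (p - 2) * z ^ (L - 2) * Y ≤ X ^ (p - 2) * z ^ (L - 2) * (X ^ 2 * z ^ 2 / 2) := by
      apply mul_le_mul_of_nonneg_left _ (by positivity)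
      linarith
    have h2 : X ^ (p - 2) * z ^ (L - 2) * (X ^ 2 * z ^ 2 / 2) = (1/2) * (X ^ p * z ^ L) := by
      rw [hzL, ← rpow_sub_two_mul_sq hp1 hX]; ring
    have h3 : 0 ≤ (2 * Y) ^ ((p - 2) / 2) * Y := by positivity
    linarith
  · have h1 : X ^ (p - 2) * z ^ (L - 2) ≤ (2 * Y) ^ ((p - 2) / 2) := by
      have h2 : z ^ (L - 2) ≤ z ^ (p - 2) := by
        rw [← Real.rpow_natCast z (L - 2)]
        rcases hz.eq_or_lt with h0 | h0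
        · subst h0
          rcases eq_or_lt_of_le hp with h5 | h5
          · rw [← h5]; simp only [sub_self, Real.rpow_zero]
            rw [Real.rpow_natCast]
            exact pow_le_one₀ (le_refl (0:ℝ)) zero_le_one
          · rw [Real.zero_rpow (by linarith : p - 2 ≠ 0), Real.zero_rpow]
            have : (2:ℝ) < (L:ℝ) := lt_of_lt_of_le h5 hL
            have h3 : 2 < L := by exact_mod_cast this
            have : 0 < L - 2 := by omega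
            have : (0:ℝ) < ((L - 2 : ℕ) : ℝ) := by exact_mod_cast this
            linarith
        · apply Real.rpow_le_rpow_of_exponent_ge h0 hz1
          rw [Nat.cast_sub hL1]; push_cast; linarith
      calc X ^ (p - 2) * z ^ (L - 2) ≤ X ^ (p - 2) * z ^ (p - 2) := by gcongr
        _ = (X * z) ^ (p - 2) := (Real.mul_rpow hX hz).symm
        _ = ((X * z) ^ 2) ^ ((p - 2) / 2) := by
          rw [← Real.rpow_natCast (X * z) 2, ← Real.rpow_mul (by positivity)]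
          congr 1; push_cast; ring
        _ ≤ (2 * Y) ^ ((p - 2) / 2) := by
          apply Real.rpow_le_rpow (by positivity) (by rw [mul_pow]; exact h) (by linarith)
    have h2 : X ^ (p - 2) * z ^ (L - 2) * Y ≤ (2 * Y) ^ ((p - 2) / 2) * Y := by gcongr
    have h3 : 0 ≤ (1/2) * (X ^ p * z ^ L) := by positivity
    linarith

/-- `|x^L - y^L| ≤ L max(x,y)^(L-1) |x-y|`. -/
theorem abs_pow_sub_pow_le' {x y : ℝ} (hx : 0 ≤ x) (hy : 0 ≤ y) (L : ℕ) :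
    |x ^ L - y ^ L| ≤ L * (max x y) ^ (L - 1) * |x - y| := by
  have := abs_pow_sub_pow_le x y L
  rw [abs_of_nonneg hx, abs_of_nonneg hy] at this
  calc |x ^ L - y ^ L| ≤ _ := this
    _ = _ := by ring

/-- the value of the nonlinear form at a pair of points. -/
noncomputable def form (p : ℝ) (a b φa φb : F) : ℝ :=
  ‖a - b‖ ^ (p - 2) * ⟪a - b, φa - φb⟫

theorem form_eq {p : ℝ} (hp : 1 < p) (a b : F) (g1 g2 : ℝ) :
    form p a b (g1 • a) (g2 • b) =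
      (1/2) * ‖a - b‖ ^ p * (g1 + g2)
        + (1/2) * ‖a - b‖ ^ (p - 2) * ((‖a‖ ^ 2 - ‖b‖ ^ 2) * (g1 - g2)) := by
  unfold form
  rw [inner_identity, ← rpow_sub_two_mul_sq hp (norm_nonneg (a - b))]
  ring

omit [InnerProductSpace ℝ F] in
theorem abs_norm_sq_sub_le (a b : F) : |‖a‖ ^ 2 - ‖b‖ ^ 2| ≤ ‖a - b‖ * (‖a‖ + ‖b‖) := by
  have h : ‖a‖ ^ 2 - ‖b‖ ^ 2 = (‖a‖ - ‖b‖) * (‖a‖ + ‖b‖) := by ring
  rw [h, abs_mul, abs_of_nonneg (by positivity : 0 ≤ ‖a‖ + ‖b‖)]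
  gcongr
  exact abs_norm_sub_norm_le a b

/-- General lower bound. -/
theorem bound1 {p : ℝ} (hp : 1 < p) (L : ℕ) (hL : p ≤ L) (a b : F) {z1 z2 G1 G2 : ℝ}
    (hz1 : 0 ≤ z1) (hz1' : z1 ≤ 1) (hz2 : 0 ≤ z2) (hz2' : z2 ≤ 1)
    (hG1 : 0 ≤ G1) (hG2 : 0 ≤ G2)
    (h12 : ‖a‖ ≤ ‖b‖ → G1 ≤ G2) (h21 : ‖b‖ ≤ ‖a‖ → G2 ≤ G1) :
    (1/4) * ‖a - b‖ ^ p * (z1 ^ L * G1 + z2 ^ L * G2)
      - 2 ^ (p - 1) * (L:ℝ) ^ p * ((‖a‖ + ‖b‖) ^ p * |z1 - z2| ^ p) * min G1 G2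
      ≤ form p a b ((z1 ^ L * G1) • a) ((z2 ^ L * G2) • b) := by
  rw [form_eq hp]
  set D := ‖a - b‖ with hD
  have hD0 : 0 ≤ D := norm_nonneg _
  set S := (‖a‖ ^ 2 - ‖b‖ ^ 2) * (z1 ^ L * G1 - z2 ^ L * G2) with hS
  set m := min G1 G2 with hm
  have hm0 : 0 ≤ m := le_min hG1 hG2
  -- step 1
  have step1 : - (|‖a‖ ^ 2 - ‖b‖ ^ 2| * |z1 ^ L - z2 ^ L| * m) ≤ S := by
    rcases le_total ‖a‖ ‖b‖ with h | h
    · have hG := h12 h
      have hmG : m = G1 := min_eq_left hG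
      have hq : ‖a‖ ^ 2 - ‖b‖ ^ 2 ≤ 0 := by
        have := pow_le_pow_left₀ (norm_nonneg a) h 2
        linarith
      have e1 : S = (‖a‖ ^ 2 - ‖b‖ ^ 2) * (z1 ^ L - z2 ^ L) * G1
          + (‖b‖ ^ 2 - ‖a‖ ^ 2) * (z2 ^ L * (G2 - G1)) := by rw [hS]; ring
      have e2 : 0 ≤ (‖b‖ ^ 2 - ‖a‖ ^ 2) * (z2 ^ L * (G2 - G1)) := by
        apply mul_nonneg (by linarith)
        apply mul_nonneg (by positivity) (by linarith)
      have e3 : - (|‖a‖ ^ 2 - ‖b‖ ^ 2| * |z1 ^ L - z2 ^ L| * m)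
          ≤ (‖a‖ ^ 2 - ‖b‖ ^ 2) * (z1 ^ L - z2 ^ L) * G1 := by
        rw [hmG, ← abs_mul, ← neg_mul]
        exact mul_le_mul_of_nonneg_right (neg_abs_le _) hG1
      linarith
    · have hG := h21 h
      have hmG : m = G2 := min_eq_right hG
      have hq : 0 ≤ ‖a‖ ^ 2 - ‖b‖ ^ 2 := by
        have := pow_le_pow_left₀ (norm_nonneg b) h 2
        linarith
      have e1 : S = (‖a‖ ^ 2 - ‖b‖ ^ 2) * (z1 ^ L - z2 ^ L) * G2
          + (‖a‖ ^ 2 - ‖b‖ ^ 2) * (z1 ^ L * (G1 - G2)) := by rw [hS]; ring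
      have e2 : 0 ≤ (‖a‖ ^ 2 - ‖b‖ ^ 2) * (z1 ^ L * (G1 - G2)) := by
        apply mul_nonneg hq
        apply mul_nonneg (by positivity) (by linarith)
      have e3 : - (|‖a‖ ^ 2 - ‖b‖ ^ 2| * |z1 ^ L - z2 ^ L| * m)
          ≤ (‖a‖ ^ 2 - ‖b‖ ^ 2) * (z1 ^ L - z2 ^ L) * G2 := by
        rw [hmG, ← abs_mul, ← neg_mul]
        exact mul_le_mul_of_nonneg_right (neg_abs_le _) hG2
      linarith
  -- step 2
  set M := max z1 z2 with hM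
  have hM0 : 0 ≤ M := le_max_of_le_left hz1
  have hM1 : M ≤ 1 := max_le hz1' hz2'
  set Y := (L:ℝ) * (‖a‖ + ‖b‖) * |z1 - z2| with hY
  have hY0 : 0 ≤ Y := by positivity
  have step2 : D ^ (p - 2) * (|‖a‖ ^ 2 - ‖b‖ ^ 2| * |z1 ^ L - z2 ^ L| * m)
      ≤ D ^ (p - 1) * M ^ (L - 1) * Y * m := by
    have e1 := abs_norm_sq_sub_le a b
    have e2 := abs_pow_sub_pow_le' hz1 hz2 L
    calc D ^ (p - 2) * (|‖a‖ ^ 2 - ‖b‖ ^ 2| * |z1 ^ L - z2 ^ L| * m)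
        ≤ D ^ (p - 2) * ((D * (‖a‖ + ‖b‖)) * (L * M ^ (L - 1) * |z1 - z2|) * m) := by
          gcongr
      _ = (D ^ (p - 2) * D) * M ^ (L - 1) * Y * m := by rw [hY]; ring
      _ = _ := by rw [rpow_sub_two_mul hp hD0]
  have step3 := young1 (p := p) (X := D) (z := M) (Y := Y) L hp hL hD0 hM0 hM1 hY0
  have step4 : D ^ p * M ^ L * m ≤ D ^ p * (z1 ^ L * G1 + z2 ^ L * G2) := by
    rw [mul_assoc]
    apply mul_le_mul_of_nonneg_left _ (Real.rpow_nonneg hD0 _)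
    rcases le_total z1 z2 with h | h
    · have : M = z2 := max_eq_right h
      rw [this]
      have : z2 ^ L * m ≤ z2 ^ L * G2 := by gcongr; exact min_le_right _ _
      have : 0 ≤ z1 ^ L * G1 := by positivity
      linarith
    · have : M = z1 := max_eq_left h
      rw [this]
      have : z1 ^ L * m ≤ z1 ^ L * G1 := by gcongr; exact min_le_left _ _
      have : 0 ≤ z2 ^ L * G2 := by positivity
      linarith
  have step5 : (2 * Y) ^ (p - 1) * Y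
      = 2 ^ (p - 1) * (L:ℝ) ^ p * ((‖a‖ + ‖b‖) ^ p * |z1 - z2| ^ p) := by
    rw [Real.mul_rpow (by norm_num) hY0, mul_assoc, rpow_sub_one_mul hp hY0, hY,
      Real.mul_rpow (by positivity) (abs_nonneg _), Real.mul_rpow (by positivity) (by positivity)]
    ring
  have hDp2 : 0 ≤ D ^ (p - 2) := Real.rpow_nonneg hD0 _
  have step6 : - (D ^ (p - 1) * M ^ (L - 1) * Y * m) ≤ D ^ (p - 2) * S := by
    have := mul_le_mul_of_nonneg_left step1 hDp2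
    linarith
  have step7 : D ^ (p - 1) * M ^ (L - 1) * Y * m ≤
      (1/2) * (D ^ p * (z1 ^ L * G1 + z2 ^ L * G2))
      + 2 ^ (p - 1) * (L:ℝ) ^ p * ((‖a‖ + ‖b‖) ^ p * |z1 - z2| ^ p) * m := by
    have h1 := mul_le_mul_of_nonneg_right step3 hm0
    rw [step5] at h1
    have : (1 / 2 * (D ^ p * M ^ L) + 2 ^ (p - 1) * (L:ℝ) ^ p * ((‖a‖ + ‖b‖) ^ p * |z1 - z2| ^ p)) * m
       = (1/2) * (D ^ p * M ^ L * m)
        + 2 ^ (p - 1) * (L:ℝ) ^ p * ((‖a‖ + ‖b‖) ^ p * |z1 - z2| ^ p) * m := by ring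
    linarith
  have h8 : 0 ≤ 2 ^ (p - 1) * (L:ℝ) ^ p * ((‖a‖ + ‖b‖) ^ p * |z1 - z2| ^ p) * m := by positivity
  nlinarith [step6, step7, h8]

theorem form_ge_of_nonneg {p : ℝ} (hp : 1 < p) (a b : F) {g1 g2 : ℝ} (hg1 : 0 ≤ g1) (hg2 : 0 ≤ g2)
    (hS : 0 ≤ (‖a‖ ^ 2 - ‖b‖ ^ 2) * (g1 - g2)) :
    (1/4) * ‖a - b‖ ^ p * (g1 + g2) ≤ form p a b (g1 • a) (g2 • b) := by
  rw [form_eq hp]
  have h1 : 0 ≤ ‖a - b‖ ^ (p - 2) := Real.rpow_nonneg (norm_nonneg _) _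
  have h2 : 0 ≤ ‖a - b‖ ^ p := Real.rpow_nonneg (norm_nonneg _) _
  have h3 := mul_nonneg h1 hS
  have h4 := mul_nonneg h2 (add_nonneg hg1 hg2)
  nlinarith

/-- the gain inequality, `p ≥ 2`. -/
theorem bound2_ge {p : ℝ} (hp : 2 ≤ p) (l : ℕ) (hl : 1 ≤ l) (hL : p ≤ (2 * l : ℕ)) (a b : F)
    {z1 z2 G1 G2 δ : ℝ}
    (hz1 : 0 ≤ z1) (hz1' : z1 ≤ 1) (hz2 : 0 ≤ z2) (hz2' : z2 ≤ 1)
    (hG1 : 0 ≤ G1) (hG2 : 0 ≤ G2) (hG1' : G1 ≤ 1) (hG2' : G2 ≤ 1) (hδ : 0 < δ)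
    (hq : ‖a‖ ^ 2 - ‖b‖ ^ 2 = δ * (G1 - G2)) :
    (1/4) * ‖a - b‖ ^ p * (z1 ^ (2 * l) * G1 + z2 ^ (2 * l) * G2)
      - 2 ^ (p / 2) * (l:ℝ) ^ p * δ ^ (p / 2) * |z1 - z2| ^ p
      ≤ form p a b ((z1 ^ (2 * l) * G1) • a) ((z2 ^ (2 * l) * G2) • b) := by
  have hp1 : 1 < p := by linarith
  rw [form_eq hp1]
  set D := ‖a - b‖ with hD
  have hD0 : 0 ≤ D := norm_nonneg _
  set S := (‖a‖ ^ 2 - ‖b‖ ^ 2) * (z1 ^ (2 * l) * G1 - z2 ^ (2 * l) * G2) with hS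
  have step1 : - (δ * (G1 * G2) * (z1 ^ l - z2 ^ l) ^ 2) ≤ S := by
    have e : S = δ * (z1 ^ l * G1 - z2 ^ l * G2) ^ 2 - δ * (G1 * G2) * (z1 ^ l - z2 ^ l) ^ 2 := by
      rw [hS, hq, pow_mul', pow_mul']; ring
    have : 0 ≤ δ * (z1 ^ l * G1 - z2 ^ l * G2) ^ 2 := by positivity
    linarith
  set M := max z1 z2 with hM
  have hM0 : 0 ≤ M := le_max_of_le_left hz1
  have hM1 : M ≤ 1 := max_le hz1' hz2'
  set Y := δ * (l:ℝ) ^ 2 * |z1 - z2| ^ 2 with hY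
  have hY0 : 0 ≤ Y := by positivity
  have hDp2 : 0 ≤ D ^ (p - 2) := Real.rpow_nonneg hD0 _
  have step2 : D ^ (p - 2) * (δ * (G1 * G2) * (z1 ^ l - z2 ^ l) ^ 2)
      ≤ (D ^ (p - 2) * M ^ (2 * l - 2) * Y) * (G1 * G2) := by
    have e2 := abs_pow_sub_pow_le' hz1 hz2 l
    have e3 : (z1 ^ l - z2 ^ l) ^ 2 ≤ (l * M ^ (l - 1) * |z1 - z2|) ^ 2 := by
      rw [← sq_abs (z1 ^ l - z2 ^ l)]
      exact pow_le_pow_left₀ (abs_nonneg _) e2 2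
    have e4 : (l * M ^ (l - 1) * |z1 - z2|) ^ 2 = (l:ℝ) ^ 2 * M ^ (2 * l - 2) * |z1 - z2| ^ 2 := by
      rw [mul_pow, mul_pow, ← pow_mul]
      congr 3
      omega
    rw [e4] at e3
    calc D ^ (p - 2) * (δ * (G1 * G2) * (z1 ^ l - z2 ^ l) ^ 2)
        ≤ D ^ (p - 2) * (δ * (G1 * G2) * ((l:ℝ) ^ 2 * M ^ (2 * l - 2) * |z1 - z2| ^ 2)) := by
          gcongr
      _ = _ := by rw [hY]; ring
  have step3 := young2 (p := p) (X := D) (z := M) (Y := Y) (2 * l) hp hL hD0 hM0 hM1 hY0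
  have hGG : 0 ≤ G1 * G2 := by positivity
  have step4 : D ^ p * M ^ (2 * l) * (G1 * G2)
      ≤ D ^ p * (z1 ^ (2 * l) * G1 + z2 ^ (2 * l) * G2) := by
    rw [mul_assoc]
    apply mul_le_mul_of_nonneg_left _ (Real.rpow_nonneg hD0 _)
    rcases le_total z1 z2 with h | h
    · have : M = z2 := max_eq_right h
      rw [this]
      have : z2 ^ (2 * l) * (G1 * G2) ≤ z2 ^ (2 * l) * G2 := by
        gcongr
        exact mul_le_of_le_one_left hG2 hG1'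
      have : 0 ≤ z1 ^ (2 * l) * G1 := by positivity
      linarith
    · have : M = z1 := max_eq_left h
      rw [this]
      have : z1 ^ (2 * l) * (G1 * G2) ≤ z1 ^ (2 * l) * G1 := by
        gcongr
        exact mul_le_of_le_one_right hG1 hG2'
      have : 0 ≤ z2 ^ (2 * l) * G2 := by positivity
      linarith
  have step5 : (2 * Y) ^ ((p - 2) / 2) * Y
      ≤ 2 ^ (p / 2) * (l:ℝ) ^ p * δ ^ (p / 2) * |z1 - z2| ^ p := by
    have e1 : (2 * Y) ^ ((p - 2) / 2) * Y ≤ (2 * Y) ^ ((p - 2) / 2) * (2 * Y) := by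
      gcongr; linarith
    have e2 : (2 * Y) ^ ((p - 2) / 2) * (2 * Y) = (2 * Y) ^ (p / 2) := by
      rcases hY0.eq_or_lt with h | h
      · rw [← h, mul_zero, mul_zero, Real.zero_rpow (by linarith : p / 2 ≠ 0)]
      · nth_rewrite 2 [← Real.rpow_one (2 * Y)]
        rw [← Real.rpow_add (by positivity)]
        congr 1; ring
    have e3 : (2 * Y) ^ (p / 2) = 2 ^ (p / 2) * (l:ℝ) ^ p * δ ^ (p / 2) * |z1 - z2| ^ p := by
      rw [Real.mul_rpow (by norm_num) hY0, hY, Real.mul_rpow (by positivity) (by positivity),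
        Real.mul_rpow hδ.le (by positivity), ← Real.rpow_natCast (l:ℝ) 2,
        ← Real.rpow_natCast (|z1 - z2|) 2, ← Real.rpow_mul (by positivity),
        ← Real.rpow_mul (by positivity)]
      have : ((2:ℕ):ℝ) * (p / 2) = p := by push_cast; ring
      rw [this]; ring
    linarith
  have step6 : - ((D ^ (p - 2) * M ^ (2 * l - 2) * Y) * (G1 * G2)) ≤ D ^ (p - 2) * S := by
    have := mul_le_mul_of_nonneg_left step1 hDp2
    linarith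
  have h9 : 0 ≤ (2 * Y) ^ ((p - 2) / 2) * Y := by positivity
  have h10 : G1 * G2 ≤ 1 := by nlinarith
  have step7 : (D ^ (p - 2) * M ^ (2 * l - 2) * Y) * (G1 * G2) ≤
      (1/2) * (D ^ p * (z1 ^ (2 * l) * G1 + z2 ^ (2 * l) * G2))
      + (2 * Y) ^ ((p - 2) / 2) * Y := by
    have h1 := mul_le_mul_of_nonneg_right step3 hGG
    have h2 : (2 * Y) ^ ((p - 2) / 2) * Y * (G1 * G2) ≤ (2 * Y) ^ ((p - 2) / 2) * Y :=
      mul_le_of_le_one_right h9 h10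
    nlinarith
  nlinarith [step6, step7, step5, h9]

/-- the gain inequality, `p < 2`. -/
theorem bound2_lt {p : ℝ} (hp : 1 < p) (hp2 : p < 2) (l : ℕ) (a b : F)
    {z1 z2 G1 G2 δ : ℝ}
    (hz1 : 0 ≤ z1) (hz1' : z1 ≤ 1) (hz2 : 0 ≤ z2) (hz2' : z2 ≤ 1)
    (hG1 : 0 ≤ G1) (hG2 : 0 ≤ G2) (hG1' : G1 ≤ 1) (hG2' : G2 ≤ 1) (hδ : 0 < δ)
    (ha : ‖a‖ ≤ 1) (hb : ‖b‖ ≤ 1)
    (hq : ‖a‖ ^ 2 - ‖b‖ ^ 2 = δ * (G1 - G2)) :
    (1/4) * ‖a - b‖ ^ p * (z1 ^ (2 * l) * G1 + z2 ^ (2 * l) * G2)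
      - 4 ^ (2 - p) * (l:ℝ) ^ p * δ ^ (p - 1) * |z1 - z2| ^ p
      ≤ form p a b ((z1 ^ (2 * l) * G1) • a) ((z2 ^ (2 * l) * G2) • b) := by
  rcases le_or_gt 0 ((‖a‖ ^ 2 - ‖b‖ ^ 2) * (z1 ^ (2 * l) * G1 - z2 ^ (2 * l) * G2)) with hSs | hSs
  · have h := form_ge_of_nonneg hp a b (g1 := z1 ^ (2 * l) * G1) (g2 := z2 ^ (2 * l) * G2)
      (by positivity) (by positivity) hSs
    have : 0 ≤ 4 ^ (2 - p) * (l:ℝ) ^ p * δ ^ (p - 1) * |z1 - z2| ^ p := by positivity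
    linarith
  rw [form_eq hp]
  set D := ‖a - b‖ with hD
  have hD0 : 0 ≤ D := norm_nonneg _
  set S := (‖a‖ ^ 2 - ‖b‖ ^ 2) * (z1 ^ (2 * l) * G1 - z2 ^ (2 * l) * G2) with hS
  set e := |z1 ^ l - z2 ^ l| with he
  have he0 : 0 ≤ e := abs_nonneg _
  have hGG : 0 ≤ G1 * G2 := by positivity
  have hGG1 : G1 * G2 ≤ 1 := by nlinarith
  have step1 : - S ≤ δ * e ^ 2 := by
    have e1 : S = δ * (z1 ^ l * G1 - z2 ^ l * G2) ^ 2 - δ * (G1 * G2) * (z1 ^ l - z2 ^ l) ^ 2 := by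
      rw [hS, hq, pow_mul', pow_mul']; ring
    have e2 : 0 ≤ δ * (z1 ^ l * G1 - z2 ^ l * G2) ^ 2 := by positivity
    have e3 : δ * (G1 * G2) * (z1 ^ l - z2 ^ l) ^ 2 ≤ δ * e ^ 2 := by
      rw [he, sq_abs]
      have : 0 ≤ (z1 ^ l - z2 ^ l) ^ 2 := by positivity
      nlinarith [mul_nonneg hδ.le this]
    linarith
  have step1' : - S ≤ 4 * D * e := by
    have hz1l : z1 ^ l ≤ 1 := pow_le_one₀ hz1 hz1'
    have hz2l : z2 ^ l ≤ 1 := pow_le_one₀ hz2 hz2'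
    have hz1l0 : 0 ≤ z1 ^ l := by positivity
    have hz2l0 : 0 ≤ z2 ^ l := by positivity
    have e1 := abs_norm_sq_sub_le a b
    have e1' : |‖a‖ ^ 2 - ‖b‖ ^ 2| ≤ 2 * D := by nlinarith
    have hfac : z1 ^ (2 * l) - z2 ^ (2 * l) = (z1 ^ l - z2 ^ l) * (z1 ^ l + z2 ^ l) := by
      rw [pow_mul', pow_mul']; ring
    have e2 : |z1 ^ (2 * l) - z2 ^ (2 * l)| ≤ 2 * e := by
      rw [hfac, abs_mul, ← he, abs_of_nonneg (by positivity : 0 ≤ z1 ^ l + z2 ^ l)]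
      nlinarith
    have e3 : |‖a‖ ^ 2 - ‖b‖ ^ 2| * |z1 ^ (2 * l) - z2 ^ (2 * l)| ≤ (2 * D) * (2 * e) := by
      gcongr
    have e4 : - S ≤ |‖a‖ ^ 2 - ‖b‖ ^ 2| * |z1 ^ (2 * l) - z2 ^ (2 * l)| := by
      rcases le_total G1 G2 with h | h
      · have hqq : ‖a‖ ^ 2 - ‖b‖ ^ 2 ≤ 0 := by rw [hq]; nlinarith
        have f1 : S = (‖a‖ ^ 2 - ‖b‖ ^ 2) * (z1 ^ (2 * l) - z2 ^ (2 * l)) * G1
          + (‖b‖ ^ 2 - ‖a‖ ^ 2) * (z2 ^ (2 * l) * (G2 - G1)) := by rw [hS]; ring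
        have f2 : 0 ≤ (‖b‖ ^ 2 - ‖a‖ ^ 2) * (z2 ^ (2 * l) * (G2 - G1)) := by
          apply mul_nonneg (by linarith)
          apply mul_nonneg (by positivity) (by linarith)
        have f3 : -((‖a‖ ^ 2 - ‖b‖ ^ 2) * (z1 ^ (2 * l) - z2 ^ (2 * l)) * G1)
            ≤ |‖a‖ ^ 2 - ‖b‖ ^ 2| * |z1 ^ (2 * l) - z2 ^ (2 * l)| := by
          rw [← abs_mul, ← neg_mul]
          have g1 := neg_le_abs ((‖a‖ ^ 2 - ‖b‖ ^ 2) * (z1 ^ (2 * l) - z2 ^ (2 * l)))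
          have g2 := abs_nonneg ((‖a‖ ^ 2 - ‖b‖ ^ 2) * (z1 ^ (2 * l) - z2 ^ (2 * l)))
          calc _ ≤ |(‖a‖ ^ 2 - ‖b‖ ^ 2) * (z1 ^ (2 * l) - z2 ^ (2 * l))| * G1 := by gcongr
            _ ≤ |(‖a‖ ^ 2 - ‖b‖ ^ 2) * (z1 ^ (2 * l) - z2 ^ (2 * l))| * 1 := by gcongr
            _ = _ := mul_one _
        linarith
      · have hqq : 0 ≤ ‖a‖ ^ 2 - ‖b‖ ^ 2 := by rw [hq]; nlinarith
        have f1 : S = (‖a‖ ^ 2 - ‖b‖ ^ 2) * (z1 ^ (2 * l) - z2 ^ (2 * l)) * G2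
          + (‖a‖ ^ 2 - ‖b‖ ^ 2) * (z1 ^ (2 * l) * (G1 - G2)) := by rw [hS]; ring
        have f2 : 0 ≤ (‖a‖ ^ 2 - ‖b‖ ^ 2) * (z1 ^ (2 * l) * (G1 - G2)) := by
          apply mul_nonneg hqq
          apply mul_nonneg (by positivity) (by linarith)
        have f3 : -((‖a‖ ^ 2 - ‖b‖ ^ 2) * (z1 ^ (2 * l) - z2 ^ (2 * l)) * G2)
            ≤ |‖a‖ ^ 2 - ‖b‖ ^ 2| * |z1 ^ (2 * l) - z2 ^ (2 * l)| := by
          rw [← abs_mul, ← neg_mul]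
          have g1 := neg_le_abs ((‖a‖ ^ 2 - ‖b‖ ^ 2) * (z1 ^ (2 * l) - z2 ^ (2 * l)))
          have g2 := abs_nonneg ((‖a‖ ^ 2 - ‖b‖ ^ 2) * (z1 ^ (2 * l) - z2 ^ (2 * l)))
          calc _ ≤ |(‖a‖ ^ 2 - ‖b‖ ^ 2) * (z1 ^ (2 * l) - z2 ^ (2 * l))| * G2 := by gcongr
            _ ≤ |(‖a‖ ^ 2 - ‖b‖ ^ 2) * (z1 ^ (2 * l) - z2 ^ (2 * l))| * 1 := by gcongr
            _ = _ := mul_one _
        linarith
    linarith
  have hT0 : 0 < - S := by linarith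
  have hD1 : 0 < D := by
    rcases hD0.eq_or_lt with h | h
    · rw [← h] at step1'; linarith
    · exact h
  have he1 : 0 < e := by
    rcases he0.eq_or_lt with h | h
    · rw [← h] at step1'; linarith
    · exact h
  have step2 : - S ≤ (δ * e ^ 2) ^ (p - 1) * (4 * D * e) ^ (2 - p) := by
    have h1 : (- S) ^ (p - 1) ≤ (δ * e ^ 2) ^ (p - 1) :=
      Real.rpow_le_rpow hT0.le step1 (by linarith)
    have h2 : (- S) ^ (2 - p) ≤ (4 * D * e) ^ (2 - p) :=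
      Real.rpow_le_rpow hT0.le step1' (by linarith)
    have h3 : - S = (- S) ^ (p - 1) * (- S) ^ (2 - p) := by
      rw [← Real.rpow_add hT0]
      have : p - 1 + (2 - p) = 1 := by ring
      rw [this, Real.rpow_one]
    calc - S = (- S) ^ (p - 1) * (- S) ^ (2 - p) := h3
      _ ≤ _ := by gcongr
  have step3 : D ^ (p - 2) * ((δ * e ^ 2) ^ (p - 1) * (4 * D * e) ^ (2 - p))
      = 4 ^ (2 - p) * δ ^ (p - 1) * e ^ p := by
    rw [Real.mul_rpow hδ.le (by positivity), Real.mul_rpow (by positivity) he0,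
      Real.mul_rpow (by norm_num) hD0, ← Real.rpow_natCast e 2, ← Real.rpow_mul he0]
    have h1 : D ^ (p - 2) * D ^ (2 - p) = 1 := by
      rw [← Real.rpow_add hD1]
      have : p - 2 + (2 - p) = 0 := by ring
      rw [this, Real.rpow_zero]
    have h2 : e ^ (((2:ℕ):ℝ) * (p - 1)) * e ^ (2 - p) = e ^ p := by
      rw [← Real.rpow_add he1]
      congr 1; push_cast; ring
    calc D ^ (p - 2) * (δ ^ (p - 1) * e ^ (((2:ℕ):ℝ) * (p - 1)) * (4 ^ (2 - p) * D ^ (2 - p) * e ^ (2 - p)))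
        = (D ^ (p - 2) * D ^ (2 - p)) * (4 ^ (2 - p) * δ ^ (p - 1))
          * (e ^ (((2:ℕ):ℝ) * (p - 1)) * e ^ (2 - p)) := by ring
      _ = _ := by rw [h1, h2]; ring
  have hDp2 : 0 ≤ D ^ (p - 2) := Real.rpow_nonneg hD0 _
  have step4 : D ^ (p - 2) * (- S) ≤ 4 ^ (2 - p) * δ ^ (p - 1) * e ^ p := by
    rw [← step3]
    gcongr
  have step5 : e ^ p ≤ (l:ℝ) ^ p * |z1 - z2| ^ p := by
    rw [← Real.mul_rpow (by positivity) (abs_nonneg _)]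
    apply Real.rpow_le_rpow he0 _ (by linarith)
    have e2 := abs_pow_sub_pow_le' hz1 hz2 l
    have hM1 : (max z1 z2) ^ (l - 1) ≤ 1 := pow_le_one₀ (le_max_of_le_left hz1) (max_le hz1' hz2')
    calc e ≤ l * (max z1 z2) ^ (l - 1) * |z1 - z2| := e2
      _ ≤ l * 1 * |z1 - z2| := by gcongr
      _ = _ := by ring
  have step6 : 4 ^ (2 - p) * δ ^ (p - 1) * e ^ p
      ≤ 4 ^ (2 - p) * (l:ℝ) ^ p * δ ^ (p - 1) * |z1 - z2| ^ p := by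
    calc 4 ^ (2 - p) * δ ^ (p - 1) * e ^ p
        ≤ 4 ^ (2 - p) * δ ^ (p - 1) * ((l:ℝ) ^ p * |z1 - z2| ^ p) := by gcongr
      _ = _ := by ring
  have h4 : 0 ≤ D ^ p * (z1 ^ (2 * l) * G1 + z2 ^ (2 * l) * G2) := by positivity
  have h5 : 0 ≤ 4 ^ (2 - p) * (l:ℝ) ^ p * δ ^ (p - 1) * |z1 - z2| ^ p := by positivity
  nlinarith

/-- the gain inequality. -/
theorem bound2 {p : ℝ} (hp : 1 < p) (l : ℕ) (hl : 1 ≤ l) (hL : p ≤ (2 * l : ℕ)) :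
    ∃ C σ : ℝ, 0 < C ∧ 0 < σ ∧ ∀ (a b : F) (z1 z2 G1 G2 δ : ℝ),
    0 ≤ z1 → z1 ≤ 1 → 0 ≤ z2 → z2 ≤ 1 → 0 ≤ G1 → 0 ≤ G2 → G1 ≤ 1 → G2 ≤ 1 → 0 < δ →
    ‖a‖ ≤ 1 → ‖b‖ ≤ 1 → ‖a‖ ^ 2 - ‖b‖ ^ 2 = δ * (G1 - G2) →
    (1/4) * ‖a - b‖ ^ p * (z1 ^ (2 * l) * G1 + z2 ^ (2 * l) * G2)
      - C * δ ^ σ * |z1 - z2| ^ p
      ≤ form p a b ((z1 ^ (2 * l) * G1) • a) ((z2 ^ (2 * l) * G2) • b) := by
  have hl0 : (0:ℝ) < l := by exact_mod_cast hl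
  rcases le_or_gt 2 p with h | h
  · refine ⟨2 ^ (p / 2) * (l:ℝ) ^ p, p / 2, by positivity, by positivity, ?_⟩
    intro a b z1 z2 G1 G2 δ h1 h2 h3 h4 h5 h6 h7 h8 h9 h10 h11 h12
    exact bound2_ge h l hl hL a b h1 h2 h3 h4 h5 h6 h7 h8 h9 h12
  · refine ⟨4 ^ (2 - p) * (l:ℝ) ^ p, p - 1, by positivity, by linarith, ?_⟩
    intro a b z1 z2 G1 G2 δ h1 h2 h3 h4 h5 h6 h7 h8 h9 h10 h11 h12
    exact bound2_lt hp h l a b h1 h2 h3 h4 h5 h6 h7 h8 h9 h10 h11 h12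

end Pool.Agent.helper32.Frac
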