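import Pool.Agent.helper32.Frac.DGStep

/-! The De Giorgi lemma. -/

namespace Pool.Agent.helper32.Frac

open Real MeasureTheory Set Metric Filter Topology
open scoped ENNReal RealInnerProductSpace

variable {n m : ℕ}

theorem measure_Lv_le {p : ℝ} (hp : 1 < p) {v : Eu n → Eu m} (hv : Measurable v)
    {k k' r : ℝ} (hk : 0 < k) (hkk : k ≤ k') :
    ENNReal.ofReal (k ^ p) * volume (Lv v k' r) ≤ aa p v k' r := by
  unfold aa
  rw [← setLIntegral_const]
  apply setLIntegral_mono' (measurableSet_Lv hv _ _)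
  rintro x ⟨_, hx⟩
  have hx' : k' < ‖v x‖ := hx
  apply ENNReal.ofReal_le_ofReal
  exact Real.rpow_le_rpow hk.le (by linarith) (by linarith)

theorem Lv_mono {v : Eu n → Eu m} {k k' r r' : ℝ} (hk : k' ≤ k) (hr : r ≤ r') :
    Lv v k r ⊆ Lv v k' r' := by
  rintro x ⟨hx1, hx2⟩
  exact ⟨ball_subset_ball hr hx1, lt_of_le_of_lt hk hx2⟩

theorem aa_mono {p : ℝ} {v : Eu n → Eu m} {k k' r r' : ℝ} (hk : k' ≤ k) (hr : r ≤ r') :
    aa p v k r ≤ aa p v k' r' :=
  lintegral_mono_set (Lv_mono hk hr)

/-- The De Giorgi lemma. -/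
theorem dg [NeZero n] {p s : ℝ} (hp : 1 < p) (hs : 0 < s) (hs1 : s < 1) :
    ∃ C0 : ℝ, 0 < C0 ∧ ∀ v : Eu n → Eu m, Sol p s v → ∀ k d ρ0 H : ℝ,
      0 < k → 0 < d → 0 < ρ0 → ρ0 ≤ 1/8 → 0 ≤ H →
      TT p s v ≤ ENNReal.ofReal (H * k ^ (p - 1)) →
      C0 * ((k + d) / d) ^ p * (1 + H) * ρ0 ^ (s * p) ≤ 1 →
      aa p v k (1/2) ≤ ENNReal.ofReal (k ^ p) * ((1/2) * volume (ball (0 : Eu n) ρ0)) →
      ∀ᵐ x ∂(volume.restrict (ball (0 : Eu n) (1/4))), ‖v x‖ ≤ k + d := by
  obtain ⟨C, hC0, hstep⟩ := dg_step (n := n) (m := m) hp hs hs1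
  set κ := kap n p s with hκ
  have hκ0 : 0 < κ := kap_pos hp hs
  have hp0 : 0 < p := by linarith
  have hsp : 0 < s * p := by positivity
  set β : ℝ := (1/2) ^ ((2 * p + κ) / (s * p)) with hβ
  have hβ0 : 0 < β := by positivity
  have hβ1 : β ≤ 1/2 := by
    have h1 : (1:ℝ) ≤ (2 * p + κ) / (s * p) := by
      rw [le_div_iff₀ hsp]
      have : s * p ≤ p := by nlinarith
      linarith
    calc β ≤ (1/2) ^ (1:ℝ) :=
          Real.rpow_le_rpow_of_exponent_ge (by norm_num) (by norm_num) h1
      _ = 1/2 := by rw [Real.rpow_one]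
  have hβsp : β ^ (s * p) = (1/2) ^ (2 * p + κ) := by
    rw [hβ, ← Real.rpow_mul (by norm_num)]
    congr 1
    field_simp
  have hn0 : n ≠ 0 := NeZero.ne n
  have hβn : β ^ n < 1 := pow_lt_one₀ hβ0.le (by linarith) hn0
  refine ⟨C * 2 ^ p * 8 ^ (p + κ) / β ^ n, by positivity, ?_⟩
  intro v hv k d ρ0 H hk hd hρ0 hρ8 hH hT hC hsmall
  set kj : ℕ → ℝ := fun j => k + d * (1 - (1/2) ^ j) with hkj
  set rj : ℕ → ℝ := fun j => 1/4 + (1/4) * (1/2) ^ j with hrj
  have hhalf : ∀ j : ℕ, (0:ℝ) < (1/2) ^ j := fun j => by positivity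
  have hhalf1 : ∀ j : ℕ, ((1:ℝ)/2) ^ j ≤ 1 := fun j => pow_le_one₀ (by norm_num) (by norm_num)
  have hkj_ge : ∀ j, k ≤ kj j := by
    intro j
    have := hhalf1 j
    simp only [hkj]
    nlinarith
  have hkj_le : ∀ j, kj j ≤ k + d := by
    intro j
    have := hhalf j
    simp only [hkj]
    nlinarith
  have hkj_diff : ∀ j, kj (j + 1) - kj j = (d / 2) * (1/2) ^ j := by
    intro j
    simp only [hkj]
    rw [pow_succ]; ring
  have hrj_diff : ∀ j, rj j - rj (j + 1) = (1/8) * (1/2) ^ j := by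
    intro j
    simp only [hrj]
    rw [pow_succ]; ring
  -- induction
  have hfin0 : aa p v k (1/2) < ∞ := by
    refine lt_of_le_of_lt hsmall ?_
    apply ENNReal.mul_lt_top ENNReal.ofReal_lt_top
    exact ENNReal.mul_lt_top (by simp) measure_ball_lt_top
  have hind : ∀ j, aa p v (kj j) (rj j) ≤ ENNReal.ofReal ((β ^ n) ^ j) * aa p v k (1/2) := by
    intro j
    induction j with
    | zero =>
      have h1 : kj 0 = k := by simp [hkj]
      have h2 : rj 0 = 1/2 := by simp only [hrj]; norm_num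
      rw [h1, h2]; simp
    | succ j ih =>
      have hpos := hhalf j
      have hρj : 0 < ρ0 * β ^ j := by positivity
      have hβj : β ^ j ≤ (1/2) ^ j := pow_le_pow_left₀ hβ0.le hβ1 j
      have hρle : ρ0 * β ^ j ≤ rj j - rj (j + 1) := by
        rw [hrj_diff]
        exact mul_le_mul hρ8 hβj (by positivity) (by norm_num)
      have hmeas : volume (Lv v (kj j) (rj j)) ≤ (1/2) * volume (ball (0 : Eu n) (ρ0 * β ^ j)) := by
        have h1 := measure_Lv_le (r := rj j) hp hv.meas hk (hkj_ge j)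
        have h2 : ENNReal.ofReal (k ^ p) * volume (Lv v (kj j) (rj j))
            ≤ ENNReal.ofReal (k ^ p) * ((1/2) * volume (ball (0 : Eu n) (ρ0 * β ^ j))) := by
          calc _ ≤ _ := h1
            _ ≤ ENNReal.ofReal ((β ^ n) ^ j) * aa p v k (1/2) := ih
            _ ≤ ENNReal.ofReal ((β ^ n) ^ j) *
                (ENNReal.ofReal (k ^ p) * ((1/2) * volume (ball (0 : Eu n) ρ0))) := by gcongr
            _ = ENNReal.ofReal (k ^ p) * ((1/2) *
                (ENNReal.ofReal ((β ^ n) ^ j) * volume (ball (0 : Eu n) ρ0))) := by ring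
            _ = _ := by
                congr 2
                rw [volume_ball_eq 0 hρ0.le, volume_ball_eq 0 hρj.le, ← mul_assoc,
                  ← ENNReal.ofReal_mul (by positivity)]
                congr 2
                rw [mul_pow, ← pow_mul, ← pow_mul, mul_comm j n]
                ring
        have h3 : ENNReal.ofReal (k ^ p) ≠ 0 := by
          have : 0 < k ^ p := by positivity
          simpa using this
        exact (ENNReal.mul_le_mul_iff_right h3 ENNReal.ofReal_ne_top).1 h2
      have hTj : TT p s v ≤ ENNReal.ofReal (H * (kj j) ^ (p - 1)) := by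
        refine hT.trans (ENNReal.ofReal_le_ofReal ?_)
        apply mul_le_mul_of_nonneg_left _ hH
        exact Real.rpow_le_rpow hk.le (hkj_ge j) (by linarith)
      have hkjj : kj j < kj (j + 1) := by
        have := hkj_diff j
        have : 0 < (d / 2) * (1/2) ^ j := by positivity
        linarith
      have hrjj : rj (j + 1) < rj j := by
        have := hrj_diff j
        have : (0:ℝ) < (1/8) * (1/2) ^ j := by positivity
        linarith
      have hrj0 : 0 < rj (j + 1) := by simp only [hrj]; positivity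
      have hrj1 : rj j ≤ 1 := by
        simp only [hrj]
        have := hhalf1 j
        linarith
      have hk0 : 0 < kj j := lt_of_lt_of_le hk (hkj_ge j)
      have h4 := hstep v hv (kj j) (kj (j + 1)) (rj j) (rj (j + 1)) (ρ0 * β ^ j) H
        hk0 hkjj hrj0 hrjj hrj1 hρj hρle hH hTj hmeas
      have hcoef : C * (kj (j + 1) / (kj (j + 1) - kj j)) ^ p * (1 / (rj j - rj (j + 1))) ^ (p + κ)
        * (1 + H) * (ρ0 * β ^ j) ^ (s * p) ≤ β ^ n := by
        rw [hkj_diff, hrj_diff]
        set t : ℝ := 2 ^ j with ht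
        have ht0 : 0 < t := by positivity
        have ht' : ((1:ℝ)/2) ^ j = 1 / t := by rw [ht, one_div_pow]
        rw [ht']
        have e1 : kj (j + 1) / (d / 2 * (1 / t)) ≤ ((k + d) / d) * (2 * t) := by
          have : d / 2 * (1 / t) = d / (2 * t) := by field_simp
          rw [this, div_div_eq_mul_div, div_mul_eq_mul_div]
          apply div_le_div_of_nonneg_right _ hd.le
          apply mul_le_mul_of_nonneg_right (hkj_le _) (by positivity)
        have e1' : 0 ≤ kj (j + 1) / (d / 2 * (1 / t)) := by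
          apply div_nonneg (by linarith [hkj_ge (j+1)]) (by positivity)
        have e2 : 1 / (1 / 8 * (1 / t)) = 8 * t := by field_simp
        have e3 : (kj (j + 1) / (d / 2 * (1 / t))) ^ p ≤ ((k + d) / d) ^ p * (2 ^ p * t ^ p) := by
          calc _ ≤ (((k + d) / d) * (2 * t)) ^ p := Real.rpow_le_rpow e1' e1 hp0.le
            _ = _ := by
              rw [Real.mul_rpow (by positivity) (by positivity),
                Real.mul_rpow (by norm_num) ht0.le]
        have e4 : (β ^ j) ^ (s * p) = (1 / t) ^ (2 * p + κ) := by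
          rw [← Real.rpow_natCast β j, ← Real.rpow_mul hβ0.le, mul_comm (j:ℝ) (s * p),
            Real.rpow_mul hβ0.le, hβsp, ← Real.rpow_mul (by norm_num), ← ht',
            ← Real.rpow_natCast _ j, ← Real.rpow_mul (by norm_num)]
          congr 1
          ring
        have e5 : t ^ p * t ^ (p + κ) * (1 / t) ^ (2 * p + κ) = 1 := by
          rw [← Real.rpow_add ht0, one_div, Real.inv_rpow ht0.le]
          have : p + (p + κ) = 2 * p + κ := by ring
          rw [this]
          exact mul_inv_cancel₀ (by positivity)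
        rw [e2, Real.mul_rpow hρ0.le (by positivity), e4, Real.mul_rpow (by norm_num) ht0.le]
        calc C * (kj (j + 1) / (d / 2 * (1 / t))) ^ p * (8 ^ (p + κ) * t ^ (p + κ)) * (1 + H)
              * (ρ0 ^ (s * p) * (1 / t) ^ (2 * p + κ))
            ≤ C * (((k + d) / d) ^ p * (2 ^ p * t ^ p)) * (8 ^ (p + κ) * t ^ (p + κ)) * (1 + H)
              * (ρ0 ^ (s * p) * (1 / t) ^ (2 * p + κ)) := by gcongr
          _ = β ^ n * ((C * 2 ^ p * 8 ^ (p + κ) / β ^ n) * ((k + d) / d) ^ p * (1 + H)
                * ρ0 ^ (s * p)) * (t ^ p * t ^ (p + κ) * (1 / t) ^ (2 * p + κ)) := by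
              field_simp
          _ ≤ β ^ n * 1 * 1 := by
              rw [e5]
              gcongr
          _ = β ^ n := by ring
      calc aa p v (kj (j + 1)) (rj (j + 1)) ≤ _ := h4
        _ ≤ ENNReal.ofReal (β ^ n) * aa p v (kj j) (rj j) := by
            gcongr
        _ ≤ ENNReal.ofReal (β ^ n) * (ENNReal.ofReal ((β ^ n) ^ j) * aa p v k (1/2)) := by gcongr
        _ = _ := by
            rw [← mul_assoc, ← ENNReal.ofReal_mul (by positivity)]
            congr 2
            rw [pow_succ]; ring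
  -- conclusion
  have hle : ∀ j, aa p v (k + d) (1/4) ≤ ENNReal.ofReal ((β ^ n) ^ j) * aa p v k (1/2) := by
    intro j
    refine le_trans (aa_mono (hkj_le j) ?_) (hind j)
    simp only [hrj]
    have := hhalf j
    linarith
  have hlim : Tendsto (fun j : ℕ => ENNReal.ofReal ((β ^ n) ^ j) * aa p v k (1/2)) atTop (𝓝 0) := by
    have h1 : Tendsto (fun j : ℕ => (β ^ n) ^ j) atTop (𝓝 0) :=
      tendsto_pow_atTop_nhds_zero_of_lt_one (by positivity) hβn
    have h2 := ENNReal.tendsto_ofReal h1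
    rw [ENNReal.ofReal_zero] at h2
    have h3 := ENNReal.Tendsto.mul_const (b := aa p v k (1/2)) h2 (Or.inr hfin0.ne)
    simpa using h3
  have hzero : aa p v (k + d) (1/4) = 0 :=
    le_antisymm (ge_of_tendsto hlim (Eventually.of_forall hle)) zero_le
  have hvol : volume (Lv v (k + d) (1/4)) = 0 := by
    have h1 := measure_Lv_le (k := k + d) (k' := k + d) (r := 1/4) hp hv.meas (by linarith) le_rfl
    rw [hzero] at h1
    have h2 := le_antisymm h1 zero_le
    rcases mul_eq_zero.1 h2 with h | h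
    · exfalso
      have : 0 < (k + d) ^ p := by positivity
      rw [ENNReal.ofReal_eq_zero] at h
      linarith
    · exact h
  rw [ae_restrict_iff' measurableSet_ball]
  have h3 : ∀ᵐ x, x ∉ Lv v (k + d) (1/4) := by
    rw [ae_iff]; simpa using hvol
  filter_upwards [h3] with x hx hxb
  by_contra h
  push Not at h
  exact hx ⟨hxb, h⟩

end Pool.Agent.helper32.Frac
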