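import Pool.Agent.helper32.Frac.Test

/-! One step of the De Giorgi iteration. -/

namespace Pool.Agent.helper32.Frac

open Real MeasureTheory Set Metric Filter Topology
open scoped ENNReal RealInnerProductSpace

variable {n m : ℕ}

/-- Radial cutoff equal to 1 on the ball of radius `a` and 0 off the ball of radius `b`. -/
noncomputable def radCut (a b : ℝ) (x : Eu n) : ℝ := clampG (-b) (b - a) (-‖x‖)

theorem radCut_cut {a b : ℝ} (hab : a < b) (hab1 : b - a ≤ 1) :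
    Cut (radCut (n := n) a b) (1 / (b - a)) b where
  nonneg x := clampG_nonneg _ _ _
  le_one x := clampG_le_one _ _ _
  lip x y := by
    have h := clampG_lip (c := -b) (δ := b - a) (by linarith) (-‖x‖) (-‖y‖)
    have h1 : |-‖x‖ - -‖y‖| ≤ ‖x - y‖ := by
      have : -‖x‖ - -‖y‖ = -(‖x‖ - ‖y‖) := by ring
      rw [this, abs_neg]
      exact abs_norm_sub_norm_le x y
    unfold radCut
    calc _ ≤ |-‖x‖ - -‖y‖| / (b - a) := h
      _ ≤ ‖x - y‖ / (b - a) := by
        apply div_le_div_of_nonneg_right h1 (by linarith)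
      _ = _ := by ring
  supp x hx := by
    unfold radCut
    apply clampG_eq_zero (by linarith)
    have : b ≤ ‖x‖ := by simpa using hx
    linarith
  one_le := by
    rw [le_div_iff₀ (by linarith)]; linarith

theorem radCut_eq_one {a b : ℝ} (hab : a < b) {x : Eu n} (hx : ‖x‖ ≤ a) : radCut a b x = 1 := by
  unfold radCut
  apply clampG_eq_one (by linarith)
  linarith

/-- Superlevel set in a ball. -/
def Lv (v : Eu n → Eu m) (k r : ℝ) : Set (Eu n) := ball 0 r ∩ {x | k < ‖v x‖}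

theorem measurableSet_Lv {v : Eu n → Eu m} (hv : Measurable v) (k r : ℝ) :
    MeasurableSet (Lv v k r) :=
  measurableSet_ball.inter (measurableSet_lt measurable_const hv.norm)

/-- Energy on the superlevel set. -/
noncomputable def aa (p : ℝ) (v : Eu n → Eu m) (k r : ℝ) : ℝ≥0∞ :=
  ∫⁻ x in Lv v k r, ENNReal.ofReal (‖v x‖ ^ p)

/-- The far error. -/
noncomputable def Q2 (p s c2 : ℝ) (v : Eu n → Eu m) (A : Set (Eu n)) (z : Eu n × Eu n) : ℝ :=
  c2 * (A.indicator (fun x => ‖v x‖ ^ p) z.1 * wt (kap n p s) z.2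
    + A.indicator (fun x => ‖v x‖) z.1 * (‖v z.2‖ ^ (p - 1) * wt (kap n p s) z.2))

theorem Q2_nonneg {p s c2 : ℝ} (hc2 : 0 ≤ c2) (v : Eu n → Eu m) (A : Set (Eu n))
    (z : Eu n × Eu n) : 0 ≤ Q2 p s c2 v A z := by
  unfold Q2
  have h1 : 0 ≤ A.indicator (fun x => ‖v x‖ ^ p) z.1 :=
    indicator_nonneg (fun x _ => Real.rpow_nonneg (norm_nonneg _) _) _
  have h2 : 0 ≤ A.indicator (fun x => ‖v x‖) z.1 :=
    indicator_nonneg (fun x _ => norm_nonneg _) _
  have h3 := (wt_pos (kap n p s) z.2).le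
  have h4 : 0 ≤ ‖v z.2‖ ^ (p - 1) := Real.rpow_nonneg (norm_nonneg _) _
  positivity

theorem measurable_Q2 {p s c2 : ℝ} {v : Eu n → Eu m} (hv : Measurable v) {A : Set (Eu n)}
    (hA : MeasurableSet A) : Measurable (Q2 (n := n) p s c2 v A) := by
  unfold Q2
  have h1 : Measurable (fun z : Eu n × Eu n => A.indicator (fun x => ‖v x‖ ^ p) z.1) :=
    ((hv.norm.pow_const _).indicator hA).comp measurable_fst
  have h2 : Measurable (fun z : Eu n × Eu n => A.indicator (fun x => ‖v x‖) z.1) :=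
    (hv.norm.indicator hA).comp measurable_fst
  have h3 : Measurable (fun z : Eu n × Eu n => wt (kap n p s) z.2) :=
    (measurable_wt _).comp measurable_snd
  have h4 : Measurable (fun z : Eu n × Eu n => ‖v z.2‖ ^ (p - 1)) :=
    (hv.norm.pow_const _).comp measurable_snd
  exact measurable_const.mul ((h1.mul h3).add (h2.mul (h4.mul h3)))

theorem clampG_le_indicator {v : Eu n → Eu m} {k1 k2 r1 : ℝ} (hk1 : 0 < k1) (hk : k1 < k2)
    {x : Eu n} (hx : x ∈ ball (0 : Eu n) r1) :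
    clampG (k1 ^ 2) (k2 ^ 2 - k1 ^ 2) (‖v x‖ ^ 2) ≤ (Lv v k1 r1).indicator (fun _ => 1) x := by
  have hδ : 0 < k2 ^ 2 - k1 ^ 2 := by nlinarith
  by_cases h : x ∈ Lv v k1 r1
  · rw [indicator_of_mem h]; exact clampG_le_one _ _ _
  · rw [indicator_of_notMem h]
    have : ‖v x‖ ≤ k1 := by
      by_contra h'
      push Not at h'
      exact h ⟨hx, h'⟩
    rw [clampG_eq_zero hδ (pow_le_pow_left₀ (norm_nonneg _) this 2)]

/-- pointwise estimate, far case. -/
theorem far_pt [NeZero n] {p s : ℝ} (hp : 1 < p) (hs : 0 < s) {v : Eu n → Eu m}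
    {k1 k2 r1 r2 : ℝ} (hk1 : 0 < k1) (hk : k1 < k2) (hr : r2 < r1) (hr1 : r1 ≤ 1)
    (hr2 : 0 < r2) (L : ℕ) (hL : 1 ≤ L) (z : Eu n × Eu n) (hz1 : z.1 ∈ ball (0 : Eu n) r1)
    (hz2 : z.2 ∉ ball (0 : Eu n) r1) :
    |Fm p s v (tf (radCut r2 ((r1 + r2) / 2)) L (k1 ^ 2) (k2 ^ 2 - k1 ^ 2) v) z|
      ≤ Q2 p s (2 ^ (p - 1) * (8 / (r1 - r2)) ^ (kap n p s)) v (Lv v k1 r1) z := by
  obtain ⟨x, y⟩ := z
  simp only at hz1 hz2
  set κ := kap n p s with hκ
  have hκ0 : 0 < κ := kap_pos hp hs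
  have hp1 : 0 < p - 1 := by linarith
  set φ := tf (radCut r2 ((r1 + r2) / 2)) L (k1 ^ 2) (k2 ^ 2 - k1 ^ 2) v with hφ
  set g := r1 - r2 with hg
  have hg0 : 0 < g := by linarith
  have hcut := radCut_cut (n := n) (a := r2) (b := (r1 + r2) / 2) (by linarith) (by linarith)
  have hc2 : 0 ≤ 2 ^ (p - 1) * (8 / g) ^ κ := by positivity
  have hφy : φ y = 0 := by
    rw [hφ]; unfold tf
    rw [hcut.supp y, zero_pow (by omega)]
    · simp
    · intro h
      apply hz2
      exact ball_subset_ball (by linarith) h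
  by_cases hxs : x ∈ ball (0 : Eu n) ((r1 + r2) / 2)
  · have hx1 : ‖x‖ < (r1 + r2) / 2 := by simpa using hxs
    have hy1 : r1 ≤ ‖y‖ := by simpa using hz2
    have hxy : g / 2 ≤ ‖x - y‖ := by
      have : ‖y‖ - ‖x‖ ≤ ‖x - y‖ := by
        rw [norm_sub_rev]; exact norm_sub_norm_le y x
      linarith
    have hK := Kr_le_wt hκ0 (x := x) (y := y) (ρ := g / 2) (by positivity) (by linarith)
      (by linarith) hxy
    have e8 : (4:ℝ) / (g / 2) = 8 / g := by field_simp; norm_num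
    rw [e8] at hK
    have h3 := norm_form_le hp (v x) (v y) (φ x) (φ y)
    rw [hφy, sub_zero] at h3
    have h4 : ‖v x - v y‖ ^ (p - 1) ≤ 2 ^ (p - 1) * (‖v x‖ ^ (p - 1) + ‖v y‖ ^ (p - 1)) := by
      refine le_trans ?_ (add_rpow_le (norm_nonneg _) (norm_nonneg _) hp1.le)
      apply Real.rpow_le_rpow (norm_nonneg _) (norm_sub_le _ _) hp1.le
    have h5 : ‖φ x‖ ≤ (Lv v k1 r1).indicator (fun x => ‖v x‖) x := by
      rw [hφ]; unfold tf
      have hz0 := hcut.nonneg x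
      rw [norm_smul, norm_mul, Real.norm_of_nonneg (pow_nonneg hz0 _),
        Real.norm_of_nonneg (clampG_nonneg _ _ _)]
      have h6 := clampG_le_indicator (v := v) hk1 hk hz1
      by_cases h : x ∈ Lv v k1 r1
      · rw [indicator_of_mem h] at h6 ⊢
        calc _ ≤ (1 * 1) * ‖v x‖ := by
              gcongr
              · exact clampG_nonneg _ _ _
              · exact pow_le_one₀ hz0 (hcut.le_one x)
          _ = _ := by ring
      · rw [indicator_of_notMem h] at h6 ⊢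
        have : clampG (k1 ^ 2) (k2 ^ 2 - k1 ^ 2) (‖v x‖ ^ 2) = 0 :=
          le_antisymm h6 (clampG_nonneg _ _ _)
        rw [this]; simp
    unfold Fm
    simp only
    rw [abs_mul, abs_of_nonneg (Kr_nonneg _ _ _), hφy, ← hκ]
    unfold Q2
    simp only
    have hwt0 := (wt_pos κ y).le
    calc |form p (v x) (v y) (φ x) 0| * Kr κ x y
        ≤ (‖v x - v y‖ ^ (p - 1) * ‖φ x‖) * ((8 / g) ^ κ * wt κ y) := by
          apply mul_le_mul h3 hK (Kr_nonneg _ _ _)
          apply mul_nonneg (Real.rpow_nonneg (norm_nonneg _) _) (norm_nonneg _)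
      _ ≤ ((2 ^ (p - 1) * (‖v x‖ ^ (p - 1) + ‖v y‖ ^ (p - 1)))
            * (Lv v k1 r1).indicator (fun x => ‖v x‖) x) * ((8 / g) ^ κ * wt κ y) := by
          gcongr
      _ = _ := by
          by_cases h : x ∈ Lv v k1 r1
          · rw [indicator_of_mem h, indicator_of_mem h, ← rpow_sub_one_mul hp (norm_nonneg (v x)),
              ← hκ]
            ring
          · rw [indicator_of_notMem h, indicator_of_notMem h]; ring
  · have hφx : φ x = 0 := by
      rw [hφ]; unfold tf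
      rw [hcut.supp x hxs, zero_pow (by omega)]; simp
    have : Fm p s v φ (x, y) = 0 := by
      unfold Fm form; simp [hφx, hφy]
    rw [this, abs_zero]
    exact Q2_nonneg hc2 _ _ _

/-- The near error. -/
noncomputable def Q1 (p s C1 : ℝ) (v : Eu n → Eu m) (ζ : Eu n → ℝ) (A : Set (Eu n))
    (z : Eu n × Eu n) : ℝ :=
  C1 * ((A.indicator (fun x => ‖v x‖ ^ p) z.1 + A.indicator (fun x => ‖v x‖ ^ p) z.2)
    * (|ζ z.1 - ζ z.2| ^ p * Kr (kap n p s) z.1 z.2))

theorem Q1_nonneg {p s C1 : ℝ} (hC1 : 0 ≤ C1) (v : Eu n → Eu m) (ζ : Eu n → ℝ) (A : Set (Eu n))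
    (z : Eu n × Eu n) : 0 ≤ Q1 p s C1 v ζ A z := by
  unfold Q1
  have h1 : ∀ x, 0 ≤ A.indicator (fun x => ‖v x‖ ^ p) x := fun x =>
    indicator_nonneg (fun x _ => Real.rpow_nonneg (norm_nonneg _) _) _
  have h3 := Kr_nonneg (kap n p s) z.1 z.2
  have h4 := h1 z.1
  have h5 := h1 z.2
  positivity

theorem measurable_Q1 {p s C1 : ℝ} {v : Eu n → Eu m} (hv : Measurable v) {ζ : Eu n → ℝ}
    (hζ : Measurable ζ) {A : Set (Eu n)}
    (hA : MeasurableSet A) : Measurable (Q1 (n := n) p s C1 v ζ A) := by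
  unfold Q1
  have h1 : Measurable (fun z : Eu n × Eu n => A.indicator (fun x => ‖v x‖ ^ p) z.1) :=
    ((hv.norm.pow_const _).indicator hA).comp measurable_fst
  have h2 : Measurable (fun z : Eu n × Eu n => A.indicator (fun x => ‖v x‖ ^ p) z.2) :=
    ((hv.norm.pow_const _).indicator hA).comp measurable_snd
  have h3 : Measurable (fun z : Eu n × Eu n => |ζ z.1 - ζ z.2|) :=
    ((hζ.comp measurable_fst).sub (hζ.comp measurable_snd)).abs
  exact measurable_const.mul ((h1.add h2).mul ((h3.pow_const _).mul (measurable_Kr _)))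

/-- pointwise estimate, near case. -/
theorem near_pt {p s : ℝ} (hp : 1 < p) {v : Eu n → Eu m}
    {k1 k2 r1 : ℝ} (hk1 : 0 < k1) (hk : k1 < k2) {ζ : Eu n → ℝ} {Λ r : ℝ}
    (hζ : Cut ζ Λ r) (L : ℕ) (hL : p ≤ L) (z : Eu n × Eu n) (hz1 : z.1 ∈ ball (0 : Eu n) r1)
    (hz2 : z.2 ∈ ball (0 : Eu n) r1) :
    (1/4) * ‖v z.1 - v z.2‖ ^ p * (ζ z.1 ^ L * clampG (k1 ^ 2) (k2 ^ 2 - k1 ^ 2) (‖v z.1‖ ^ 2))
        * Kr (kap n p s) z.1 z.2
      - Q1 p s (2 ^ (p - 1) * (L:ℝ) ^ p * 2 ^ p) v ζ (Lv v k1 r1) z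
      ≤ Fm p s v (tf ζ L (k1 ^ 2) (k2 ^ 2 - k1 ^ 2) v) z := by
  obtain ⟨x, y⟩ := z
  simp only at hz1 hz2
  set κ := kap n p s with hκ
  have hp0 : 0 < p := by linarith
  have hδ : 0 < k2 ^ 2 - k1 ^ 2 := by nlinarith
  set G1 := clampG (k1 ^ 2) (k2 ^ 2 - k1 ^ 2) (‖v x‖ ^ 2) with hG1
  set G2 := clampG (k1 ^ 2) (k2 ^ 2 - k1 ^ 2) (‖v y‖ ^ 2) with hG2
  have hG10 : 0 ≤ G1 := clampG_nonneg _ _ _
  have hG20 : 0 ≤ G2 := clampG_nonneg _ _ _
  have hb := bound1 hp L hL (v x) (v y) (hζ.nonneg x) (hζ.le_one x) (hζ.nonneg y) (hζ.le_one y)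
    hG10 hG20
    (fun h => clampG_mono hδ (pow_le_pow_left₀ (norm_nonneg _) h 2))
    (fun h => clampG_mono hδ (pow_le_pow_left₀ (norm_nonneg _) h 2))
  have hK := Kr_nonneg κ x y
  have hFm : Fm p s v (tf ζ L (k1 ^ 2) (k2 ^ 2 - k1 ^ 2) v) (x, y)
      = form p (v x) (v y) ((ζ x ^ L * G1) • v x) ((ζ y ^ L * G2) • v y) * Kr κ x y := rfl
  rw [hFm]
  refine le_trans ?_ (mul_le_mul_of_nonneg_right hb hK)
  have i1 := clampG_le_indicator (v := v) hk1 hk hz1
  have i2 := clampG_le_indicator (v := v) hk1 hk hz2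
  rw [← hG1] at i1
  rw [← hG2] at i2
  have hmin : (‖v x‖ + ‖v y‖) ^ p * min G1 G2 ≤
      2 ^ p * ((Lv v k1 r1).indicator (fun x => ‖v x‖ ^ p) x
        + (Lv v k1 r1).indicator (fun x => ‖v x‖ ^ p) y) := by
    have ind0 : ∀ x, 0 ≤ (Lv v k1 r1).indicator (fun x => ‖v x‖ ^ p) x := fun x =>
      indicator_nonneg (fun x _ => Real.rpow_nonneg (norm_nonneg _) _) _
    by_cases hx : x ∈ Lv v k1 r1
    · by_cases hy : y ∈ Lv v k1 r1
      · rw [indicator_of_mem hx] at i1 ⊢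
        rw [indicator_of_mem hy]
        calc _ ≤ (‖v x‖ + ‖v y‖) ^ p * 1 := by
              gcongr
              exact (min_le_left _ _).trans i1
          _ ≤ _ := by
              rw [mul_one]
              exact add_rpow_le (norm_nonneg _) (norm_nonneg _) hp0.le
      · rw [indicator_of_notMem hy] at i2
        have : min G1 G2 = 0 := le_antisymm ((min_le_right _ _).trans i2) (le_min hG10 hG20)
        rw [this, mul_zero]
        have := ind0 x
        have := ind0 y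
        positivity
    · rw [indicator_of_notMem hx] at i1
      have : min G1 G2 = 0 := le_antisymm ((min_le_left _ _).trans i1) (le_min hG10 hG20)
      rw [this, mul_zero]
      have := ind0 x
      have := ind0 y
      positivity
  unfold Q1
  simp only
  rw [← hκ, sub_mul]
  apply sub_le_sub
  · apply mul_le_mul_of_nonneg_right _ hK
    apply mul_le_mul_of_nonneg_left _ (by positivity)
    have : 0 ≤ ζ y ^ L * G2 := mul_nonneg (pow_nonneg (hζ.nonneg y) _) hG20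
    linarith
  · have hΔ : 0 ≤ |ζ x - ζ y| ^ p * Kr κ x y := by positivity
    have t := mul_le_mul_of_nonneg_left
      (mul_le_mul_of_nonneg_right hmin hΔ) (by positivity : (0:ℝ) ≤ 2 ^ (p - 1) * (L:ℝ) ^ p)
    calc _ = 2 ^ (p - 1) * (L:ℝ) ^ p * ((‖v x‖ + ‖v y‖) ^ p * min G1 G2 *
          (|ζ x - ζ y| ^ p * Kr κ x y)) := by ring
      _ ≤ _ := t
      _ = _ := by ring

/-- The good term. -/
noncomputable def PP (p s : ℝ) (v : Eu n → Eu m) (ζ : Eu n → ℝ) (L : ℕ) (c δ r1 : ℝ)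
    (z : Eu n × Eu n) : ℝ :=
  (Prod.snd ⁻¹' (ball (0 : Eu n) r1)).indicator (fun z : Eu n × Eu n =>
    (1/4) * ‖v z.1 - v z.2‖ ^ p * (ζ z.1 ^ L * clampG c δ (‖v z.1‖ ^ 2))
        * Kr (kap n p s) z.1 z.2) z

theorem PP_nonneg {p s : ℝ} {v : Eu n → Eu m} {ζ : Eu n → ℝ} {Λ r : ℝ}
    (hζ : Cut ζ Λ r) (L : ℕ) (c δ r1 : ℝ) (z : Eu n × Eu n) : 0 ≤ PP p s v ζ L c δ r1 z := by
  unfold PP
  apply indicator_nonneg
  intro z _
  have h1 := Kr_nonneg (kap n p s) z.1 z.2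
  have h2 := hζ.nonneg z.1
  have h3 := clampG_nonneg c δ (‖v z.1‖ ^ 2)
  positivity

/-- Integrated inequality of the De Giorgi step. -/
theorem dg_int [NeZero n] {p s : ℝ} (hp : 1 < p) (hs : 0 < s) (hs1 : s < 1) {v : Eu n → Eu m}
    (hv : Sol p s v) {k1 k2 r1 r2 : ℝ} (hk1 : 0 < k1) (hk : k1 < k2) (hr : r2 < r1) (hr1 : r1 ≤ 1)
    (hr2 : 0 < r2) (L : ℕ) (hL : p ≤ L) :
    ∫⁻ z, ENNReal.ofReal (PP p s v (radCut r2 ((r1 + r2) / 2)) L (k1 ^ 2) (k2 ^ 2 - k1 ^ 2) r1 z)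
    ≤ ∫⁻ z, ENNReal.ofReal (Q1 p s (2 ^ (p - 1) * (L:ℝ) ^ p * 2 ^ p) v
        (radCut r2 ((r1 + r2) / 2)) (Lv v k1 r1) z
        + (Q2 p s (2 ^ (p - 1) * (8 / (r1 - r2)) ^ (kap n p s)) v (Lv v k1 r1) z
        + Q2 p s (2 ^ (p - 1) * (8 / (r1 - r2)) ^ (kap n p s)) v (Lv v k1 r1) z.swap)) := by
  have hL1 : 1 ≤ L := by
    have : (1:ℝ) < L := lt_of_lt_of_le hp hL
    exact_mod_cast this.le
  have hcut := radCut_cut (n := n) (a := r2) (b := (r1 + r2) / 2) (by linarith) (by linarith)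
  have hcut1 : Cut (radCut (n := n) r2 ((r1 + r2) / 2)) (1 / ((r1 + r2) / 2 - r2)) 1 :=
    ⟨hcut.nonneg, hcut.le_one, hcut.lip, fun x hx => hcut.supp x (fun h => hx
      (ball_subset_ball (by linarith) h)), hcut.one_le⟩
  have hδ : 0 < k2 ^ 2 - k1 ^ 2 := by nlinarith
  have hA := measurableSet_Lv hv.meas k1 r1
  have hc2 : 0 ≤ 2 ^ (p - 1) * (8 / (r1 - r2)) ^ (kap n p s) := by
    have : 0 < r1 - r2 := by linarith
    positivity
  have hC1 : 0 ≤ 2 ^ (p - 1) * (L:ℝ) ^ p * 2 ^ p := by positivity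
  apply compare hp hs hv (tf_adm hp hs hs1 hv hcut1 hL1 (by positivity : 0 ≤ k1 ^ 2) hδ)
  · exact (measurable_Q1 hv.meas hcut.measurable hA).add
      ((measurable_Q2 hv.meas hA).add ((measurable_Q2 hv.meas hA).comp measurable_swap))
  · exact PP_nonneg hcut _ _ _ _
  · intro z
    have h1 := Q1_nonneg (p := p) (s := s) hC1 v (radCut r2 ((r1 + r2) / 2)) (Lv v k1 r1) z
    have h2 := Q2_nonneg (p := p) (s := s) hc2 v (Lv v k1 r1) z
    have h3 := Q2_nonneg (p := p) (s := s) hc2 v (Lv v k1 r1) z.swap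
    linarith
  · filter_upwards with z
    have h1 := Q1_nonneg (p := p) (s := s) hC1 v (radCut r2 ((r1 + r2) / 2)) (Lv v k1 r1) z
    have h2 := Q2_nonneg (p := p) (s := s) hc2 v (Lv v k1 r1) z
    have h3 := Q2_nonneg (p := p) (s := s) hc2 v (Lv v k1 r1) z.swap
    have tf0 : ∀ x, x ∉ ball (0 : Eu n) r1 →
        tf (radCut r2 ((r1 + r2) / 2)) L (k1 ^ 2) (k2 ^ 2 - k1 ^ 2) v x = 0 := by
      intro x hx
      unfold tf
      rw [hcut.supp x (fun h => hx (ball_subset_ball (by linarith) h)), zero_pow (by omega)]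
      simp
    by_cases hz1 : z.1 ∈ ball (0 : Eu n) r1 <;> by_cases hz2 : z.2 ∈ ball (0 : Eu n) r1
    · have h := near_pt (s := s) hp (v := v) hk1 hk hcut L hL z hz1 hz2
      unfold PP
      rw [indicator_of_mem (by exact hz2)]
      linarith
    · have h := far_pt hp hs (v := v) hk1 hk hr hr1 hr2 L hL1 z hz1 hz2
      unfold PP
      rw [indicator_of_notMem (by exact hz2)]
      have := neg_le_of_abs_le h
      linarith
    · have h := far_pt hp hs (v := v) hk1 hk hr hr1 hr2 L hL1 z.swap hz2 hz1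
      rw [Fm_swap] at h
      unfold PP
      rw [indicator_of_mem (by exact hz2)]
      have hz : radCut r2 ((r1 + r2) / 2) z.1 = 0 :=
        hcut.supp _ (fun h => hz1 (ball_subset_ball (by linarith) h))
      rw [hz, zero_pow (by omega)]
      have := neg_le_of_abs_le h
      simp only [zero_mul, mul_zero]
      linarith
    · unfold PP
      rw [indicator_of_notMem (by exact hz2)]
      have : Fm p s v (tf (radCut r2 ((r1 + r2) / 2)) L (k1 ^ 2) (k2 ^ 2 - k1 ^ 2) v) z = 0 := by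
        unfold Fm form
        rw [tf0 _ hz1, tf0 _ hz2]; simp
      rw [this]
      linarith

theorem ofReal_indicator_eq (A : Set (Eu n)) (f : Eu n → ℝ) (x : Eu n) :
    ENNReal.ofReal (A.indicator f x) = A.indicator (fun x => ENNReal.ofReal (f x)) x := by
  by_cases h : x ∈ A
  · rw [indicator_of_mem h, indicator_of_mem h]
  · rw [indicator_of_notMem h, indicator_of_notMem h, ENNReal.ofReal_zero]

theorem lint_ind {A : Set (Eu n)} (hA : MeasurableSet A) (f : Eu n → ℝ) :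
    ∫⁻ x, ENNReal.ofReal (A.indicator f x) = ∫⁻ x in A, ENNReal.ofReal (f x) := by
  simp_rw [ofReal_indicator_eq]
  rw [lintegral_indicator hA]

/-- The tail. -/
noncomputable def TT (p s : ℝ) (v : Eu n → Eu m) : ℝ≥0∞ :=
  ∫⁻ y, ENNReal.ofReal (‖v y‖ ^ (p - 1) * wt (kap n p s) y)

/-- The weight integral. -/
noncomputable def WW (n : ℕ) (p s : ℝ) : ℝ≥0∞ :=
  ∫⁻ y : Eu n, ENNReal.ofReal (wt (kap n p s) y)

theorem WW_lt_top {p s : ℝ} (hp : 1 < p) (hs : 0 < s) : WW n p s < ∞ :=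
  (integrable_wt hp hs).lintegral_lt_top

theorem lint_Q1 {p s C1 : ℝ} (hp : 1 < p) (hC1 : 0 ≤ C1) {v : Eu n → Eu m} (hv : Measurable v)
    {ζ : Eu n → ℝ} {Λ r : ℝ} (hζ : Cut ζ Λ r) {A : Set (Eu n)} (hA : MeasurableSet A) :
    ∫⁻ z, ENNReal.ofReal (Q1 p s C1 v ζ A z)
      ≤ ENNReal.ofReal (2 * C1) * (ENNReal.ofReal (Λ ^ p) * CK n p s)
        * ∫⁻ x in A, ENNReal.ofReal (‖v x‖ ^ p) := by
  set w : Eu n → ℝ≥0∞ := fun x => ENNReal.ofReal (A.indicator (fun x => ‖v x‖ ^ p) x) with hw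
  have hwm : Measurable w := ((hv.norm.pow_const _).indicator hA).ennreal_ofReal
  set k : Eu n × Eu n → ℝ≥0∞ := fun z =>
      ENNReal.ofReal (|ζ z.1 - ζ z.2| ^ p * Kr (kap n p s) z.1 z.2) with hk
  have hkm : Measurable k := by
    have h1 : Measurable (fun z : Eu n × Eu n => |ζ z.1 - ζ z.2|) :=
      ((hζ.measurable.comp measurable_fst).sub (hζ.measurable.comp measurable_snd)).abs
    exact ((h1.pow_const _).mul (measurable_Kr _)).ennreal_ofReal
  have hm1 : Measurable (fun z : Eu n × Eu n => w z.1 * k z) := (hwm.comp measurable_fst).mul hkm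
  have ind0 : ∀ x, 0 ≤ A.indicator (fun x => ‖v x‖ ^ p) x := fun x =>
      indicator_nonneg (fun x _ => Real.rpow_nonneg (norm_nonneg _) _) _
  have e1 : ∀ z : Eu n × Eu n, ENNReal.ofReal (Q1 p s C1 v ζ A z)
      = ENNReal.ofReal C1 * (w z.1 * k z + w z.2 * k z) := by
    intro z
    have h3 := Kr_nonneg (kap n p s) z.1 z.2
    have h4 := ind0 z.1
    have h5 := ind0 z.2
    unfold Q1
    rw [ENNReal.ofReal_mul hC1, ENNReal.ofReal_mul (by positivity), ENNReal.ofReal_add h4 h5,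
      add_mul]
  simp_rw [e1]
  rw [lintegral_const_mul' _ _ ENNReal.ofReal_ne_top, lintegral_add_left hm1]
  have i1 := hζ.lint (n := n) (s := s) hp hwm
  have i2 : ∫⁻ z : Eu n × Eu n, w z.2 * k z = ∫⁻ z : Eu n × Eu n, w z.1 * k z := by
    rw [← lintegral_swap' hm1]
    apply lintegral_congr
    rintro ⟨x, y⟩
    simp only [Prod.swap, hk]
    rw [Kr_symm, abs_sub_comm]
  rw [i2, ← lint_ind hA]
  calc ENNReal.ofReal C1 * ((∫⁻ z : Eu n × Eu n, w z.1 * k z) + ∫⁻ z : Eu n × Eu n, w z.1 * k z)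
      ≤ ENNReal.ofReal C1 * ((ENNReal.ofReal (Λ ^ p) * CK n p s) * (∫⁻ x, w x)
        + (ENNReal.ofReal (Λ ^ p) * CK n p s) * ∫⁻ x, w x) := by
        gcongr
    _ = _ := by
        rw [ENNReal.ofReal_mul (by norm_num : (0:ℝ) ≤ 2), ENNReal.ofReal_ofNat]
        ring

theorem lint_Q2 {p s c2 : ℝ} (hc2 : 0 ≤ c2) {v : Eu n → Eu m}
    (hv : Measurable v) {A : Set (Eu n)} (hA : MeasurableSet A) :
    ∫⁻ z, ENNReal.ofReal (Q2 p s c2 v A z)
      = ENNReal.ofReal c2 * ((∫⁻ x in A, ENNReal.ofReal (‖v x‖ ^ p)) * WW n p s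
        + (∫⁻ x in A, ENNReal.ofReal (‖v x‖)) * TT p s v) := by
  set w : Eu n → ℝ≥0∞ := fun x => ENNReal.ofReal (A.indicator (fun x => ‖v x‖ ^ p) x) with hw
  have hwm : Measurable w := ((hv.norm.pow_const _).indicator hA).ennreal_ofReal
  set w1 : Eu n → ℝ≥0∞ := fun x => ENNReal.ofReal (A.indicator (fun x => ‖v x‖) x) with hw1
  have hwm1 : Measurable w1 := (hv.norm.indicator hA).ennreal_ofReal
  set t0 : Eu n → ℝ≥0∞ := fun y => ENNReal.ofReal (wt (kap n p s) y) with ht0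
  have htm0 : Measurable t0 := (measurable_wt _).ennreal_ofReal
  set t1 : Eu n → ℝ≥0∞ := fun y => ENNReal.ofReal (‖v y‖ ^ (p - 1) * wt (kap n p s) y) with ht1
  have htm1 : Measurable t1 := ((hv.norm.pow_const _).mul (measurable_wt _)).ennreal_ofReal
  have ind0 : ∀ x, 0 ≤ A.indicator (fun x => ‖v x‖ ^ p) x := fun x =>
      indicator_nonneg (fun x _ => Real.rpow_nonneg (norm_nonneg _) _) _
  have ind1 : ∀ x, 0 ≤ A.indicator (fun x => ‖v x‖) x := fun x =>
      indicator_nonneg (fun x _ => norm_nonneg _) _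
  have e1 : ∀ z : Eu n × Eu n, ENNReal.ofReal (Q2 p s c2 v A z)
      = ENNReal.ofReal c2 * (w z.1 * t0 z.2 + w1 z.1 * t1 z.2) := by
    intro z
    have h3 := (wt_pos (kap n p s) z.2).le
    have h4 := ind0 z.1
    have h5 := ind1 z.1
    unfold Q2
    rw [ENNReal.ofReal_mul hc2, ENNReal.ofReal_add (by positivity) (by positivity),
      ENNReal.ofReal_mul h4, ENNReal.ofReal_mul h5]
  simp_rw [e1]
  have hm1 : Measurable (fun z : Eu n × Eu n => w z.1 * t0 z.2) :=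
    (hwm.comp measurable_fst).mul (htm0.comp measurable_snd)
  rw [lintegral_const_mul' _ _ ENNReal.ofReal_ne_top, lintegral_add_left hm1,
    Measure.volume_eq_prod, lintegral_prod_mul hwm.aemeasurable htm0.aemeasurable,
    lintegral_prod_mul hwm1.aemeasurable htm1.aemeasurable, ← lint_ind hA, ← lint_ind hA]
  rfl

theorem volume_ball_eq [NeZero n] (x : Eu n) {ρ : ℝ} (hρ : 0 ≤ ρ) :
    volume (ball x ρ) = ENNReal.ofReal (ρ ^ n) * volume (ball (0 : Eu n) 1) := by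
  have := Measure.addHaar_ball (volume : Measure (Eu n)) x hρ
  rw [finrank_euclideanSpace_fin] at this
  exact this

/-- lower bound for the good term. -/
theorem lint_PP_ge [NeZero n] {p s : ℝ} (hp : 1 < p) (hs : 0 < s) {v : Eu n → Eu m}
    (hv : Measurable v) {k1 k2 r1 r2 ρ : ℝ} (hk1 : 0 < k1) (hk : k1 < k2) (hr : r2 < r1)
    (hρ : 0 < ρ) (hρr : ρ ≤ r1 - r2) (L : ℕ)
    (hsmall : volume (Lv v k1 r1) ≤ (1/2) * volume (ball (0 : Eu n) ρ)) :
    ENNReal.ofReal ((1/4) * ((k2 - k1) / k2) ^ p * ρ ^ (-(kap n p s)))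
      * ((1/2) * volume (ball (0 : Eu n) ρ)) * aa p v k2 r2
    ≤ ∫⁻ z, ENNReal.ofReal (PP p s v (radCut r2 ((r1 + r2) / 2)) L (k1 ^ 2) (k2 ^ 2 - k1 ^ 2) r1 z)
      := by
  set κ := kap n p s with hκ
  have hκ0 : 0 < κ := kap_pos hp hs
  have hp0 : 0 < p := by linarith
  have hδ : 0 < k2 ^ 2 - k1 ^ 2 := by nlinarith
  have hk2 : 0 < k2 := by linarith
  set θ := (k2 - k1) / k2 with hθ
  have hθ0 : 0 < θ := div_pos (by linarith) hk2
  set ζ := radCut (n := n) r2 ((r1 + r2) / 2) with hζ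
  have hζm : Measurable ζ := by
    rw [hζ]; unfold radCut
    exact (measurable_clampG _ _).comp measurable_norm.neg
  set f : Eu n × Eu n → ℝ≥0∞ := fun z =>
    ENNReal.ofReal (PP p s v ζ L (k1 ^ 2) (k2 ^ 2 - k1 ^ 2) r1 z) with hf
  have hfm : Measurable f := by
    have h1 : Measurable (fun z : Eu n × Eu n => v z.1 - v z.2) :=
      (hv.comp measurable_fst).sub (hv.comp measurable_snd)
    have h2 : Measurable (fun z : Eu n × Eu n => ζ z.1 ^ L) :=
      (hζm.comp measurable_fst).pow_const _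
    have h3 : Measurable (fun z : Eu n × Eu n =>
        clampG (k1 ^ 2) (k2 ^ 2 - k1 ^ 2) (‖v z.1‖ ^ 2)) :=
      (measurable_clampG _ _).comp (((hv.comp measurable_fst).norm).pow_const _)
    have h4 : Measurable (fun z : Eu n × Eu n => (1/4) * ‖v z.1 - v z.2‖ ^ p
        * (ζ z.1 ^ L * clampG (k1 ^ 2) (k2 ^ 2 - k1 ^ 2) (‖v z.1‖ ^ 2)) * Kr κ z.1 z.2) :=
      ((measurable_const.mul (h1.norm.pow_const _)).mul (h2.mul h3)).mul (measurable_Kr _)
    exact (h4.indicator (measurable_snd measurableSet_ball)).ennreal_ofReal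
  rw [Measure.volume_eq_prod, lintegral_prod _ hfm.aemeasurable]
  set A1 := Lv v k1 r1 with hA1
  set A2 := Lv v k2 r2 with hA2
  have hA2m : MeasurableSet A2 := measurableSet_Lv hv _ _
  have hA1m : MeasurableSet A1 := measurableSet_Lv hv _ _
  set M := (1/2) * volume (ball (0 : Eu n) ρ) with hM
  have hball_fin : volume (ball (0 : Eu n) ρ) ≠ ∞ := measure_ball_lt_top.ne
  have hinner : ∀ x ∈ A2, ENNReal.ofReal ((1/4) * θ ^ p * ρ ^ (-κ)) * M
      * ENNReal.ofReal (‖v x‖ ^ p) ≤ ∫⁻ y, f (x, y) := by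
    rintro x ⟨hx, hxk⟩
    have hx1 : ‖x‖ < r2 := by simpa using hx
    have hxk' : k2 < ‖v x‖ := hxk
    set S := ball x ρ \ (A1 ∪ {x}) with hS
    have hSm : MeasurableSet S := measurableSet_ball.diff (hA1m.union (measurableSet_singleton x))
    have hSv : M ≤ volume S := by
      have h1 : volume (ball x ρ) ≤ volume S + volume (A1 ∪ {x}) := by
        calc volume (ball x ρ) ≤ volume (S ∪ (A1 ∪ {x})) := by
              apply measure_mono
              intro y hy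
              by_cases h : y ∈ A1 ∪ {x}
              · exact Or.inr h
              · exact Or.inl ⟨hy, h⟩
          _ ≤ _ := measure_union_le _ _
      have h2 : volume (A1 ∪ {x}) ≤ M := by
        calc volume (A1 ∪ {x}) ≤ volume A1 + volume {x} := measure_union_le _ _
          _ = volume A1 := by
              have : Nontrivial (Eu n) := by
                have : 0 < n := Nat.pos_of_ne_zero (NeZero.ne n)
                have h : Module.finrank ℝ (Eu n) = n := by simp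
                exact Module.nontrivial_of_finrank_pos (R := ℝ) (by rw [h]; exact this)
              rw [measure_singleton, add_zero]
          _ ≤ _ := hsmall
      have h3 : volume (ball x ρ) = M + M := by
        rw [hM, ← add_mul, ENNReal.add_halves, one_mul, volume_ball_eq x hρ.le,
          volume_ball_eq 0 hρ.le]
      rw [h3] at h1
      have hMfin : M ≠ ∞ := by
        rw [hM]; exact ENNReal.mul_ne_top (by simp) hball_fin
      have h4 : M + M ≤ volume S + M := h1.trans (by gcongr)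
      exact (ENNReal.add_le_add_iff_right hMfin).1 h4
    have hpt : ∀ y ∈ S, ENNReal.ofReal ((1/4) * θ ^ p * ρ ^ (-κ) * ‖v x‖ ^ p) ≤ f (x, y) := by
      rintro y ⟨hy, hyn⟩
      simp only [mem_union, mem_singleton_iff, not_or] at hyn
      have hyx : ‖x - y‖ < ρ := by
        rw [mem_ball, dist_eq_norm, norm_sub_rev] at hy; exact hy
      have hyball : y ∈ ball (0 : Eu n) r1 := by
        rw [mem_ball_zero_iff]
        have : ‖y‖ ≤ ‖x‖ + ‖x - y‖ := by
          have := norm_sub_le x (x - y)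
          simpa using this
        linarith
      have hvy : ‖v y‖ ≤ k1 := by
        by_contra h
        push Not at h
        exact hyn.1 ⟨hyball, h⟩
      simp only [hf]
      unfold PP
      rw [indicator_of_mem (by exact hyball)]
      apply ENNReal.ofReal_le_ofReal
      simp only
      have hζx : ζ x = 1 := radCut_eq_one (by linarith) hx1.le
      have hGx : clampG (k1 ^ 2) (k2 ^ 2 - k1 ^ 2) (‖v x‖ ^ 2) = 1 := by
        apply clampG_eq_one hδ
        have := pow_le_pow_left₀ hk2.le hxk'.le 2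
        linarith
      rw [hζx, hGx, one_pow, mul_one, mul_one]
      have hD : θ * ‖v x‖ ≤ ‖v x - v y‖ := by
        have h1 : ‖v x‖ - ‖v y‖ ≤ ‖v x - v y‖ := norm_sub_norm_le _ _
        have h2 : θ * ‖v x‖ ≤ ‖v x‖ - k1 := by
          rw [hθ, div_mul_eq_mul_div, div_le_iff₀ hk2]
          nlinarith
        linarith
      have hK : ρ ^ (-κ) ≤ Kr κ x y := by
        unfold Kr
        have hne : 0 < ‖x - y‖ := by
          rw [norm_pos_iff, sub_ne_zero]
          exact fun h => hyn.2 h.symm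
        exact Real.rpow_le_rpow_of_nonpos hne hyx.le (by linarith)
      calc (1/4) * θ ^ p * ρ ^ (-κ) * ‖v x‖ ^ p = (1/4) * (θ * ‖v x‖) ^ p * ρ ^ (-κ) := by
            rw [Real.mul_rpow hθ0.le (norm_nonneg _)]; ring
        _ ≤ (1/4) * ‖v x - v y‖ ^ p * Kr κ x y := by
            gcongr
    calc ENNReal.ofReal ((1/4) * θ ^ p * ρ ^ (-κ)) * M * ENNReal.ofReal (‖v x‖ ^ p)
        = ENNReal.ofReal ((1/4) * θ ^ p * ρ ^ (-κ) * ‖v x‖ ^ p) * M := by
          rw [ENNReal.ofReal_mul (p := (1/4) * θ ^ p * ρ ^ (-κ)) (by positivity)]; ring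
      _ ≤ ENNReal.ofReal ((1/4) * θ ^ p * ρ ^ (-κ) * ‖v x‖ ^ p) * volume S := by gcongr
      _ = ∫⁻ y in S, ENNReal.ofReal ((1/4) * θ ^ p * ρ ^ (-κ) * ‖v x‖ ^ p) := by
          rw [setLIntegral_const]
      _ ≤ ∫⁻ y in S, f (x, y) := setLIntegral_mono' hSm hpt
      _ ≤ ∫⁻ y, f (x, y) := setLIntegral_le_lintegral _ _
  calc ENNReal.ofReal ((1/4) * θ ^ p * ρ ^ (-κ)) * M * aa p v k2 r2
      = ∫⁻ x in A2, ENNReal.ofReal ((1/4) * θ ^ p * ρ ^ (-κ)) * M
      * ENNReal.ofReal (‖v x‖ ^ p) := by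
        unfold aa
        rw [lintegral_const_mul']
        exact ENNReal.mul_ne_top ENNReal.ofReal_ne_top
          (by rw [hM]; exact ENNReal.mul_ne_top (by simp) hball_fin)
    _ ≤ ∫⁻ x in A2, ∫⁻ y, f (x, y) := setLIntegral_mono' hA2m hinner
    _ ≤ _ := setLIntegral_le_lintegral _ _

theorem lint_norm_le {p : ℝ} (hp : 1 < p) {v : Eu n → Eu m} (hv : Measurable v)
    {k1 r1 : ℝ} (hk1 : 0 < k1) :
    ∫⁻ x in Lv v k1 r1, ENNReal.ofReal (‖v x‖) ≤ ENNReal.ofReal (k1 ^ (1 - p)) * aa p v k1 r1 := by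
  unfold aa
  rw [← lintegral_const_mul' _ _ ENNReal.ofReal_ne_top]
  apply setLIntegral_mono' (measurableSet_Lv hv _ _)
  rintro x ⟨_, hx⟩
  have hx' : k1 < ‖v x‖ := hx
  have hv0 : 0 < ‖v x‖ := hk1.trans hx'
  rw [← ENNReal.ofReal_mul (by positivity)]
  apply ENNReal.ofReal_le_ofReal
  calc ‖v x‖ = ‖v x‖ ^ (1 - p) * ‖v x‖ ^ p := by
        rw [← Real.rpow_add hv0]; simp
    _ ≤ k1 ^ (1 - p) * ‖v x‖ ^ p := by
        apply mul_le_mul_of_nonneg_right _ (Real.rpow_nonneg (norm_nonneg _) _)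
        exact Real.rpow_le_rpow_of_nonpos hk1 hx'.le (by linarith)

/-- One step of the De Giorgi iteration. -/
theorem dg_step [NeZero n] {p s : ℝ} (hp : 1 < p) (hs : 0 < s) (hs1 : s < 1) :
    ∃ C : ℝ, 0 < C ∧ ∀ v : Eu n → Eu m, Sol p s v → ∀ k1 k2 r1 r2 ρ H : ℝ,
      0 < k1 → k1 < k2 → 0 < r2 → r2 < r1 → r1 ≤ 1 → 0 < ρ → ρ ≤ r1 - r2 → 0 ≤ H →
      TT p s v ≤ ENNReal.ofReal (H * k1 ^ (p - 1)) →
      volume (Lv v k1 r1) ≤ (1/2) * volume (ball (0 : Eu n) ρ) →
      aa p v k2 r2 ≤ ENNReal.ofReal (C * (k2 / (k2 - k1)) ^ p * (1 / (r1 - r2)) ^ (p + kap n p s)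
        * (1 + H) * ρ ^ (s * p)) * aa p v k1 r1 := by
  obtain ⟨L, hL⟩ := exists_nat_ge p
  set κ := kap n p s with hκ
  have hκ0 : 0 < κ := kap_pos hp hs
  have hp0 : 0 < p := by linarith
  set cK := (CK n p s).toReal with hcK
  have hCK : CK n p s = ENNReal.ofReal cK := by
    rw [hcK, ENNReal.ofReal_toReal (CK_lt_top hp hs hs1).ne]
  have hcK0 : 0 ≤ cK := ENNReal.toReal_nonneg
  set w0 := (WW n p s).toReal with hw0
  have hWW : WW n p s = ENNReal.ofReal w0 := by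
    rw [hw0, ENNReal.ofReal_toReal (WW_lt_top hp hs).ne]
  have hw00 : 0 ≤ w0 := ENNReal.toReal_nonneg
  set ω := (volume (ball (0 : Eu n) 1)).toReal with hω
  have hωfin : volume (ball (0 : Eu n) 1) ≠ ∞ := measure_ball_lt_top.ne
  have hω' : volume (ball (0 : Eu n) 1) = ENNReal.ofReal ω := by
    rw [hω, ENNReal.ofReal_toReal hωfin]
  have hω0 : 0 < ω := ENNReal.toReal_pos (measure_ball_pos _ _ zero_lt_one).ne' hωfin
  set C1 : ℝ := 2 ^ (p - 1) * (L:ℝ) ^ p * 2 ^ p with hC1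
  have hC10 : 0 ≤ C1 := by positivity
  set C' : ℝ := 2 * C1 * (2 ^ p * cK) + 2 * (2 ^ (p - 1) * 8 ^ κ) * (w0 + 1) with hC'
  have hC'0 : 0 < C' := by positivity
  refine ⟨8 * C' / ω, by positivity, ?_⟩
  intro v hv k1 k2 r1 r2 ρ H hk1 hk hr2 hr hr1 hρ hρr hH hT hsmall
  have hk2 : 0 < k2 := by linarith
  set g := r1 - r2 with hg
  have hg0 : 0 < g := by linarith
  have hg1 : g ≤ 1 := by linarith
  set θ := (k2 - k1) / k2 with hθ
  have hθ0 : 0 < θ := div_pos (by linarith) hk2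
  have h1 := lint_PP_ge hp hs hv.meas hk1 hk hr hρ hρr L hsmall
  have h2 := dg_int hp hs hs1 hv hk1 hk hr hr1 hr2 L hL
  have hA := measurableSet_Lv hv.meas k1 r1
  set c2 : ℝ := 2 ^ (p - 1) * (8 / g) ^ κ with hc2
  have hc20 : 0 ≤ c2 := by positivity
  have hcut := radCut_cut (n := n) (a := r2) (b := (r1 + r2) / 2) (by linarith) (by linarith)
  have hΛ : 1 / ((r1 + r2) / 2 - r2) = 2 * (1 / g) := by
    have : (r1 + r2) / 2 - r2 = g / 2 := by rw [hg]; ring
    rw [this]; field_simp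
  rw [hΛ] at hcut
  have h3 := lint_Q1 (s := s) hp hC10 hv.meas hcut hA
  have h4 := lint_Q2 (p := p) (s := s) hc20 hv.meas hA
  have h5 : ∫⁻ z, ENNReal.ofReal (Q2 p s c2 v (Lv v k1 r1) z)
      ≤ ENNReal.ofReal (c2 * (w0 + H)) * aa p v k1 r1 := by
    rw [h4, ENNReal.ofReal_mul hc20, mul_assoc]
    gcongr
    have e1 := lint_norm_le (r1 := r1) hp hv.meas hk1
    calc (∫⁻ x in Lv v k1 r1, ENNReal.ofReal (‖v x‖ ^ p)) * WW n p s
        + (∫⁻ x in Lv v k1 r1, ENNReal.ofReal (‖v x‖)) * TT p s v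
        ≤ aa p v k1 r1 * ENNReal.ofReal w0
          + (ENNReal.ofReal (k1 ^ (1 - p)) * aa p v k1 r1) * ENNReal.ofReal (H * k1 ^ (p - 1)) := by
          rw [hWW]
          gcongr
          exact le_refl _
      _ = (ENNReal.ofReal w0 + ENNReal.ofReal (k1 ^ (1 - p)) * ENNReal.ofReal (H * k1 ^ (p - 1)))
          * aa p v k1 r1 := by ring
      _ = (ENNReal.ofReal w0 + ENNReal.ofReal H) * aa p v k1 r1 := by
          congr 2
          rw [← ENNReal.ofReal_mul (by positivity)]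
          congr 1
          have : k1 ^ (1 - p) * k1 ^ (p - 1) = 1 := by
            rw [← Real.rpow_add hk1]; simp
          calc k1 ^ (1 - p) * (H * k1 ^ (p - 1)) = H * (k1 ^ (1 - p) * k1 ^ (p - 1)) := by ring
            _ = H := by rw [this, mul_one]
      _ = _ := by rw [ENNReal.ofReal_add hw00 hH]
  have hmQ1 := measurable_Q1 (p := p) (s := s) (C1 := C1) hv.meas hcut.measurable hA
  have hmQ2 := measurable_Q2 (p := p) (s := s) (c2 := c2) hv.meas hA
  have h6 : ∫⁻ z, ENNReal.ofReal (Q1 p s C1 v (radCut r2 ((r1 + r2) / 2)) (Lv v k1 r1) z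
        + (Q2 p s c2 v (Lv v k1 r1) z + Q2 p s c2 v (Lv v k1 r1) z.swap))
      ≤ ENNReal.ofReal (2 * C1 * ((2 * (1 / g)) ^ p * cK) + 2 * (c2 * (w0 + H))) * aa p v k1 r1 := by
    have e0 : ∀ z, ENNReal.ofReal (Q1 p s C1 v (radCut r2 ((r1 + r2) / 2)) (Lv v k1 r1) z
        + (Q2 p s c2 v (Lv v k1 r1) z + Q2 p s c2 v (Lv v k1 r1) z.swap))
        = ENNReal.ofReal (Q1 p s C1 v (radCut r2 ((r1 + r2) / 2)) (Lv v k1 r1) z)
        + (ENNReal.ofReal (Q2 p s c2 v (Lv v k1 r1) z)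
          + ENNReal.ofReal (Q2 p s c2 v (Lv v k1 r1) z.swap)) := by
      intro z
      rw [ENNReal.ofReal_add (Q1_nonneg hC10 _ _ _ _)
        (add_nonneg (Q2_nonneg hc20 _ _ _) (Q2_nonneg hc20 _ _ _)),
        ENNReal.ofReal_add (Q2_nonneg hc20 _ _ _) (Q2_nonneg hc20 _ _ _)]
    simp_rw [e0]
    rw [lintegral_add_left hmQ1.ennreal_ofReal, lintegral_add_left hmQ2.ennreal_ofReal,
      lintegral_swap' hmQ2.ennreal_ofReal]
    calc _ ≤ ENNReal.ofReal (2 * C1) * (ENNReal.ofReal ((2 * (1 / g)) ^ p) * CK n p s)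
            * aa p v k1 r1
          + (ENNReal.ofReal (c2 * (w0 + H)) * aa p v k1 r1
            + ENNReal.ofReal (c2 * (w0 + H)) * aa p v k1 r1) := by
          gcongr
          exact h3
      _ = _ := by
          rw [hCK, ← ENNReal.ofReal_mul (by positivity), ← ENNReal.ofReal_mul (by positivity),
            ← add_mul, ← add_mul, ← ENNReal.ofReal_add (by positivity) (by positivity),
            ← ENNReal.ofReal_add (by positivity) (by positivity)]
          congr 2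
          ring
  have h7 := h1.trans (h2.trans h6)
  -- constants
  set X : ℝ := (1/4) * θ ^ p * ρ ^ (-κ) * ((1/2) * (ρ ^ n * ω)) with hX
  have hX0 : 0 < X := by positivity
  set Y : ℝ := 2 * C1 * ((2 * (1 / g)) ^ p * cK) + 2 * (c2 * (w0 + H)) with hY
  have h8 : ENNReal.ofReal X * aa p v k2 r2 ≤ ENNReal.ofReal Y * aa p v k1 r1 := by
    have : ENNReal.ofReal X = ENNReal.ofReal ((1/4) * θ ^ p * ρ ^ (-κ))
      * ((1/2) * volume (ball (0 : Eu n) ρ)) := by
      rw [hX, ENNReal.ofReal_mul (by positivity)]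
      congr 1
      rw [ENNReal.ofReal_mul (by norm_num), volume_ball_eq 0 hρ.le, hω',
        ENNReal.ofReal_mul (by positivity)]
      congr 1
      rw [ENNReal.ofReal_div_of_pos (by norm_num)]
      simp
    rw [this]; exact h7
  have hYX : Y / X ≤ 8 * C' / ω * (k2 / (k2 - k1)) ^ p * (1 / g) ^ (p + κ)
        * (1 + H) * ρ ^ (s * p) := by
    have hG1 : (1:ℝ) ≤ 1 / g := by rw [le_div_iff₀ hg0]; linarith
    set G := (1:ℝ) / g with hG
    have hG0 : 0 < G := by positivity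
    have g1 : (2 * G) ^ p ≤ 2 ^ p * G ^ (p + κ) := by
      rw [Real.mul_rpow (by norm_num) hG0.le]
      gcongr
      linarith
    have g2 : c2 ≤ 2 ^ (p - 1) * 8 ^ κ * G ^ (p + κ) := by
      rw [hc2]
      have : (8:ℝ) / g = 8 * G := by rw [hG]; ring
      rw [this, Real.mul_rpow (by norm_num) hG0.le, mul_assoc]
      gcongr
      linarith
    have hYle : Y ≤ C' * G ^ (p + κ) * (1 + H) := by
      have hGp : 0 < G ^ (p + κ) := by positivity
      have a1 : 2 * C1 * ((2 * G) ^ p * cK) ≤ 2 * C1 * (2 ^ p * cK) * G ^ (p + κ) * (1 + H) := by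
        calc 2 * C1 * ((2 * G) ^ p * cK) ≤ 2 * C1 * ((2 ^ p * G ^ (p + κ)) * cK) := by gcongr
          _ = (2 * C1 * (2 ^ p * cK) * G ^ (p + κ)) * 1 := by ring
          _ ≤ _ := by
            gcongr
            linarith
      have a2 : 2 * (c2 * (w0 + H)) ≤ 2 * (2 ^ (p - 1) * 8 ^ κ) * (w0 + 1) * G ^ (p + κ) * (1 + H) := by
        have : w0 + H ≤ (w0 + 1) * (1 + H) := by nlinarith
        calc 2 * (c2 * (w0 + H)) ≤ 2 * ((2 ^ (p - 1) * 8 ^ κ * G ^ (p + κ)) * ((w0 + 1) * (1 + H))) := by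
              gcongr
          _ = _ := by ring
      rw [hY, hC']
      calc _ ≤ 2 * C1 * (2 ^ p * cK) * G ^ (p + κ) * (1 + H)
            + 2 * (2 ^ (p - 1) * 8 ^ κ) * (w0 + 1) * G ^ (p + κ) * (1 + H) := add_le_add a1 a2
        _ = _ := by ring
    have hXeq : X = (ω / 8) * θ ^ p * ρ ^ (-(s * p)) := by
      rw [hX]
      have : ρ ^ (-κ) * ρ ^ n = ρ ^ (-(s * p)) := by
        rw [← Real.rpow_natCast ρ n, ← Real.rpow_add hρ]
        congr 1
        rw [hκ]; unfold kap; ring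
      calc (1/4) * θ ^ p * ρ ^ (-κ) * ((1/2) * (ρ ^ n * ω))
          = (ω / 8) * θ ^ p * (ρ ^ (-κ) * ρ ^ n) := by ring
        _ = _ := by rw [this]
    have hXinv : 1 / X = (8 / ω) * (k2 / (k2 - k1)) ^ p * ρ ^ (s * p) := by
      rw [hXeq]
      have e1 : (k2 / (k2 - k1)) ^ p * θ ^ p = 1 := by
        rw [← Real.mul_rpow (by apply div_nonneg hk2.le; linarith) hθ0.le, hθ]
        have : k2 / (k2 - k1) * ((k2 - k1) / k2) = 1 := by
          have : k2 - k1 ≠ 0 := by linarith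
          field_simp
        rw [this, Real.one_rpow]
      have e2 : ρ ^ (s * p) * ρ ^ (-(s * p)) = 1 := by
        rw [← Real.rpow_add hρ]; simp
      rw [div_eq_iff (by positivity)]
      calc (1:ℝ) = (8 / ω * (ω / 8)) * 1 * 1 := by field_simp
        _ = (8 / ω * (ω / 8)) * ((k2 / (k2 - k1)) ^ p * θ ^ p)
            * (ρ ^ (s * p) * ρ ^ (-(s * p))) := by rw [e1, e2]
        _ = _ := by ring
    calc Y / X = Y * (1 / X) := by ring
      _ = Y * ((8 / ω) * (k2 / (k2 - k1)) ^ p * ρ ^ (s * p)) := by rw [hXinv]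
      _ ≤ (C' * G ^ (p + κ) * (1 + H)) * ((8 / ω) * (k2 / (k2 - k1)) ^ p * ρ ^ (s * p)) := by
          apply mul_le_mul_of_nonneg_right hYle
          have : 0 ≤ k2 / (k2 - k1) := by apply div_nonneg hk2.le; linarith
          positivity
      _ = _ := by ring
  have hXne : ENNReal.ofReal X ≠ 0 := by simpa using hX0
  calc aa p v k2 r2 = (ENNReal.ofReal X)⁻¹ * (ENNReal.ofReal X * aa p v k2 r2) := by
        rw [← mul_assoc, ENNReal.inv_mul_cancel hXne ENNReal.ofReal_ne_top, one_mul]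
    _ ≤ (ENNReal.ofReal X)⁻¹ * (ENNReal.ofReal Y * aa p v k1 r1) := by gcongr
    _ = ENNReal.ofReal (Y / X) * aa p v k1 r1 := by
        rw [ENNReal.ofReal_div_of_pos hX0, ENNReal.div_eq_inv_mul, mul_assoc]
    _ ≤ _ := by gcongr

end Pool.Agent.helper32.Frac
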