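import Pool.Agent.helper32.Frac.Gain

/-! Decay of the circumradius. -/

namespace Pool.Agent.helper32.Frac

open Real MeasureTheory Set Metric Filter Topology
open scoped ENNReal RealInnerProductSpace

variable {n m : ℕ}

theorem Sol.sub_const [NeZero n] {p s : ℝ} (hp : 1 < p) (hs : 0 < s) {v : Eu n → Eu m}
    (hv : Sol p s v) (e : Eu m) : Sol p s (fun x => v x - e) where
  meas := hv.meas.sub_const e
  lp := by
    have hp0 : 0 < p := by linarith
    have h1 : IntegrableOn (fun x => 2 ^ p * (‖v x‖ ^ p + ‖e‖ ^ p)) (ball (0 : Eu n) 2) := by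
      apply Integrable.const_mul
      apply hv.lp.add
      exact integrableOn_const (hs := measure_ball_lt_top.ne)
    refine Integrable.mono' h1 ((hv.meas.sub_const e).norm.pow_const _).aestronglyMeasurable ?_
    filter_upwards with x
    rw [Real.norm_of_nonneg (by positivity)]
    refine (Real.rpow_le_rpow (norm_nonneg _) (norm_sub_le _ _) hp0.le).trans ?_
    exact add_rpow_le (norm_nonneg _) (norm_nonneg _) hp0.le
  wsp := by
    have := hv.wsp
    refine this.congr_fun ?_ (measurableSet_ball.prod measurableSet_ball)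
    intro z _
    simp
  tail := by
    have hp0 : 0 ≤ p - 1 := by linarith
    have h1 : Integrable (fun y : Eu n => 2 ^ (p - 1) *
        (‖v y‖ ^ (p - 1) * wt (kap n p s) y + ‖e‖ ^ (p - 1) * wt (kap n p s) y)) :=
      (hv.tail.add ((integrable_wt hp hs).const_mul _)).const_mul _
    refine Integrable.mono' h1
      (((hv.meas.sub_const e).norm.pow_const _).mul (measurable_wt _)).aestronglyMeasurable ?_
    filter_upwards with y
    have hw := (wt_pos (kap n p s) y).le
    rw [Real.norm_of_nonneg (by positivity)]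
    have := (Real.rpow_le_rpow (norm_nonneg _) (norm_sub_le (v y) e) hp0).trans
      (add_rpow_le (norm_nonneg _) (norm_nonneg _) hp0)
    calc ‖v y - e‖ ^ (p - 1) * wt (kap n p s) y
        ≤ (2 ^ (p - 1) * (‖v y‖ ^ (p - 1) + ‖e‖ ^ (p - 1))) * wt (kap n p s) y := by gcongr
      _ = _ := by ring
  eq := by
    intro φ h1 h2 h3
    have := hv.eq φ h1 h2 h3
    rw [← this]
    congr 1
    ext1 z
    unfold Fm form
    simp

theorem TT_sub_le [NeZero n] {p s : ℝ} (hp : 1 < p) {v : Eu n → Eu m}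
    {e : Eu m} (he : ‖e‖ ≤ 1) :
    TT p s (fun x => v x - e) ≤ ENNReal.ofReal (2 ^ (p - 1)) * WW n p s + TS p s v := by
  have hp0 : 0 ≤ p - 1 := by linarith
  unfold TT WW TS
  rw [← lintegral_const_mul' _ _ ENNReal.ofReal_ne_top, ← lintegral_add_left
    ((measurable_wt _).ennreal_ofReal.const_mul _)]
  apply lintegral_mono
  intro y
  simp only
  have hw := (wt_pos (kap n p s) y).le
  rw [← ENNReal.ofReal_mul (by positivity), ← ENNReal.ofReal_add (by positivity) (td_nonneg _ _ _ _)]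
  apply ENNReal.ofReal_le_ofReal
  by_cases h : 1 < ‖v y‖
  · have h1 : td p s v y = (1 + ‖v y‖) ^ (p - 1) * wt (kap n p s) y := by
      unfold td
      rw [indicator_of_mem (show y ∈ {y | 1 < ‖v y‖} from h)]
    rw [h1]
    have h2 : ‖v y - e‖ ^ (p - 1) ≤ (1 + ‖v y‖) ^ (p - 1) :=
      Real.rpow_le_rpow (norm_nonneg _) ((norm_sub_le _ _).trans (by linarith)) hp0
    have h3 := mul_le_mul_of_nonneg_right h2 hw
    have h4 : 0 ≤ 2 ^ (p - 1) * wt (kap n p s) y := by positivity
    linarith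
  · push Not at h
    have h2 : ‖v y - e‖ ^ (p - 1) ≤ 2 ^ (p - 1) :=
      Real.rpow_le_rpow (norm_nonneg _) ((norm_sub_le _ _).trans (by linarith)) hp0
    have h3 := mul_le_mul_of_nonneg_right h2 hw
    have h4 := td_nonneg p s v y
    linarith

theorem exists_small {A q : ℝ} (hA : 0 < A) (hq : 0 < q) :
    ∃ ρ : ℝ, 0 < ρ ∧ ρ ≤ 1/8 ∧ A * ρ ^ q ≤ 1 := by
  refine ⟨min (1/8) ((1 / A) ^ (1 / q)), by positivity, min_le_left _ _, ?_⟩
  have h1 : (min (1/8) ((1 / A) ^ (1 / q))) ^ q ≤ 1 / A := by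
    calc _ ≤ ((1 / A) ^ (1 / q)) ^ q :=
          Real.rpow_le_rpow (by positivity) (min_le_right _ _) hq.le
      _ = 1 / A := by
          rw [← Real.rpow_mul (by positivity)]
          have : 1 / q * q = 1 := by field_simp
          rw [this, Real.rpow_one]
  calc A * _ ≤ A * (1 / A) := by gcongr
    _ = 1 := by field_simp

/-- Decay of the circumradius. -/
theorem decay [NeZero n] {p s : ℝ} (hp : 1 < p) (hs : 0 < s) (hs1 : s < 1) :
    ∃ ρs τ : ℝ, 0 < ρs ∧ ρs < 1 ∧ 0 < τ ∧ ∀ v : Eu n → Eu m, Sol p s v →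
      (∀ᵐ x, x ∈ ball (0 : Eu n) 2 → ‖v x‖ ≤ 1) → TS p s v ≤ ENNReal.ofReal τ →
      ∃ c : Eu m, ∀ᵐ x ∂(volume.restrict (ball (0 : Eu n) (1/4))), ‖v x - c‖ ≤ ρs := by
  obtain ⟨C0, hC0, hdg⟩ := dg (n := n) (m := m) hp hs hs1
  obtain ⟨σ, hσ, hgain⟩ := gain_iter (n := n) (m := m) hp hs hs1
  set κ := kap n p s with hκ
  have hκ0 : 0 < κ := kap_pos hp hs
  have hp0 : 0 < p := by linarith
  have hp1 : 0 < p - 1 := by linarith
  have hsp : 0 < s * p := by positivity
  set w0 := (WW n p s).toReal with hw0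
  have hWW : WW n p s = ENNReal.ofReal w0 := by
    rw [hw0, ENNReal.ofReal_toReal (WW_lt_top hp hs).ne]
  have hw00 : 0 ≤ w0 := ENNReal.toReal_nonneg
  set ω := (volume (ball (0 : Eu n) 1)).toReal with hω
  have hωfin : volume (ball (0 : Eu n) 1) ≠ ∞ := measure_ball_lt_top.ne
  have hω' : volume (ball (0 : Eu n) 1) = ENNReal.ofReal ω := by
    rw [hω, ENNReal.ofReal_toReal hωfin]
  have hω0 : 0 < ω := ENNReal.toReal_pos (measure_ball_pos _ _ zero_lt_one).ne' hωfin
  set H : ℝ := (2 ^ (p - 1) * w0 + 1) * 4 ^ (p - 1) with hH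
  have hH0 : 0 ≤ H := by positivity
  have hH4 : H * (1/4) ^ (p - 1) = 2 ^ (p - 1) * w0 + 1 := by
    rw [hH, mul_assoc, ← Real.mul_rpow (by norm_num) (by norm_num)]
    norm_num
  obtain ⟨ρ1, hρ1, hρ18, hρ1A⟩ := exists_small (A := C0 * 2 ^ p * (1 + H)) (q := s * p)
    (by positivity) hsp
  obtain ⟨ρ2, hρ2, hρ28, hρ2A⟩ := exists_small (A := C0 * 4 ^ p * (1 + H)) (q := s * p)
    (by positivity) hsp
  set c0 : ℝ := (1/2) ^ p * ((1/4) ^ p * ((1/2) * (ρ1 ^ n * ω))) with hc0
  have hc00 : 0 < c0 := by positivity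
  obtain ⟨τ1, hτ1, hN⟩ := hgain (1/4) c0 (by norm_num) hc00
  obtain ⟨N, hNge⟩ := exists_nat_ge (((n:ℝ) / s + 1) / σ)
  have hσN : (n:ℝ) / s + 1 ≤ σ * N := by
    rw [div_le_iff₀ hσ] at hNge
    linarith
  obtain ⟨CN, hCN, hgN⟩ := hN N
  set c3 : ℝ := (1/2) ^ p * ((1/2) * (ρ2 ^ n * (((2:ℝ) ^ N) ^ ((n:ℝ) / s))⁻¹ * ω)) with hc3
  have hc30 : 0 < c3 := by positivity
  set δ : ℝ := min (1/2) (c3 / CN) with hδ
  have hδ0 : 0 < δ := by positivity
  have hδ1 : δ ≤ 1/2 := min_le_left _ _
  have hδc : CN * δ ≤ c3 := by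
    have : δ ≤ c3 / CN := min_le_right _ _
    rw [le_div_iff₀ hCN] at this
    linarith
  set δ' : ℝ := δ / 2 ^ N with hδ'
  have hδ'0 : 0 < δ' := by positivity
  have h2N : (1:ℝ) ≤ 2 ^ N := one_le_pow₀ (by norm_num)
  have hδ'1 : δ' ≤ 1/2 := (div_le_self hδ0.le h2N).trans hδ1
  set k : ℝ := Real.sqrt (1 - δ') with hk
  have hk2 : k ^ 2 = 1 - δ' := Real.sq_sqrt (by linarith)
  have hk0 : 0 ≤ k := Real.sqrt_nonneg _
  have hkhalf : 1/2 ≤ k := by
    rw [hk]
    apply Real.le_sqrt_of_sq_le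
    norm_num
    linarith
  have hk1 : k < 1 := by nlinarith
  set d : ℝ := (1 - k) / 2 with hd
  have hd0 : 0 < d := by rw [hd]; linarith
  have hdδ : δ' / 4 ≤ d := by
    rw [hd]
    nlinarith
  refine ⟨max (1/2) ((1 + k) / 2), min 1 τ1, by positivity, ?_, by positivity, ?_⟩
  · apply max_lt (by norm_num)
    linarith
  intro v hv hv1 hTS
  have hTS1 : TS p s v ≤ ENNReal.ofReal 1 := hTS.trans (ENNReal.ofReal_le_ofReal (min_le_left _ _))
  have hTSτ : TS p s v ≤ ENNReal.ofReal τ1 :=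
    hTS.trans (ENNReal.ofReal_le_ofReal (min_le_right _ _))
  have hTTe : ∀ e : Eu m, ‖e‖ ≤ 1 → TT p s (fun x => v x - e) ≤
      ENNReal.ofReal (H * (1/4) ^ (p - 1)) := by
    intro e he
    calc TT p s (fun x => v x - e) ≤ ENNReal.ofReal (2 ^ (p - 1)) * WW n p s + TS p s v :=
          TT_sub_le hp he
      _ ≤ ENNReal.ofReal (2 ^ (p - 1)) * ENNReal.ofReal w0 + ENNReal.ofReal 1 := by
          rw [hWW]; gcongr
      _ = _ := by
          rw [← ENNReal.ofReal_mul (by positivity), ← ENNReal.ofReal_add (by positivity)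
            (by norm_num), hH4]
  by_cases hcase : NC v (1/4) c0
  · -- Non-concentrated case
    refine ⟨0, ?_⟩
    have hTT : TT p s v ≤ ENNReal.ofReal (H * k ^ (p - 1)) := by
      have h1 := hTTe 0 (by simp)
      simp only [sub_zero] at h1
      refine h1.trans (ENNReal.ofReal_le_ofReal ?_)
      gcongr
      linarith
    have hmeas := hgN v hv hv1 hTSτ hcase δ hδ0 (by linarith)
    set ρ0 : ℝ := ρ2 * δ' ^ (1 / s) with hρ0
    have hρ00 : 0 < ρ0 := by positivity
    have hδ's : δ' ^ (1 / s) ≤ 1 := Real.rpow_le_one hδ'0.le (by linarith) (by positivity)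
    have hρ08 : ρ0 ≤ 1/8 := by
      calc ρ0 ≤ ρ2 * 1 := by rw [hρ0]; gcongr
        _ ≤ 1/8 := by linarith
    have hcond : C0 * ((k + d) / d) ^ p * (1 + H) * ρ0 ^ (s * p) ≤ 1 := by
      have h1 : (k + d) / d ≤ 4 / δ' := by
        rw [div_le_div_iff₀ hd0 hδ'0]
        have : k + d ≤ 1 := by rw [hd]; linarith
        nlinarith
      have h2 : ρ0 ^ (s * p) = ρ2 ^ (s * p) * δ' ^ p := by
        rw [hρ0, Real.mul_rpow hρ2.le (by positivity), ← Real.rpow_mul hδ'0.le]
        congr 2
        field_simp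
      have h3 : (4 / δ') ^ p * δ' ^ p = 4 ^ p := by
        rw [← Real.mul_rpow (by positivity) hδ'0.le]
        congr 1
        field_simp
      calc C0 * ((k + d) / d) ^ p * (1 + H) * ρ0 ^ (s * p)
          ≤ C0 * (4 / δ') ^ p * (1 + H) * (ρ2 ^ (s * p) * δ' ^ p) := by
            rw [h2]
            gcongr
        _ = (C0 * ((4 / δ') ^ p * δ' ^ p) * (1 + H)) * ρ2 ^ (s * p) := by ring
        _ = (C0 * 4 ^ p * (1 + H)) * ρ2 ^ (s * p) := by rw [h3]
        _ ≤ 1 := hρ2A
    have hsub : Lv v k (1/2) ⊆ LvS v δ' (1/2 + (1/2) ^ (N + 1)) := by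
      rintro x ⟨hx, hxk⟩
      refine ⟨ball_subset_ball (by
        have : (0:ℝ) < (1/2) ^ (N + 1) := by positivity
        linarith) hx, ?_⟩
      have hxk' : k < ‖v x‖ := hxk
      have := pow_lt_pow_left₀ hxk' hk0 (two_ne_zero)
      rw [hk2] at this
      exact this
    have haa : aa p v k (1/2) ≤ ENNReal.ofReal (k ^ p) * ((1/2) * volume (ball (0 : Eu n) ρ0)) := by
      calc aa p v k (1/2) ≤ ∫⁻ x in Lv v k (1/2), 1 := by
            unfold aa
            apply lintegral_mono_ae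
            rw [ae_restrict_iff' (measurableSet_Lv hv.meas _ _)]
            filter_upwards [hv1] with x hx hxL
            rw [← ENNReal.ofReal_one]
            apply ENNReal.ofReal_le_ofReal
            exact Real.rpow_le_one (norm_nonneg _)
              (hx (ball_subset_ball (by norm_num) hxL.1)) hp0.le
        _ = volume (Lv v k (1/2)) := by rw [setLIntegral_const, one_mul]
        _ ≤ volume (LvS v δ' (1/2 + (1/2) ^ (N + 1))) := measure_mono hsub
        _ ≤ ENNReal.ofReal (CN * δ ^ (σ * N)) := hmeas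
        _ ≤ ENNReal.ofReal (k ^ p * ((1/2) * (ρ0 ^ n * ω))) := by
            apply ENNReal.ofReal_le_ofReal
            have h1 : δ ^ (σ * N) ≤ δ ^ ((n:ℝ) / s) * δ := by
              calc δ ^ (σ * N) ≤ δ ^ ((n:ℝ) / s + 1) :=
                    Real.rpow_le_rpow_of_exponent_ge hδ0 (by linarith) hσN
                _ = _ := by rw [Real.rpow_add hδ0, Real.rpow_one]
            have h2 : ρ0 ^ n = ρ2 ^ n * (((2:ℝ) ^ N) ^ ((n:ℝ) / s))⁻¹ * δ ^ ((n:ℝ) / s) := by
              rw [hρ0, mul_pow, hδ', ← Real.rpow_natCast ((δ / 2 ^ N) ^ (1 / s)) n,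
                ← Real.rpow_mul (by positivity)]
              have : 1 / s * (n:ℝ) = (n:ℝ) / s := by ring
              rw [this, Real.div_rpow hδ0.le (by positivity)]
              ring
            have h3 : (1/2 : ℝ) ^ p ≤ k ^ p := Real.rpow_le_rpow (by norm_num) hkhalf hp0.le
            calc CN * δ ^ (σ * N) ≤ CN * (δ ^ ((n:ℝ) / s) * δ) := by gcongr
              _ = (CN * δ) * δ ^ ((n:ℝ) / s) := by ring
              _ ≤ c3 * δ ^ ((n:ℝ) / s) := by gcongr
              _ = (1/2) ^ p * ((1/2) * ((ρ2 ^ n * (((2:ℝ) ^ N) ^ ((n:ℝ) / s))⁻¹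
                    * δ ^ ((n:ℝ) / s)) * ω)) := by rw [hc3]; ring
              _ = (1/2) ^ p * ((1/2) * (ρ0 ^ n * ω)) := by rw [h2]
              _ ≤ k ^ p * ((1/2) * (ρ0 ^ n * ω)) := by gcongr
        _ = _ := by
            rw [ENNReal.ofReal_mul (by positivity), ENNReal.ofReal_mul (by norm_num),
              ENNReal.ofReal_mul (by positivity), volume_ball_eq 0 hρ00.le, hω',
              ENNReal.ofReal_div_of_pos (by norm_num)]
            simp
    have hfinal := hdg v hv k d ρ0 H (by linarith) hd0 hρ00 hρ08 hH0 hTT hcond haa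
    filter_upwards [hfinal] with x hx
    rw [sub_zero]
    refine hx.trans (le_trans (le_of_eq ?_) (le_max_right _ _))
    rw [hd]; ring
  · -- concentrated case
    unfold NC at hcase
    push Not at hcase
    obtain ⟨x0, hx0, hx01, hvol⟩ := hcase
    refine ⟨v x0, ?_⟩
    have hsol := hv.sub_const hp hs (v x0)
    have hTT := hTTe (v x0) hx01
    have hcond : C0 * ((1/4 + 1/4) / (1/4)) ^ p * (1 + H) * ρ1 ^ (s * p) ≤ 1 := by
      have : ((1:ℝ)/4 + 1/4) / (1/4) = 2 := by norm_num
      rw [this]; exact hρ1A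
    have haa : aa p (fun x => v x - v x0) (1/4) (1/2) ≤
        ENNReal.ofReal ((1/4) ^ p) * ((1/2) * volume (ball (0 : Eu n) ρ1)) := by
      calc aa p (fun x => v x - v x0) (1/4) (1/2)
          ≤ ∫⁻ x in Lv (fun x => v x - v x0) (1/4) (1/2), ENNReal.ofReal (2 ^ p) := by
            unfold aa
            apply lintegral_mono_ae
            rw [ae_restrict_iff' (measurableSet_Lv hsol.meas _ _)]
            filter_upwards [hv1] with x hx hxL
            apply ENNReal.ofReal_le_ofReal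
            apply Real.rpow_le_rpow (norm_nonneg _) _ hp0.le
            have := hx (ball_subset_ball (by norm_num) hxL.1)
            exact (norm_sub_le _ _).trans (by linarith)
        _ = ENNReal.ofReal (2 ^ p) * volume (Lv (fun x => v x - v x0) (1/4) (1/2)) := by
            rw [setLIntegral_const]
        _ ≤ ENNReal.ofReal (2 ^ p) * ENNReal.ofReal c0 := by
            gcongr
            refine le_trans (measure_mono ?_) hvol.le
            rintro x ⟨hx, hxk⟩
            have hxk' : (1/4 : ℝ) < ‖v x - v x0‖ := hxk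
            exact ⟨ball_subset_ball (by norm_num) hx, hxk'.le⟩
        _ = ENNReal.ofReal ((1/4) ^ p * ((1/2) * (ρ1 ^ n * ω))) := by
            rw [← ENNReal.ofReal_mul (by positivity)]
            congr 1
            rw [hc0, ← mul_assoc, ← Real.mul_rpow (by norm_num) (by norm_num)]
            norm_num
        _ = _ := by
            rw [ENNReal.ofReal_mul (by positivity), ENNReal.ofReal_mul (by norm_num),
              ENNReal.ofReal_mul (by positivity), volume_ball_eq 0 hρ1.le, hω',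
              ENNReal.ofReal_div_of_pos (by norm_num)]
            simp
    have hfinal := hdg (fun x => v x - v x0) hsol (1/4) (1/4) ρ1 H (by norm_num) (by norm_num)
      hρ1 hρ18 hH0 hTT hcond haa
    filter_upwards [hfinal] with x hx
    refine hx.trans (le_trans (le_of_eq ?_) (le_max_left _ _))
    norm_num

/-- Local boundedness. -/
theorem bounded [NeZero n] {p s : ℝ} (hp : 1 < p) (hs : 0 < s) (hs1 : s < 1) {v : Eu n → Eu m}
    (hv : Sol p s v) :
    ∃ M : ℝ, 0 < M ∧ ∀ᵐ x ∂(volume.restrict (ball (0 : Eu n) (1/4))), ‖v x‖ ≤ M := by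
  obtain ⟨C0, hC0, hdg⟩ := dg (n := n) (m := m) hp hs hs1
  have hp0 : 0 < p := by linarith
  have hp1 : 0 < p - 1 := by linarith
  have hsp : 0 < s * p := by positivity
  obtain ⟨ρ1, hρ1, hρ18, hρ1A⟩ := exists_small (A := C0 * 2 ^ p * (1 + 1)) (q := s * p)
    (by positivity) hsp
  set ω := (volume (ball (0 : Eu n) 1)).toReal with hω
  have hωfin : volume (ball (0 : Eu n) 1) ≠ ∞ := measure_ball_lt_top.ne
  have hω' : volume (ball (0 : Eu n) 1) = ENNReal.ofReal ω := by
    rw [hω, ENNReal.ofReal_toReal hωfin]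
  have hω0 : 0 < ω := ENNReal.toReal_pos (measure_ball_pos _ _ zero_lt_one).ne' hωfin
  have hTfin : TT p s v < ∞ := hv.tail.lintegral_lt_top
  set T := (TT p s v).toReal with hT
  have hT' : TT p s v = ENNReal.ofReal T := by rw [hT, ENNReal.ofReal_toReal hTfin.ne]
  set a : ℝ≥0∞ := ∫⁻ x in ball (0 : Eu n) 2, ENNReal.ofReal (‖v x‖ ^ p) with ha
  have hafin : a < ∞ := hv.lp.lintegral_lt_top
  set ar := a.toReal with har
  have ha' : a = ENNReal.ofReal ar := by rw [har, ENNReal.ofReal_toReal hafin.ne]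
  have har0 : 0 ≤ ar := ENNReal.toReal_nonneg
  set c : ℝ := (1/2) * (ρ1 ^ n * ω) with hc
  have hc0 : 0 < c := by positivity
  -- choose k large
  have hlim1 : Tendsto (fun k : ℝ => k ^ (p - 1)) atTop atTop := tendsto_rpow_atTop hp1
  have hlim2 : Tendsto (fun k : ℝ => k ^ p) atTop atTop := tendsto_rpow_atTop hp0
  obtain ⟨k, hk1, hkT, hka⟩ := ((eventually_ge_atTop (1:ℝ)).and
    ((hlim1.eventually_ge_atTop T).and (hlim2.eventually_ge_atTop (ar / c)))).exists
  have hk0 : 0 < k := by linarith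
  refine ⟨k + k, by linarith, ?_⟩
  apply hdg v hv k k ρ1 1 hk0 hk0 hρ1 hρ18 zero_le_one
  · rw [hT', one_mul]
    exact ENNReal.ofReal_le_ofReal hkT
  · have : (k + k) / k = 2 := by field_simp; norm_num
    rw [this]; exact hρ1A
  · calc aa p v k (1/2) ≤ a := by
          unfold aa
          apply lintegral_mono_set
          rintro x ⟨hx, _⟩
          exact ball_subset_ball (by norm_num) hx
      _ = ENNReal.ofReal ar := ha'
      _ ≤ ENNReal.ofReal (k ^ p * c) := by
          apply ENNReal.ofReal_le_ofReal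
          rwa [div_le_iff₀ hc0] at hka
      _ = _ := by
          rw [hc, ENNReal.ofReal_mul (by positivity), ENNReal.ofReal_mul (by norm_num),
              ENNReal.ofReal_mul (by positivity), volume_ball_eq 0 hρ1.le, hω',
              ENNReal.ofReal_div_of_pos (by norm_num)]
          simp

end Pool.Agent.helper32.Frac
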