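import Mathlib

/-! Weak solutions of the vectorial fractional p-Laplace system. -/

namespace Pool.Agent.helper32.Frac

open MeasureTheory
open scoped RealInnerProductSpace

/-- `u : ℝⁿ → ℝᵐ` is a weak solution of `(-Δ_p)^s u = 0` in `Ω`:
`u` is (Lebesgue) measurable, lies in `W^{s,p}` on every compact subset of `Ω`, has finite tail
`∫ |u|^(p-1) (1+|y|)^(-n-sp) dy`, and satisfies the weak formulation against every smooth
compactly supported test map with support in `Ω`. -/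
structure IsWeakSolution (n m : ℕ) (p s : ℝ) (Ω : Set (EuclideanSpace ℝ (Fin n)))
    (u : EuclideanSpace ℝ (Fin n) → EuclideanSpace ℝ (Fin m)) : Prop where
  aemeasurable : AEMeasurable u volume
  locLp : ∀ K : Set (EuclideanSpace ℝ (Fin n)), K ⊆ Ω → IsCompact K →
    IntegrableOn (fun x => ‖u x‖ ^ p) K volume
  locGagliardo : ∀ K : Set (EuclideanSpace ℝ (Fin n)), K ⊆ Ω → IsCompact K →
    IntegrableOn (fun z : EuclideanSpace ℝ (Fin n) × EuclideanSpace ℝ (Fin n) =>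
      ‖u z.1 - u z.2‖ ^ p / ‖z.1 - z.2‖ ^ ((n : ℝ) + s * p)) (K ×ˢ K) volume
  tail : Integrable (fun y => ‖u y‖ ^ (p - 1) * (1 + ‖y‖) ^ (-((n : ℝ) + s * p))) volume
  weak : ∀ φ : EuclideanSpace ℝ (Fin n) → EuclideanSpace ℝ (Fin m),
    ContDiff ℝ (⊤ : ℕ∞) φ → HasCompactSupport φ → tsupport φ ⊆ Ω →
    ∫ z : EuclideanSpace ℝ (Fin n) × EuclideanSpace ℝ (Fin n),
      ‖u z.1 - u z.2‖ ^ (p - 2) * ⟪u z.1 - u z.2, φ z.1 - φ z.2⟫
        / ‖z.1 - z.2‖ ^ ((n : ℝ) + s * p) = 0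

end Pool.Agent.helper32.Frac
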