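import Pool.Agent.helper32.Frac.Sol

/-! Extension of the weak formulation to non-smooth test functions. -/

namespace Pool.Agent.helper32.Frac

open Real MeasureTheory Set Metric Filter Topology
open scoped ENNReal RealInnerProductSpace

variable {n m : ℕ}

/-- Continuity of translations in `L^p`. -/
theorem translation_tendsto {X G : Type*} [NormedAddCommGroup X] [NormedSpace ℝ X]
    [FiniteDimensional ℝ X] [MeasurableSpace X] [BorelSpace X] (μ : Measure X)
    [μ.IsAddHaarMeasure] [NormedAddCommGroup G] {q : ℝ≥0∞} (hq : 1 ≤ q) (hq' : q ≠ ∞)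
    {f : X → G} (hf : MemLp f q μ) :
    Tendsto (fun a : X => eLpNorm (fun z => f (z - a) - f z) q μ) (𝓝 0) (𝓝 0) := by
  have : Fact (1 ≤ q) := ⟨hq⟩
  have hg : ∀ a : X, MeasurePreserving (fun z : X => z - a) μ μ := fun a =>
    measurePreserving_sub_right μ a
  let g : X → C(X, X) := fun a => ⟨fun z => z - a, by fun_prop⟩
  have hgc : Tendsto g (𝓝 0) (𝓝 (g 0)) := by
    let G' : C(X × X, X) := ⟨fun z => z.2 - z.1, by fun_prop⟩
    have h : g = fun a => G'.curry a := by
      ext a z; rfl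
    rw [h]
    exact (G'.curry.continuous.tendsto 0)
  have key := Filter.Tendsto.compMeasurePreservingLp (μ := μ) (ν := μ) (E := G) (p := q)
    (f := fun _ : X => hf.toLp f) (f₀ := hf.toLp f) (l := 𝓝 (0:X)) tendsto_const_nhds hgc
    (fun a => hg a) (hg 0) hq'
  have h0 : Lp.compMeasurePreserving (g 0) (hg 0) (hf.toLp f) = hf.toLp f := by
    apply Lp.ext
    have h1 := Lp.coeFn_compMeasurePreserving (hf.toLp f) (hg 0)
    refine h1.trans ?_
    filter_upwards with z
    simp
  rw [h0] at key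
  have key2 := (tendsto_iff_edist_tendsto_0.1 key)
  refine key2.congr ?_
  intro a
  rw [Lp.edist_def]
  apply eLpNorm_congr_ae
  have h1 := Lp.coeFn_compMeasurePreserving (hf.toLp f) (hg a)
  have h2 := hf.coeFn_toLp
  have h3 : (fun z => (hf.toLp f : X → G) (z - a)) =ᵐ[μ] fun z => f (z - a) :=
    (hg a).quasiMeasurePreserving.ae_eq_comp h2
  filter_upwards [h1, h2, h3] with z e1 e2 e3
  simp only [Pi.sub_apply]
  rw [e2]
  congr 1
  exact e1.trans e3

theorem enorm_rpow_eq {G : Type*} [NormedAddCommGroup G] {p : ℝ} (hp : 0 ≤ p) (x : G) :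
    ‖x‖ₑ ^ p = ENNReal.ofReal (‖x‖ ^ p) := by
  rw [← ofReal_norm, ENNReal.ofReal_rpow_of_nonneg (norm_nonneg _) hp]

theorem N2_eq {p : ℝ} (hp : 1 < p) (ψ : Eu n → Eu m) :
    N2 p ψ = eLpNorm ψ (ENNReal.ofReal p) volume := by
  have hp0 : 0 < p := by linarith
  rw [eLpNorm_eq_lintegral_rpow_enorm_toReal (by simpa using hp0) ENNReal.ofReal_ne_top,
    ENNReal.toReal_ofReal hp0.le]
  unfold N2
  simp_rw [enorm_rpow_eq hp0.le]

/-- The weighted difference. -/
noncomputable def Wf (p s : ℝ) (ψ : Eu n → Eu m) (z : Eu n × Eu n) : Eu m :=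
  (Kr (kap n p s) z.1 z.2) ^ (1 / p) • (ψ z.1 - ψ z.2)

theorem N1_eq {p s : ℝ} (hp : 1 < p) (ψ : Eu n → Eu m) :
    N1 p s ψ = eLpNorm (Wf p s ψ) (ENNReal.ofReal p) (volume : Measure (Eu n × Eu n)) := by
  have hp0 : 0 < p := by linarith
  rw [eLpNorm_eq_lintegral_rpow_enorm_toReal (by simpa using hp0) ENNReal.ofReal_ne_top,
    ENNReal.toReal_ofReal hp0.le]
  unfold N1
  congr 1
  apply lintegral_congr
  intro z
  rw [enorm_rpow_eq hp0.le]
  congr 1
  unfold Wf
  rw [norm_smul, Real.norm_of_nonneg (Real.rpow_nonneg (Kr_nonneg _ _ _) _),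
    Real.mul_rpow (Real.rpow_nonneg (Kr_nonneg _ _ _) _) (norm_nonneg _),
    ← Real.rpow_mul (Kr_nonneg _ _ _)]
  have e3 : 1 / p * p = 1 := by field_simp
  rw [e3, Real.rpow_one, mul_comm]

theorem haar_prod (n : ℕ) : (volume : Measure (Eu n × Eu n)).IsAddHaarMeasure := by
  rw [Measure.volume_eq_prod]; infer_instance

/-- Admissible test functions. -/
structure Adm (p s : ℝ) (φ : Eu n → Eu m) : Prop where
  meas : Measurable φ
  supp : ∀ x, x ∉ ball (0 : Eu n) 1 → φ x = 0
  n1 : N1 p s φ < ∞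
  n2 : N2 p φ < ∞

theorem measurable_Wf {p s : ℝ} {ψ : Eu n → Eu m} (hψ : Measurable ψ) :
    Measurable (Wf (n := n) (m := m) p s ψ) := by
  unfold Wf
  have h2 : Measurable (fun z : Eu n × Eu n => ψ z.1 - ψ z.2) :=
    (hψ.comp measurable_fst).sub (hψ.comp measurable_snd)
  exact ((measurable_Kr _).pow_const _).smul h2

theorem Adm.memLp {p s : ℝ} (hp : 1 < p) {φ : Eu n → Eu m} (h : Adm p s φ) :
    MemLp φ (ENNReal.ofReal p) volume := by
  refine ⟨h.meas.aestronglyMeasurable, ?_⟩
  rw [← N2_eq hp]; exact h.n2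

theorem Adm.memLp_Wf {p s : ℝ} (hp : 1 < p) {φ : Eu n → Eu m} (h : Adm p s φ) :
    MemLp (Wf p s φ) (ENNReal.ofReal p) (volume : Measure (Eu n × Eu n)) := by
  refine ⟨(measurable_Wf h.meas).aestronglyMeasurable, ?_⟩
  rw [← N1_eq hp]; exact h.n1

/-- translation -/
def tr (t : Eu n) (φ : Eu n → Eu m) : Eu n → Eu m := fun x => φ (x - t)

theorem measurable_tr {φ : Eu n → Eu m} (h : Measurable φ) (t : Eu n) : Measurable (tr t φ) :=
  h.comp (measurable_id.sub_const t)

theorem Kr_sub_sub (κ : ℝ) (x y t : Eu n) : Kr κ (x - t) (y - t) = Kr κ x y := by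
  unfold Kr; congr 2; abel

theorem Wf_tr (p s : ℝ) (φ : Eu n → Eu m) (t : Eu n) (z : Eu n × Eu n) :
    Wf p s (tr t φ) z = Wf p s φ (z - (t, t)) := by
  unfold Wf tr
  simp only [Prod.fst_sub, Prod.snd_sub]
  rw [Kr_sub_sub]

theorem Wf_sub (p s : ℝ) (φ ψ : Eu n → Eu m) (z : Eu n × Eu n) :
    Wf p s (φ - ψ) z = Wf p s φ z - Wf p s ψ z := by
  unfold Wf
  rw [← smul_sub]
  congr 1
  simp only [Pi.sub_apply]
  abel

theorem N1_tr {p s : ℝ} (φ : Eu n → Eu m) (t : Eu n) : N1 p s (tr t φ) = N1 p s φ := by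
  have := haar_prod n
  unfold N1
  congr 1
  have h := lintegral_sub_right_eq_self (μ := (volume : Measure (Eu n × Eu n)))
    (fun z : Eu n × Eu n => ENNReal.ofReal (‖φ z.1 - φ z.2‖ ^ p * Kr (kap n p s) z.1 z.2)) (t, t)
  rw [← h]
  apply lintegral_congr
  intro z
  unfold tr
  simp only [Prod.fst_sub, Prod.snd_sub]
  rw [Kr_sub_sub]

theorem N2_tr {p : ℝ} (φ : Eu n → Eu m) (t : Eu n) : N2 p (tr t φ) = N2 p φ := by
  unfold N2
  congr 1
  exact lintegral_sub_right_eq_self (μ := (volume : Measure (Eu n)))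
    (fun z : Eu n => ENNReal.ofReal (‖φ z‖ ^ p)) t

theorem tendsto_N1 {p s : ℝ} (hp : 1 < p) {φ : Eu n → Eu m} (h : Adm p s φ) :
    Tendsto (fun t : Eu n => N1 p s (tr t φ - φ)) (𝓝 0) (𝓝 0) := by
  have := haar_prod n
  have h1 := translation_tendsto (volume : Measure (Eu n × Eu n))
    (q := ENNReal.ofReal p) (by simpa using hp.le) ENNReal.ofReal_ne_top (h.memLp_Wf hp)
  have h2 : Tendsto (fun t : Eu n => (t, t)) (𝓝 0) (𝓝 ((0 : Eu n × Eu n))) := by
    have : Continuous (fun t : Eu n => (t, t)) := by fun_prop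
    exact this.tendsto' 0 _ rfl
  have h3 := h1.comp h2
  refine h3.congr ?_
  intro t
  rw [N1_eq hp]
  simp only [Function.comp]
  congr 1
  ext1 z
  rw [Wf_sub, Wf_tr]

theorem tendsto_N2 {p s : ℝ} (hp : 1 < p) {φ : Eu n → Eu m} (h : Adm p s φ) :
    Tendsto (fun t : Eu n => N2 p (tr t φ - φ)) (𝓝 0) (𝓝 0) := by
  have h1 := translation_tendsto (volume : Measure (Eu n))
    (q := ENNReal.ofReal p) (by simpa using hp.le) ENNReal.ofReal_ne_top (h.memLp hp)
  refine h1.congr ?_
  intro t
  rw [N2_eq hp]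
  rfl

theorem Fm_sub (p s : ℝ) (v φ ψ : Eu n → Eu m) (z : Eu n × Eu n) :
    Fm p s v (φ - ψ) z = Fm p s v φ z - Fm p s v ψ z := by
  unfold Fm form
  have : (φ - ψ) z.1 - (φ - ψ) z.2 = (φ z.1 - φ z.2) - (ψ z.1 - ψ z.2) := by
    simp only [Pi.sub_apply]; abel
  rw [this, inner_sub_right]
  ring

theorem tr_supp {φ : Eu n → Eu m} (h : ∀ x, x ∉ ball (0 : Eu n) 1 → φ x = 0) {t : Eu n}
    (ht : ‖t‖ < 1/2) : ∀ x, x ∉ ball (0 : Eu n) (3/2) → tr t φ x = 0 := by
  intro x hx
  apply h
  simp only [mem_ball_zero_iff, not_lt] at hx ⊢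
  have := norm_sub_norm_le x t
  linarith

theorem integrable_Fm_tr [NeZero n] {p s : ℝ} (hp : 1 < p) (hs : 0 < s) {v : Eu n → Eu m}
    (hv : Sol p s v) {φ : Eu n → Eu m} (h : Adm p s φ) {t : Eu n} (ht : ‖t‖ < 1/2) :
    Integrable (Fm p s v (tr t φ)) := by
  obtain ⟨A1, A2, hA1, hA2, hb⟩ := total_bound hp hs hv
  refine ⟨(measurable_Fm hv.meas (measurable_tr h.meas t)).aestronglyMeasurable, ?_⟩
  rw [hasFiniteIntegral_iff_norm]
  have := hb (tr t φ) (measurable_tr h.meas t) (tr_supp h.supp ht)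
  rw [N1_tr, N2_tr] at this
  refine lt_of_le_of_lt this ?_
  exact ENNReal.add_lt_top.2 ⟨ENNReal.mul_lt_top hA1 h.n1, ENNReal.mul_lt_top hA2 h.n2⟩

theorem tr_zero (φ : Eu n → Eu m) : tr 0 φ = φ := by
  ext1 x; simp [tr]

/-- continuity of the form along translations. -/
theorem tendsto_form [NeZero n] {p s : ℝ} (hp : 1 < p) (hs : 0 < s) {v : Eu n → Eu m}
    (hv : Sol p s v) {φ : Eu n → Eu m} (h : Adm p s φ) :
    Tendsto (fun t : Eu n => ∫ z, Fm p s v (tr t φ) z) (𝓝 0) (𝓝 (∫ z, Fm p s v φ z)) := by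
  obtain ⟨A1, A2, hA1, hA2, hb⟩ := total_bound hp hs hv
  rw [tendsto_iff_edist_tendsto_0]
  have hlim : Tendsto (fun t : Eu n => A1 * N1 p s (tr t φ - φ) + A2 * N2 p (tr t φ - φ))
      (𝓝 0) (𝓝 0) := by
    have h1 := ENNReal.Tendsto.const_mul (a := A1) (tendsto_N1 hp h) (Or.inr hA1.ne)
    have h2 := ENNReal.Tendsto.const_mul (a := A2) (tendsto_N2 hp h) (Or.inr hA2.ne)
    have := h1.add h2
    simpa using this
  refine tendsto_of_tendsto_of_tendsto_of_le_of_le' tendsto_const_nhds hlim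
    (Eventually.of_forall fun _ => zero_le) ?_
  have hball : ball (0 : Eu n) (1/2) ∈ 𝓝 (0 : Eu n) := ball_mem_nhds _ (by norm_num)
  filter_upwards [hball] with t ht
  have ht' : ‖t‖ < 1/2 := by simpa using ht
  have hi1 := integrable_Fm_tr hp hs hv h ht'
  have hi0 : Integrable (Fm p s v φ) := by
    have := integrable_Fm_tr hp hs hv h (t := 0) (by simp)
    rwa [tr_zero] at this
  have e1 : (∫ z, Fm p s v (tr t φ) z) - (∫ z, Fm p s v φ z) = ∫ z, Fm p s v (tr t φ - φ) z := by
    rw [← integral_sub hi1 hi0]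
    simp_rw [Fm_sub]
  rw [edist_eq_enorm_sub, e1]
  refine (enorm_integral_le_lintegral_enorm _).trans ?_
  have e2 : ∀ z, ‖Fm p s v (tr t φ - φ) z‖ₑ = ENNReal.ofReal |Fm p s v (tr t φ - φ) z| := by
    intro z
    rw [← ofReal_norm, Real.norm_eq_abs]
  simp_rw [e2]
  apply hb _ ((measurable_tr h.meas t).sub h.meas)
  intro x hx
  have h1 := tr_supp h.supp ht' x hx
  have h2 := h.supp x (fun hx' => hx (ball_subset_ball (by norm_num) hx'))
  simp [h1, h2]

theorem hasCompactSupport_of_supp {φ : Eu n → Eu m} (h : ∀ x, x ∉ ball (0 : Eu n) 1 → φ x = 0) :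
    HasCompactSupport φ := by
  apply HasCompactSupport.intro (isCompact_closedBall (0 : Eu n) 1)
  intro x hx
  exact h x (fun hx' => hx (ball_subset_closedBall hx'))

/-- mollification -/
noncomputable def moll (ρ : ContDiffBump (0 : Eu n)) (φ : Eu n → Eu m) (x : Eu n) : Eu m :=
  ∫ t, (ρ.normed volume t) • φ (x - t)

theorem Adm.locallyIntegrable {p s : ℝ} (hp : 1 < p) {φ : Eu n → Eu m} (h : Adm p s φ) :
    LocallyIntegrable φ volume :=
  (h.memLp hp).locallyIntegrable (by simpa using hp.le)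

theorem moll_contDiff {p s : ℝ} (hp : 1 < p) {φ : Eu n → Eu m} (h : Adm p s φ)
    (ρ : ContDiffBump (0 : Eu n)) : ContDiff ℝ (⊤ : ℕ∞) (moll ρ φ) := by
  exact HasCompactSupport.contDiff_convolution_left (n := ⊤) (ContinuousLinearMap.lsmul ℝ ℝ)
    ρ.hasCompactSupport_normed ρ.contDiff_normed (h.locallyIntegrable hp)

theorem moll_integrable {p s : ℝ} (hp : 1 < p) {φ : Eu n → Eu m} (h : Adm p s φ)
    (ρ : ContDiffBump (0 : Eu n)) (x : Eu n) :
    Integrable (fun t => (ρ.normed volume t) • φ (x - t)) := by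
  exact (HasCompactSupport.convolutionExists_left (ContinuousLinearMap.lsmul ℝ ℝ)
    ρ.hasCompactSupport_normed ρ.continuous_normed (h.locallyIntegrable hp) x)

theorem moll_zero {φ : Eu n → Eu m} (h : ∀ x, x ∉ ball (0 : Eu n) 1 → φ x = 0)
    (ρ : ContDiffBump (0 : Eu n)) (hρ : ρ.rOut ≤ 1/2) (x : Eu n) (hx : x ∉ ball (0 : Eu n) (3/2)) :
    moll ρ φ x = 0 := by
  unfold moll
  apply integral_eq_zero_of_ae
  filter_upwards with t
  by_cases ht : ‖t‖ < 1/2
  · have := tr_supp h ht x hx
    unfold tr at this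
    simp [this]
  · have : ρ.normed volume t = 0 := by
      have : t ∉ Function.support (ρ.normed volume) := by
        rw [ρ.support_normed_eq]
        simp only [mem_ball_zero_iff, not_lt] at ht ⊢
        linarith
      simpa using this
    simp [this]

theorem moll_tsupport {φ : Eu n → Eu m} (h : ∀ x, x ∉ ball (0 : Eu n) 1 → φ x = 0)
    (ρ : ContDiffBump (0 : Eu n)) (hρ : ρ.rOut ≤ 1/2) :
    tsupport (moll ρ φ) ⊆ closedBall (0 : Eu n) (3/2) := by
  apply closure_minimal _ isClosed_closedBall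
  intro x hx
  by_contra hx'
  exact hx (moll_zero h ρ hρ x (fun h => hx' (ball_subset_closedBall h)))

theorem Fm_moll {p s : ℝ} (hp : 1 < p) {v φ : Eu n → Eu m} (h : Adm p s φ)
    (ρ : ContDiffBump (0 : Eu n)) (z : Eu n × Eu n) :
    Fm p s v (moll ρ φ) z = ∫ t, ρ.normed volume t * Fm p s v (tr t φ) z := by
  unfold Fm form
  have h1 := moll_integrable hp h ρ z.1
  have h2 := moll_integrable hp h ρ z.2
  have e1 : moll ρ φ z.1 - moll ρ φ z.2
      = ∫ t, ρ.normed volume t • (φ (z.1 - t) - φ (z.2 - t)) := by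
    unfold moll
    rw [← integral_sub h1 h2]
    congr 1
    ext1 t
    rw [smul_sub]
  have h3 : Integrable (fun t => ρ.normed volume t • (φ (z.1 - t) - φ (z.2 - t))) := by
    have := h1.sub h2
    refine this.congr ?_
    filter_upwards with t
    simp only [Pi.sub_apply]
    rw [smul_sub]
  rw [e1, ← integral_inner h3, ← integral_const_mul, ← integral_mul_const]
  apply integral_congr_ae
  filter_upwards with t
  rw [inner_smul_right]
  simp only [tr]
  ring

/-- The extended weak formulation. -/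
theorem ext_form [NeZero n] {p s : ℝ} (hp : 1 < p) (hs : 0 < s) {v : Eu n → Eu m}
    (hv : Sol p s v) {φ : Eu n → Eu m} (h : Adm p s φ) :
    Integrable (Fm p s v φ) ∧ ∫ z, Fm p s v φ z = 0 := by
  have hi0 : Integrable (Fm p s v φ) := by
    have := integrable_Fm_tr hp hs hv h (t := 0) (by simp)
    rwa [tr_zero] at this
  refine ⟨hi0, ?_⟩
  set I0 := ∫ z, Fm p s v φ z with hI0
  -- it suffices to show |I0| ≤ ε
  have key : ∀ ρ : ContDiffBump (0 : Eu n), ρ.rOut ≤ 1/2 →
      Integrable (fun t => ρ.normed volume t * ∫ z, Fm p s v (tr t φ) z) ∧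
      ∫ t, ρ.normed volume t * ∫ z, Fm p s v (tr t φ) z = 0 := by
    intro ρ hρ
    obtain ⟨A1, A2, hA1, hA2, hb⟩ := total_bound hp hs hv
    have hρm : Measurable (ρ.normed volume : Eu n → ℝ) := ρ.continuous_normed.measurable
    have hmeas : Measurable (fun q : (Eu n × Eu n) × Eu n =>
        ρ.normed volume q.2 * Fm p s v (tr q.2 φ) q.1) := by
      unfold Fm form tr
      have h1 : Measurable (fun q : (Eu n × Eu n) × Eu n => v q.1.1 - v q.1.2) :=
        (hv.meas.comp (measurable_fst.comp measurable_fst)).sub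
          (hv.meas.comp (measurable_snd.comp measurable_fst))
      have h2 : Measurable (fun q : (Eu n × Eu n) × Eu n => φ (q.1.1 - q.2) - φ (q.1.2 - q.2)) :=
        (h.meas.comp ((measurable_fst.comp measurable_fst).sub measurable_snd)).sub
          (h.meas.comp ((measurable_snd.comp measurable_fst).sub measurable_snd))
      have h3 : Measurable (fun q : (Eu n × Eu n) × Eu n => Kr (kap n p s) q.1.1 q.1.2) :=
        (measurable_Kr _).comp measurable_fst
      exact (hρm.comp measurable_snd).mul (((h1.norm.pow_const _).mul (h1.inner h2)).mul h3)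
    have hbound : ∀ t : Eu n, ∫⁻ z, ENNReal.ofReal |ρ.normed volume t * Fm p s v (tr t φ) z|
        ≤ ENNReal.ofReal (ρ.normed volume t) * (A1 * N1 p s φ + A2 * N2 p φ) := by
      intro t
      have e1 : ∀ z, ENNReal.ofReal |ρ.normed volume t * Fm p s v (tr t φ) z|
          = ENNReal.ofReal (ρ.normed volume t) * ENNReal.ofReal |Fm p s v (tr t φ) z| := by
        intro z
        rw [abs_mul, abs_of_nonneg (ρ.nonneg_normed t), ENNReal.ofReal_mul (ρ.nonneg_normed t)]
      simp_rw [e1]
      rw [lintegral_const_mul' _ _ ENNReal.ofReal_ne_top]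
      by_cases ht : ‖t‖ < 1/2
      · gcongr
        have := hb (tr t φ) (measurable_tr h.meas t) (tr_supp h.supp ht)
        rwa [N1_tr, N2_tr] at this
      · have : ρ.normed volume t = 0 := by
          have : t ∉ Function.support (ρ.normed volume) := by
            rw [ρ.support_normed_eq]
            simp only [mem_ball_zero_iff, not_lt] at ht ⊢
            linarith
          simpa using this
        rw [this]; simp
    have hint : Integrable (fun q : (Eu n × Eu n) × Eu n =>
        ρ.normed volume q.2 * Fm p s v (tr q.2 φ) q.1)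
        ((volume : Measure (Eu n × Eu n)).prod (volume : Measure (Eu n))) := by
      refine ⟨hmeas.aestronglyMeasurable, ?_⟩
      rw [hasFiniteIntegral_iff_norm]
      rw [lintegral_prod_symm' _ (hmeas.norm.ennreal_ofReal)]
      calc ∫⁻ t, ∫⁻ z, ENNReal.ofReal ‖ρ.normed volume t * Fm p s v (tr t φ) z‖
          ≤ ∫⁻ t, ENNReal.ofReal (ρ.normed volume t) * (A1 * N1 p s φ + A2 * N2 p φ) :=
            lintegral_mono hbound
        _ = (∫⁻ t, ENNReal.ofReal (ρ.normed volume t)) * (A1 * N1 p s φ + A2 * N2 p φ) := by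
            rw [lintegral_mul_const _ hρm.ennreal_ofReal]
        _ < ∞ := by
            apply ENNReal.mul_lt_top
            · exact ρ.integrable_normed.lintegral_lt_top
            · exact ENNReal.add_lt_top.2 ⟨ENNReal.mul_lt_top hA1 h.n1, ENNReal.mul_lt_top hA2 h.n2⟩
    have hswap := integral_integral_swap (f := fun z t => ρ.normed volume t * Fm p s v (tr t φ) z)
      (μ := (volume : Measure (Eu n × Eu n))) (ν := (volume : Measure (Eu n))) hint
    have hzero : ∫ z, ∫ t, ρ.normed volume t * Fm p s v (tr t φ) z = 0 := by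
      have : ∀ z, ∫ t, ρ.normed volume t * Fm p s v (tr t φ) z = Fm p s v (moll ρ φ) z :=
        fun z => (Fm_moll hp h ρ z).symm
      simp_rw [this]
      apply hv.eq
      · exact moll_contDiff hp h ρ
      · apply HasCompactSupport.intro (isCompact_closedBall (0 : Eu n) (3/2))
        intro x hx
        exact moll_zero h.supp ρ hρ x (fun hx' => hx (ball_subset_closedBall hx'))
      · refine (moll_tsupport h.supp ρ hρ).trans ?_
        apply closedBall_subset_ball; norm_num
    rw [hswap] at hzero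
    have hint2 := hint.integral_prod_right
    simp_rw [integral_const_mul] at hzero hint2
    exact ⟨hint2, hzero⟩
  by_contra hne
  have hε : 0 < |I0| / 2 := by positivity
  have hlim := tendsto_form hp hs hv h
  rw [Metric.tendsto_nhds] at hlim
  have hev := hlim _ hε
  rw [Metric.eventually_nhds_iff] at hev
  obtain ⟨r, hr, hrb⟩ := hev
  set r' := min r (1/2) with hr'
  have hr'0 : 0 < r' := lt_min hr (by norm_num)
  let ρ : ContDiffBump (0 : Eu n) := ⟨r' / 2, r', by positivity, by linarith⟩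
  have hρ : ρ.rOut ≤ 1/2 := min_le_right _ _
  obtain ⟨hint, hz⟩ := key ρ hρ
  have e1 : I0 = ∫ t, ρ.normed volume t * (I0 - ∫ z, Fm p s v (tr t φ) z) := by
    have : ∀ t, ρ.normed volume t * (I0 - ∫ z, Fm p s v (tr t φ) z)
        = ρ.normed volume t * I0 - ρ.normed volume t * ∫ z, Fm p s v (tr t φ) z := by
      intro t; ring
    simp_rw [this]
    rw [integral_sub (ρ.integrable_normed.mul_const _) hint, hz, integral_mul_const,
      ρ.integral_normed]
    ring
  have e2 : |I0| ≤ |I0| / 2 := by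
    calc |I0| = ‖∫ t, ρ.normed volume t * (I0 - ∫ z, Fm p s v (tr t φ) z)‖ := by
          rw [← e1, Real.norm_eq_abs]
      _ ≤ ∫ t, ρ.normed volume t * (|I0| / 2) := by
          apply norm_integral_le_of_norm_le (ρ.integrable_normed.mul_const _)
          filter_upwards with t
          rw [norm_mul, Real.norm_of_nonneg (ρ.nonneg_normed t)]
          by_cases ht : ‖t‖ < r'
          · apply mul_le_mul_of_nonneg_left _ (ρ.nonneg_normed t)
            have h5 := hrb (y := t) (by rw [dist_zero_right]; exact lt_of_lt_of_le ht (min_le_left _ _))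
            rw [Real.dist_eq, abs_sub_comm] at h5
            rw [Real.norm_eq_abs]
            exact h5.le
          · have : ρ.normed volume t = 0 := by
              have : t ∉ Function.support (ρ.normed volume) := by
                rw [ρ.support_normed_eq]
                simpa using ht
              simpa using this
            rw [this]; simp
      _ = |I0| / 2 := by
          rw [integral_mul_const, ρ.integral_normed, one_mul]
  linarith

end Pool.Agent.helper32.Frac
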