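import Pool.Agent.helper32.Frac.DG

/-! The gain near the boundary of the ball (strong maximum principle). -/

namespace Pool.Agent.helper32.Frac

open Real MeasureTheory Set Metric Filter Topology
open scoped ENNReal RealInnerProductSpace

variable {n m : ℕ}

/-- Superlevel set near the sphere. -/
def LvS (v : Eu n → Eu m) (δ r : ℝ) : Set (Eu n) := ball 0 r ∩ {x | 1 - δ < ‖v x‖ ^ 2}

theorem measurableSet_LvS {v : Eu n → Eu m} (hv : Measurable v) (δ r : ℝ) :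
    MeasurableSet (LvS v δ r) :=
  measurableSet_ball.inter (measurableSet_lt measurable_const (hv.norm.pow_const _))

/-- The weight of the test function. -/
noncomputable def gg (ζ : Eu n → ℝ) (L : ℕ) (δ : ℝ) (v : Eu n → Eu m) (x : Eu n) : ℝ :=
  ζ x ^ L * clampG (1 - δ) δ (‖v x‖ ^ 2)

/-- near error -/
noncomputable def Q1g (p s C : ℝ) (ζ : Eu n → ℝ) (A : Set (Eu n)) (z : Eu n × Eu n) : ℝ :=
  C * ((A.indicator (fun _ => (1:ℝ)) z.1 + A.indicator (fun _ => (1:ℝ)) z.2)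
    * (|ζ z.1 - ζ z.2| ^ p * Kr (kap n p s) z.1 z.2))

/-- tail density above 1 -/
noncomputable def td (p s : ℝ) (v : Eu n → Eu m) (y : Eu n) : ℝ :=
  {y | 1 < ‖v y‖}.indicator (fun y => (1 + ‖v y‖) ^ (p - 1) * wt (kap n p s) y) y

/-- far error -/
noncomputable def Q2g (p s : ℝ) (ζ : Eu n → ℝ) (L : ℕ) (δ : ℝ) (v : Eu n → Eu m)
    (z : Eu n × Eu n) : ℝ :=
  4 ^ (kap n p s) * (gg ζ L δ v z.1 * td p s v z.2)

theorem td_nonneg (p s : ℝ) (v : Eu n → Eu m) (y : Eu n) : 0 ≤ td p s v y := by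
  unfold td
  apply indicator_nonneg
  intro y _
  have := (wt_pos (kap n p s) y).le
  positivity

theorem gg_nonneg {ζ : Eu n → ℝ} {Λ r : ℝ} (hζ : Cut ζ Λ r) (L : ℕ) (δ : ℝ) (v : Eu n → Eu m)
    (x : Eu n) : 0 ≤ gg ζ L δ v x :=
  mul_nonneg (pow_nonneg (hζ.nonneg x) _) (clampG_nonneg _ _ _)

theorem gg_le_one {ζ : Eu n → ℝ} {Λ r : ℝ} (hζ : Cut ζ Λ r) (L : ℕ) (δ : ℝ) (v : Eu n → Eu m)
    (x : Eu n) : gg ζ L δ v x ≤ 1 :=
  mul_le_one₀ (pow_le_one₀ (hζ.nonneg x) (hζ.le_one x)) (clampG_nonneg _ _ _) (clampG_le_one _ _ _)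

theorem measurable_gg {ζ : Eu n → ℝ} (hζ : Measurable ζ) (L : ℕ) (δ : ℝ) {v : Eu n → Eu m}
    (hv : Measurable v) : Measurable (gg ζ L δ v) :=
  (hζ.pow_const _).mul ((measurable_clampG _ _).comp (hv.norm.pow_const _))

theorem measurable_td (p s : ℝ) {v : Eu n → Eu m} (hv : Measurable v) :
    Measurable (td (n := n) p s v) :=
  (((measurable_const.add hv.norm).pow_const _).mul (measurable_wt _)).indicator
    (measurableSet_lt measurable_const hv.norm)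

theorem Q1g_nonneg {p s C : ℝ} (hC : 0 ≤ C) (ζ : Eu n → ℝ) (A : Set (Eu n)) (z : Eu n × Eu n) :
    0 ≤ Q1g p s C ζ A z := by
  unfold Q1g
  have h1 : ∀ x, 0 ≤ A.indicator (fun _ => (1:ℝ)) x := fun x =>
    indicator_nonneg (fun x _ => zero_le_one) _
  have h3 := Kr_nonneg (kap n p s) z.1 z.2
  have h4 := h1 z.1
  have h5 := h1 z.2
  positivity

theorem measurable_Q1g {p s C : ℝ} {ζ : Eu n → ℝ} (hζ : Measurable ζ) {A : Set (Eu n)}
    (hA : MeasurableSet A) : Measurable (Q1g (n := n) p s C ζ A) := by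
  unfold Q1g
  have h1 : Measurable (fun z : Eu n × Eu n => A.indicator (fun _ => (1:ℝ)) z.1) :=
    (measurable_const.indicator hA).comp measurable_fst
  have h2 : Measurable (fun z : Eu n × Eu n => A.indicator (fun _ => (1:ℝ)) z.2) :=
    (measurable_const.indicator hA).comp measurable_snd
  have h3 : Measurable (fun z : Eu n × Eu n => |ζ z.1 - ζ z.2|) :=
    ((hζ.comp measurable_fst).sub (hζ.comp measurable_snd)).abs
  exact measurable_const.mul ((h1.add h2).mul ((h3.pow_const _).mul (measurable_Kr _)))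

theorem lint_Q1g {p s C : ℝ} (hp : 1 < p) (hC : 0 ≤ C)
    {ζ : Eu n → ℝ} {Λ r : ℝ} (hζ : Cut ζ Λ r) {A : Set (Eu n)} (hA : MeasurableSet A) :
    ∫⁻ z, ENNReal.ofReal (Q1g p s C ζ A z)
      ≤ ENNReal.ofReal (2 * C) * (ENNReal.ofReal (Λ ^ p) * CK n p s) * volume A := by
  set w : Eu n → ℝ≥0∞ := fun x => ENNReal.ofReal (A.indicator (fun _ => (1:ℝ)) x) with hw
  have hwm : Measurable w := (measurable_const.indicator hA).ennreal_ofReal
  set k : Eu n × Eu n → ℝ≥0∞ := fun z =>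
      ENNReal.ofReal (|ζ z.1 - ζ z.2| ^ p * Kr (kap n p s) z.1 z.2) with hk
  have hkm : Measurable k := by
    have h1 : Measurable (fun z : Eu n × Eu n => |ζ z.1 - ζ z.2|) :=
      ((hζ.measurable.comp measurable_fst).sub (hζ.measurable.comp measurable_snd)).abs
    exact ((h1.pow_const _).mul (measurable_Kr _)).ennreal_ofReal
  have hm1 : Measurable (fun z : Eu n × Eu n => w z.1 * k z) := (hwm.comp measurable_fst).mul hkm
  have ind0 : ∀ x, 0 ≤ A.indicator (fun _ => (1:ℝ)) x := fun x =>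
      indicator_nonneg (fun x _ => zero_le_one) _
  have e1 : ∀ z : Eu n × Eu n, ENNReal.ofReal (Q1g p s C ζ A z)
      = ENNReal.ofReal C * (w z.1 * k z + w z.2 * k z) := by
    intro z
    have h3 := Kr_nonneg (kap n p s) z.1 z.2
    have h4 := ind0 z.1
    have h5 := ind0 z.2
    unfold Q1g
    rw [ENNReal.ofReal_mul hC, ENNReal.ofReal_mul (by positivity), ENNReal.ofReal_add h4 h5,
      add_mul]
  simp_rw [e1]
  rw [lintegral_const_mul' _ _ ENNReal.ofReal_ne_top, lintegral_add_left hm1]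
  have i1 := hζ.lint (n := n) (s := s) hp hwm
  have i2 : ∫⁻ z : Eu n × Eu n, w z.2 * k z = ∫⁻ z : Eu n × Eu n, w z.1 * k z := by
    rw [← lintegral_swap' hm1]
    apply lintegral_congr
    rintro ⟨x, y⟩
    simp only [Prod.swap, hk]
    rw [Kr_symm, abs_sub_comm]
  have i3 : ∫⁻ x, w x = volume A := by
    rw [hw, lint_ind hA]; simp
  rw [i2, ← i3]
  calc ENNReal.ofReal C * ((∫⁻ z : Eu n × Eu n, w z.1 * k z) + ∫⁻ z : Eu n × Eu n, w z.1 * k z)
      ≤ ENNReal.ofReal C * ((ENNReal.ofReal (Λ ^ p) * CK n p s) * (∫⁻ x, w x)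
        + (ENNReal.ofReal (Λ ^ p) * CK n p s) * ∫⁻ x, w x) := by
        gcongr
    _ = _ := by
        rw [ENNReal.ofReal_mul (by norm_num : (0:ℝ) ≤ 2), ENNReal.ofReal_ofNat]
        ring

theorem clampG_pos_iff {c δ : ℝ} (hδ : 0 < δ) {q : ℝ} : 0 < clampG c δ q ↔ c < q := by
  constructor
  · intro h
    by_contra h'
    push Not at h'
    rw [clampG_eq_zero hδ h'] at h
    exact lt_irrefl _ h
  · intro h
    unfold clampG
    apply lt_max_of_lt_right
    apply lt_min zero_lt_one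
    apply div_pos (by linarith) hδ

/-- pointwise, near case. -/
theorem gain_near {p s : ℝ} (hp : 1 < p) {l : ℕ} {C σ : ℝ} (hC : 0 < C)
    (hb : ∀ (a b : Eu m) (z1 z2 G1 G2 δ : ℝ),
    0 ≤ z1 → z1 ≤ 1 → 0 ≤ z2 → z2 ≤ 1 → 0 ≤ G1 → 0 ≤ G2 → G1 ≤ 1 → G2 ≤ 1 → 0 < δ →
    ‖a‖ ≤ 1 → ‖b‖ ≤ 1 → ‖a‖ ^ 2 - ‖b‖ ^ 2 = δ * (G1 - G2) →
    (1/4) * ‖a - b‖ ^ p * (z1 ^ (2 * l) * G1 + z2 ^ (2 * l) * G2)
      - C * δ ^ σ * |z1 - z2| ^ p
      ≤ form p a b ((z1 ^ (2 * l) * G1) • a) ((z2 ^ (2 * l) * G2) • b))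
    {v : Eu n → Eu m} {δ r1 : ℝ} (hδ : 0 < δ) {ζ : Eu n → ℝ} {Λ : ℝ}
    (hζ : Cut ζ Λ r1) (z : Eu n × Eu n) (hz1 : ‖v z.1‖ ≤ 1) (hz2 : ‖v z.2‖ ≤ 1) :
    (1/4) * ‖v z.1 - v z.2‖ ^ p * (gg ζ (2 * l) δ v z.1) * Kr (kap n p s) z.1 z.2
      - Q1g p s (C * δ ^ σ) ζ (LvS v δ r1) z
      ≤ Fm p s v (tf ζ (2 * l) (1 - δ) δ v) z := by
  obtain ⟨x, y⟩ := z
  simp only at hz1 hz2
  set κ := kap n p s with hκ
  have hp0 : 0 < p := by linarith
  set G1 := clampG (1 - δ) δ (‖v x‖ ^ 2) with hG1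
  set G2 := clampG (1 - δ) δ (‖v y‖ ^ 2) with hG2
  have hG10 : 0 ≤ G1 := clampG_nonneg _ _ _
  have hG20 : 0 ≤ G2 := clampG_nonneg _ _ _
  have hG11 : G1 ≤ 1 := clampG_le_one _ _ _
  have hG21 : G2 ≤ 1 := clampG_le_one _ _ _
  have hζx := hζ.nonneg x
  have hζy := hζ.nonneg y
  have hK := Kr_nonneg κ x y
  have hFm : Fm p s v (tf ζ (2 * l) (1 - δ) δ v) (x, y)
      = form p (v x) (v y) ((ζ x ^ (2 * l) * G1) • v x) ((ζ y ^ (2 * l) * G2) • v y) * Kr κ x y := rfl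
  have hgx : gg ζ (2 * l) δ v x = ζ x ^ (2 * l) * G1 := rfl
  rw [hFm]
  simp only
  rw [hgx]
  have hq1x : ‖v x‖ ^ 2 ≤ 1 := pow_le_one₀ (norm_nonneg _) hz1
  have hq1y : ‖v y‖ ^ 2 ≤ 1 := pow_le_one₀ (norm_nonneg _) hz2
  have hg2 : 0 ≤ ζ y ^ (2 * l) * G2 := by positivity
  have hg1 : 0 ≤ ζ x ^ (2 * l) * G1 := by positivity
  have hD : 0 ≤ ‖v x - v y‖ ^ p := by positivity
  have hQ : 0 ≤ Q1g p s (C * δ ^ σ) ζ (LvS v δ r1) (x, y) := Q1g_nonneg (by positivity) _ _ _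
  by_cases hx : 1 - δ < ‖v x‖ ^ 2 <;> by_cases hy : 1 - δ < ‖v y‖ ^ 2
  · -- both in the level set
    have e1 : G1 = (‖v x‖ ^ 2 - (1 - δ)) / δ := clampG_eq hδ hx.le (by linarith)
    have e2 : G2 = (‖v y‖ ^ 2 - (1 - δ)) / δ := clampG_eq hδ hy.le (by linarith)
    have hq : ‖v x‖ ^ 2 - ‖v y‖ ^ 2 = δ * (G1 - G2) := by
      rw [e1, e2]; field_simp; ring
    have h := hb (v x) (v y) (ζ x) (ζ y) G1 G2 δ hζx (hζ.le_one x) hζy (hζ.le_one y)
      hG10 hG20 hG11 hG21 hδ hz1 hz2 hq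
    refine le_trans ?_ (mul_le_mul_of_nonneg_right h hK)
    rw [sub_mul]
    apply sub_le_sub
    · apply mul_le_mul_of_nonneg_right _ hK
      apply mul_le_mul_of_nonneg_left _ (by positivity)
      linarith
    · unfold Q1g
      simp only
      rw [← hκ]
      have hind : 1 ≤ (LvS v δ r1).indicator (fun _ => (1:ℝ)) x
          + (LvS v δ r1).indicator (fun _ => (1:ℝ)) y ∨ |ζ x - ζ y| = 0 := by
        by_cases hxb : x ∈ ball (0 : Eu n) r1
        · left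
          rw [indicator_of_mem (show x ∈ LvS v δ r1 from ⟨hxb, hx⟩)]
          have : 0 ≤ (LvS v δ r1).indicator (fun _ => (1:ℝ)) y :=
            indicator_nonneg (fun x _ => zero_le_one) _
          linarith
        · by_cases hyb : y ∈ ball (0 : Eu n) r1
          · left
            rw [indicator_of_mem (show y ∈ LvS v δ r1 from ⟨hyb, hy⟩)]
            have : 0 ≤ (LvS v δ r1).indicator (fun _ => (1:ℝ)) x :=
              indicator_nonneg (fun x _ => zero_le_one) _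
            linarith
          · right
            rw [hζ.supp x hxb, hζ.supp y hyb]; simp
      have hCδ : 0 ≤ C * δ ^ σ := by positivity
      rcases hind with h1 | h1
      · calc C * δ ^ σ * |ζ x - ζ y| ^ p * Kr κ x y
            = C * δ ^ σ * (1 * (|ζ x - ζ y| ^ p * Kr κ x y)) := by ring
          _ ≤ _ := by
            apply mul_le_mul_of_nonneg_left _ hCδ
            apply mul_le_mul_of_nonneg_right h1
            positivity
      · rw [h1, Real.zero_rpow hp0.ne']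
        simp
  · have e2 : G2 = 0 := clampG_eq_zero hδ (by linarith)
    have h := form_ge_of_nonneg hp (v x) (v y) hg1 hg2 (by
      rw [e2, mul_zero, sub_zero]
      exact mul_nonneg (by linarith) hg1)
    have := mul_le_mul_of_nonneg_right h hK
    rw [e2] at this ⊢
    simp only [mul_zero, add_zero] at this ⊢
    linarith
  · have e1 : G1 = 0 := clampG_eq_zero hδ (by linarith)
    have h := form_ge_of_nonneg hp (v x) (v y) hg1 hg2 (by
      rw [e1, mul_zero, zero_sub]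
      nlinarith)
    have h2 := mul_le_mul_of_nonneg_right h hK
    rw [e1] at h2 ⊢
    have h3 : 0 ≤ 1 / 4 * ‖v x - v y‖ ^ p * (ζ y ^ (2 * l) * G2) * Kr κ x y := by positivity
    simp only [mul_zero, zero_add, zero_mul] at h2 ⊢
    linarith
  · have e1 : G1 = 0 := clampG_eq_zero hδ (by linarith)
    have e2 : G2 = 0 := clampG_eq_zero hδ (by linarith)
    rw [e1, e2]
    have : form p (v x) (v y) ((ζ x ^ (2 * l) * 0) • v x) ((ζ y ^ (2 * l) * 0) • v y) = 0 := by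
      unfold form; simp
    rw [this]
    simp only [mul_zero, zero_mul]
    linarith

/-- pointwise, far case. -/
theorem gain_far [NeZero n] {p s : ℝ} (hp : 1 < p) (hs : 0 < s) {L : ℕ} (hL : 1 ≤ L)
    {v : Eu n → Eu m} {δ r1 : ℝ} {ζ : Eu n → ℝ} {Λ : ℝ} (hr1 : r1 ≤ 1)
    (hζ : Cut ζ Λ r1) (z : Eu n × Eu n) (hz1 : ‖v z.1‖ ≤ 1) (hz2 : 1 < ‖v z.2‖)
    (hz2' : z.2 ∉ ball (0 : Eu n) 2) :
    |Fm p s v (tf ζ L (1 - δ) δ v) z| ≤ Q2g p s ζ L δ v z := by
  obtain ⟨x, y⟩ := z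
  simp only at hz1 hz2 hz2'
  set κ := kap n p s with hκ
  have hκ0 : 0 < κ := kap_pos hp hs
  have hp1 : 0 < p - 1 := by linarith
  set φ := tf ζ L (1 - δ) δ v with hφ
  have hφy : φ y = 0 := by
    rw [hφ]; unfold tf
    rw [hζ.supp y, zero_pow (by omega)]
    · simp
    · intro h
      apply hz2'
      exact ball_subset_ball (by linarith) h
  have hQ0 : 0 ≤ Q2g p s ζ L δ v (x, y) := by
    unfold Q2g
    have h1 := gg_nonneg hζ L δ v x
    have h2 := td_nonneg p s v y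
    positivity
  by_cases hxs : x ∈ ball (0 : Eu n) r1
  · have hx1 : ‖x‖ < r1 := by simpa using hxs
    have hy1 : (2:ℝ) ≤ ‖y‖ := by simpa using hz2'
    have hxy : (1:ℝ) ≤ ‖x - y‖ := by
      have : ‖y‖ - ‖x‖ ≤ ‖x - y‖ := by
        rw [norm_sub_rev]; exact norm_sub_norm_le y x
      linarith
    have hK := Kr_le_wt hκ0 (x := x) (y := y) (ρ := 1) (by norm_num) le_rfl
      (by linarith) hxy
    rw [div_one] at hK
    have h3 := norm_form_le hp (v x) (v y) (φ x) (φ y)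
    rw [hφy, sub_zero] at h3
    have h4 : ‖v x - v y‖ ^ (p - 1) ≤ (1 + ‖v y‖) ^ (p - 1) := by
      apply Real.rpow_le_rpow (norm_nonneg _) _ hp1.le
      exact (norm_sub_le _ _).trans (by linarith)
    have h5 : ‖φ x‖ ≤ gg ζ L δ v x := by
      rw [hφ]; unfold tf gg
      have hz0 := hζ.nonneg x
      rw [norm_smul, norm_mul, Real.norm_of_nonneg (pow_nonneg hz0 _),
        Real.norm_of_nonneg (clampG_nonneg _ _ _)]
      apply mul_le_of_le_one_right _ hz1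
      exact mul_nonneg (pow_nonneg hz0 _) (clampG_nonneg _ _ _)
    unfold Fm
    simp only
    rw [abs_mul, abs_of_nonneg (Kr_nonneg _ _ _), hφy, ← hκ]
    unfold Q2g td
    simp only
    rw [indicator_of_mem (show y ∈ {y | 1 < ‖v y‖} from hz2)]
    have hwt0 := (wt_pos κ y).le
    calc |form p (v x) (v y) (φ x) 0| * Kr κ x y
        ≤ (‖v x - v y‖ ^ (p - 1) * ‖φ x‖) * (4 ^ κ * wt κ y) := by
          apply mul_le_mul h3 hK (Kr_nonneg _ _ _)
          apply mul_nonneg (Real.rpow_nonneg (norm_nonneg _) _) (norm_nonneg _)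
      _ ≤ ((1 + ‖v y‖) ^ (p - 1) * gg ζ L δ v x) * (4 ^ κ * wt κ y) := by
          gcongr
      _ = _ := by rw [← hκ]; ring
  · have hφx : φ x = 0 := by
      rw [hφ]; unfold tf
      rw [hζ.supp x hxs, zero_pow (by omega)]; simp
    have : Fm p s v φ (x, y) = 0 := by
      unfold Fm form; simp [hφx, hφy]
    rw [this, abs_zero]
    exact hQ0

theorem ae_fst {P : Eu n → Prop} (h : ∀ᵐ x, P x) : ∀ᵐ z : Eu n × Eu n, P z.1 :=
  Measure.quasiMeasurePreserving_fst.ae h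

theorem ae_snd {P : Eu n → Prop} (h : ∀ᵐ x, P x) : ∀ᵐ z : Eu n × Eu n, P z.2 :=
  Measure.quasiMeasurePreserving_snd.ae h

/-- Integrated gain inequality. -/
theorem gain_int [NeZero n] {p s : ℝ} (hp : 1 < p) (hs : 0 < s) (hs1 : s < 1) {l : ℕ} (hl : 1 ≤ l)
    {C σ : ℝ} (hC : 0 < C)
    (hb : ∀ (a b : Eu m) (z1 z2 G1 G2 δ : ℝ),
    0 ≤ z1 → z1 ≤ 1 → 0 ≤ z2 → z2 ≤ 1 → 0 ≤ G1 → 0 ≤ G2 → G1 ≤ 1 → G2 ≤ 1 → 0 < δ →
    ‖a‖ ≤ 1 → ‖b‖ ≤ 1 → ‖a‖ ^ 2 - ‖b‖ ^ 2 = δ * (G1 - G2) →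
    (1/4) * ‖a - b‖ ^ p * (z1 ^ (2 * l) * G1 + z2 ^ (2 * l) * G2)
      - C * δ ^ σ * |z1 - z2| ^ p
      ≤ form p a b ((z1 ^ (2 * l) * G1) • a) ((z2 ^ (2 * l) * G2) • b))
    {v : Eu n → Eu m} (hv : Sol p s v) (hv1 : ∀ᵐ x, x ∈ ball (0 : Eu n) 2 → ‖v x‖ ≤ 1)
    {δ r1 : ℝ} (hδ : 0 < δ) (hδ1 : δ ≤ 1) (hr1 : r1 ≤ 1) {ζ : Eu n → ℝ} {Λ : ℝ}
    (hζ : Cut ζ Λ r1) :
    ∫⁻ z, ENNReal.ofReal (PP p s v ζ (2 * l) (1 - δ) δ 1 z)
    ≤ ∫⁻ z, ENNReal.ofReal (Q1g p s (C * δ ^ σ) ζ (LvS v δ r1) z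
        + (Q2g p s ζ (2 * l) δ v z + Q2g p s ζ (2 * l) δ v z.swap)) := by
  have hL1 : 1 ≤ 2 * l := by omega
  have hcut1 : Cut ζ Λ 1 :=
    ⟨hζ.nonneg, hζ.le_one, hζ.lip, fun x hx => hζ.supp x (fun h => hx
      (ball_subset_ball hr1 h)), hζ.one_le⟩
  have hA := measurableSet_LvS hv.meas δ r1
  have hCδ : 0 ≤ C * δ ^ σ := by positivity
  have hQ20 : ∀ z, 0 ≤ Q2g p s ζ (2 * l) δ v z := by
    intro z
    unfold Q2g
    have h1 := gg_nonneg hζ (2 * l) δ v z.1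
    have h2 := td_nonneg p s v z.2
    positivity
  have hQ2m : Measurable (Q2g p s ζ (2 * l) δ v) := by
    unfold Q2g
    exact measurable_const.mul (((measurable_gg hζ.measurable _ _ hv.meas).comp measurable_fst).mul
      ((measurable_td p s hv.meas).comp measurable_snd))
  apply compare hp hs hv (tf_adm hp hs hs1 hv hcut1 hL1 (by linarith : 0 ≤ 1 - δ) hδ)
  · exact (measurable_Q1g hζ.measurable hA).add (hQ2m.add (hQ2m.comp measurable_swap))
  · exact PP_nonneg hζ _ _ _ _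
  · intro z
    have h1 := Q1g_nonneg (p := p) (s := s) hCδ ζ (LvS v δ r1) z
    have h2 := hQ20 z
    have h3 := hQ20 z.swap
    linarith
  · filter_upwards [ae_fst hv1, ae_snd hv1] with z hz1 hz2
    have h1 := Q1g_nonneg (p := p) (s := s) hCδ ζ (LvS v δ r1) z
    have h2 := hQ20 z
    have h3 := hQ20 z.swap
    have hg0 : ∀ x, x ∉ ball (0 : Eu n) 2 → gg ζ (2 * l) δ v x = 0 := by
      intro x hx
      unfold gg
      rw [hζ.supp x (fun h => hx (ball_subset_ball (by linarith) h)), zero_pow (by omega), zero_mul]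
    have tf0 : ∀ x, x ∉ ball (0 : Eu n) 2 → tf ζ (2 * l) (1 - δ) δ v x = 0 := by
      intro x hx
      unfold tf
      rw [hζ.supp x (fun h => hx (ball_subset_ball (by linarith) h)), zero_pow (by omega)]
      simp
    have hPPle : PP p s v ζ (2 * l) (1 - δ) δ 1 z ≤
        (1/4) * ‖v z.1 - v z.2‖ ^ p * (gg ζ (2 * l) δ v z.1) * Kr (kap n p s) z.1 z.2 := by
      unfold PP
      by_cases h : z ∈ (Prod.snd ⁻¹' (ball (0 : Eu n) 1) : Set (Eu n × Eu n))
      · rw [indicator_of_mem h]; exact le_refl _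
      · rw [indicator_of_notMem h]
        have h1 := Kr_nonneg (kap n p s) z.1 z.2
        have h2 := gg_nonneg hζ (2 * l) δ v z.1
        positivity
    have hPP2 : z.2 ∉ ball (0 : Eu n) 2 → PP p s v ζ (2 * l) (1 - δ) δ 1 z = 0 := by
      intro h
      unfold PP
      rw [indicator_of_notMem]
      intro h'
      exact h (ball_subset_ball (by norm_num) h')
    have hPP1 : z.1 ∉ ball (0 : Eu n) 2 → PP p s v ζ (2 * l) (1 - δ) δ 1 z ≤ 0 := by
      intro h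
      refine hPPle.trans ?_
      rw [hg0 _ h]; simp
    by_cases hs1' : ‖v z.1‖ ≤ 1 <;> by_cases hs2' : ‖v z.2‖ ≤ 1
    · have h := gain_near (s := s) hp hC hb (v := v) hδ hζ z hs1' hs2'
      linarith
    · have hn2 : z.2 ∉ ball (0 : Eu n) 2 := fun h => hs2' (hz2 h)
      push Not at hs2'
      have h := gain_far hp hs hL1 (v := v) (δ := δ) hr1 hζ z hs1' hs2' hn2
      rw [hPP2 hn2]
      have := neg_le_of_abs_le h
      linarith
    · have hn1 : z.1 ∉ ball (0 : Eu n) 2 := fun h => hs1' (hz1 h)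
      push Not at hs1'
      have h := gain_far hp hs hL1 (v := v) (δ := δ) hr1 hζ z.swap hs2' hs1' hn1
      rw [Fm_swap] at h
      have := neg_le_of_abs_le h
      have := hPP1 hn1
      linarith
    · have hn1 : z.1 ∉ ball (0 : Eu n) 2 := fun h => hs1' (hz1 h)
      have hn2 : z.2 ∉ ball (0 : Eu n) 2 := fun h => hs2' (hz2 h)
      have : Fm p s v (tf ζ (2 * l) (1 - δ) δ v) z = 0 := by
        unfold Fm form
        rw [tf0 _ hn1, tf0 _ hn2]; simp
      rw [this]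
      have := hPP1 hn1
      linarith

/-- The tail above 1. -/
noncomputable def TS (p s : ℝ) (v : Eu n → Eu m) : ℝ≥0∞ := ∫⁻ y, ENNReal.ofReal (td p s v y)

theorem lint_Q2g {p s : ℝ} {v : Eu n → Eu m}
    (hv : Measurable v) {ζ : Eu n → ℝ} {Λ r : ℝ} (hζ : Cut ζ Λ r) (L : ℕ) (δ : ℝ) :
    ∫⁻ z, ENNReal.ofReal (Q2g p s ζ L δ v z)
      = ENNReal.ofReal (4 ^ (kap n p s)) *
        ((∫⁻ x, ENNReal.ofReal (gg ζ L δ v x)) * TS p s v) := by
  have e1 : ∀ z : Eu n × Eu n, ENNReal.ofReal (Q2g p s ζ L δ v z)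
      = ENNReal.ofReal (4 ^ (kap n p s)) *
        (ENNReal.ofReal (gg ζ L δ v z.1) * ENNReal.ofReal (td p s v z.2)) := by
    intro z
    unfold Q2g
    rw [ENNReal.ofReal_mul (by positivity), ENNReal.ofReal_mul (gg_nonneg hζ _ _ _ _)]
  simp_rw [e1]
  rw [lintegral_const_mul' _ _ ENNReal.ofReal_ne_top, Measure.volume_eq_prod,
    lintegral_prod_mul (measurable_gg hζ.measurable L δ hv).ennreal_ofReal.aemeasurable
      (measurable_td p s hv).ennreal_ofReal.aemeasurable]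
  rfl

/-- Non-concentration. -/
def NC (v : Eu n → Eu m) (ε c0 : ℝ) : Prop :=
  ∀ x ∈ ball (0 : Eu n) 1, ‖v x‖ ≤ 1 →
    ENNReal.ofReal c0 ≤ volume (ball (0 : Eu n) 1 ∩ {y | ε ≤ ‖v y - v x‖})

theorem gain_lower [NeZero n] {p s : ℝ} (hp : 1 < p) (hs : 0 < s) {v : Eu n → Eu m}
    (hv : Measurable v) (hv1 : ∀ᵐ x, x ∈ ball (0 : Eu n) 2 → ‖v x‖ ≤ 1) {ε c0 : ℝ} (hε : 0 < ε)
    (hc0 : 0 < c0)
    (hNC : NC v ε c0) {δ r1 : ℝ} (hr1 : r1 ≤ 1) {ζ : Eu n → ℝ} {Λ : ℝ}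
    (hζ : Cut ζ Λ r1) {L : ℕ} (hL : 1 ≤ L) :
    ENNReal.ofReal ((1/4) * ε ^ p * 2 ^ (-(kap n p s)) * c0)
      * ∫⁻ x, ENNReal.ofReal (gg ζ L δ v x)
      ≤ ∫⁻ z, ENNReal.ofReal (PP p s v ζ L (1 - δ) δ 1 z) := by
  set κ := kap n p s with hκ
  have hκ0 : 0 < κ := kap_pos hp hs
  have hp0 : 0 < p := by linarith
  set f : Eu n × Eu n → ℝ≥0∞ := fun z => ENNReal.ofReal (PP p s v ζ L (1 - δ) δ 1 z) with hf
  have hfm : Measurable f := by
    have h1 : Measurable (fun z : Eu n × Eu n => v z.1 - v z.2) :=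
      (hv.comp measurable_fst).sub (hv.comp measurable_snd)
    have h2 : Measurable (fun z : Eu n × Eu n => ζ z.1 ^ L) :=
      (hζ.measurable.comp measurable_fst).pow_const _
    have h3 : Measurable (fun z : Eu n × Eu n => clampG (1 - δ) δ (‖v z.1‖ ^ 2)) :=
      (measurable_clampG _ _).comp (((hv.comp measurable_fst).norm).pow_const _)
    have h4 : Measurable (fun z : Eu n × Eu n => (1/4) * ‖v z.1 - v z.2‖ ^ p
        * (ζ z.1 ^ L * clampG (1 - δ) δ (‖v z.1‖ ^ 2)) * Kr κ z.1 z.2) :=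
      ((measurable_const.mul (h1.norm.pow_const _)).mul (h2.mul h3)).mul (measurable_Kr _)
    exact (h4.indicator (measurable_snd measurableSet_ball)).ennreal_ofReal
  rw [Measure.volume_eq_prod, lintegral_prod _ hfm.aemeasurable,
    ← lintegral_const_mul' _ _ ENNReal.ofReal_ne_top]
  apply lintegral_mono_ae
  filter_upwards [hv1] with x hx
  by_cases hxb : x ∈ ball (0 : Eu n) 1
  · have hx1 : ‖v x‖ ≤ 1 := hx (ball_subset_ball (by norm_num) hxb)
    have hnc := hNC x hxb hx1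
    set S := ball (0 : Eu n) 1 ∩ {y | ε ≤ ‖v y - v x‖} with hS
    have hSm : MeasurableSet S :=
      measurableSet_ball.inter (measurableSet_le measurable_const (hv.sub_const _).norm)
    have hg0 := gg_nonneg hζ L δ v x
    have hpt : ∀ y ∈ S, ENNReal.ofReal ((1/4) * ε ^ p * 2 ^ (-κ) * gg ζ L δ v x) ≤ f (x, y) := by
      rintro y ⟨hy, hyε⟩
      have hyε' : ε ≤ ‖v y - v x‖ := hyε
      rw [norm_sub_rev] at hyε'
      have hne : 0 < ‖x - y‖ := by
        rw [norm_pos_iff, sub_ne_zero]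
        rintro rfl
        rw [sub_self, norm_zero] at hyε'
        linarith
      have hlt : ‖x - y‖ < 2 := by
        have h1 : ‖x‖ < 1 := by simpa using hxb
        have h2 : ‖y‖ < 1 := by simpa using hy
        have := norm_sub_le x y
        linarith
      have hK : (2:ℝ) ^ (-κ) ≤ Kr κ x y := by
        unfold Kr
        exact Real.rpow_le_rpow_of_nonpos hne hlt.le (by linarith)
      simp only [hf]
      unfold PP
      rw [indicator_of_mem (by exact hy)]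
      apply ENNReal.ofReal_le_ofReal
      simp only
      change (1/4) * ε ^ p * 2 ^ (-κ) * gg ζ L δ v x
        ≤ (1/4) * ‖v x - v y‖ ^ p * gg ζ L δ v x * Kr κ x y
      calc (1/4) * ε ^ p * 2 ^ (-κ) * gg ζ L δ v x = (1/4) * ε ^ p * gg ζ L δ v x * 2 ^ (-κ) := by
            ring
        _ ≤ _ := by gcongr
    calc ENNReal.ofReal ((1/4) * ε ^ p * 2 ^ (-κ) * c0) * ENNReal.ofReal (gg ζ L δ v x)
        = ENNReal.ofReal ((1/4) * ε ^ p * 2 ^ (-κ) * gg ζ L δ v x) * ENNReal.ofReal c0 := by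
          rw [← ENNReal.ofReal_mul (by positivity), ← ENNReal.ofReal_mul (by positivity)]
          congr 1; ring
      _ ≤ ENNReal.ofReal ((1/4) * ε ^ p * 2 ^ (-κ) * gg ζ L δ v x) * volume S := by gcongr
      _ = ∫⁻ y in S, ENNReal.ofReal ((1/4) * ε ^ p * 2 ^ (-κ) * gg ζ L δ v x) := by
          rw [setLIntegral_const]
      _ ≤ ∫⁻ y in S, f (x, y) := setLIntegral_mono' hSm hpt
      _ ≤ ∫⁻ y, f (x, y) := setLIntegral_le_lintegral _ _
  · have : gg ζ L δ v x = 0 := by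
      unfold gg
      rw [hζ.supp x (fun h => hxb (ball_subset_ball hr1 h)), zero_pow (by omega), zero_mul]
    rw [this]; simp

theorem le_of_ofReal_mul_le {X Y : ℝ} (hX : 0 < X) {A B : ℝ≥0∞}
    (h : ENNReal.ofReal X * A ≤ ENNReal.ofReal Y * B) : A ≤ ENNReal.ofReal (Y / X) * B := by
  have hXne : ENNReal.ofReal X ≠ 0 := by simpa using hX
  calc A = (ENNReal.ofReal X)⁻¹ * (ENNReal.ofReal X * A) := by
        rw [← mul_assoc, ENNReal.inv_mul_cancel hXne ENNReal.ofReal_ne_top, one_mul]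
    _ ≤ (ENNReal.ofReal X)⁻¹ * (ENNReal.ofReal Y * B) := by gcongr
    _ = _ := by
        rw [ENNReal.ofReal_div_of_pos hX, ENNReal.div_eq_inv_mul, mul_assoc]

theorem gain_step [NeZero n] {p s : ℝ} (hp : 1 < p) (hs : 0 < s) (hs1 : s < 1) :
    ∃ σ : ℝ, 0 < σ ∧ ∀ ε c0 : ℝ, 0 < ε → 0 < c0 → ∃ Cg τ : ℝ, 0 < Cg ∧ 0 < τ ∧
      ∀ v : Eu n → Eu m, Sol p s v → (∀ᵐ x, x ∈ ball (0 : Eu n) 2 → ‖v x‖ ≤ 1) →
      TS p s v ≤ ENNReal.ofReal τ → NC v ε c0 → ∀ δ r1 r2 : ℝ, 0 < δ → δ ≤ 1 → 0 < r2 →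
      r2 < r1 → r1 ≤ 1 →
      volume (LvS v (δ / 2) r2) ≤ ENNReal.ofReal (Cg * δ ^ σ * (1 / (r1 - r2)) ^ p)
        * volume (LvS v δ r1) := by
  obtain ⟨N, hN⟩ := exists_nat_ge p
  have hN1 : 1 ≤ N := by
    have : (1:ℝ) < N := lt_of_lt_of_le hp hN
    exact_mod_cast this.le
  have hN2 : p ≤ ((2 * N : ℕ) : ℝ) := by
    push_cast
    have : (0:ℝ) ≤ N := by positivity
    linarith
  obtain ⟨C, σ, hC, hσ, hb⟩ := bound2 (F := Eu m) hp N hN1 hN2
  set κ := kap n p s with hκ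
  have hκ0 : 0 < κ := kap_pos hp hs
  have hp0 : 0 < p := by linarith
  set cK := (CK n p s).toReal with hcK
  have hCK : CK n p s = ENNReal.ofReal cK := by
    rw [hcK, ENNReal.ofReal_toReal (CK_lt_top hp hs hs1).ne]
  have hcK0 : 0 ≤ cK := ENNReal.toReal_nonneg
  refine ⟨σ, hσ, ?_⟩
  intro ε c0 hε hc0
  set a : ℝ := (1/4) * ε ^ p * 2 ^ (-κ) * c0 with ha
  have ha0 : 0 < a := by positivity
  refine ⟨8 * C * (cK + 1) / a, a / (4 * 4 ^ κ), by positivity, by positivity, ?_⟩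
  intro v hv hv1 hTS hNC δ r1 r2 hδ hδ1 hr2 hr hr1
  have hζ := radCut_cut (n := n) (a := r2) (b := r1) hr (by linarith)
  set ζ := radCut (n := n) r2 r1 with hζdef
  have hL1 : 1 ≤ 2 * N := by omega
  set Λ := 1 / (r1 - r2) with hΛ
  set I : ℝ≥0∞ := ∫⁻ x, ENNReal.ofReal (gg ζ (2 * N) δ v x) with hI
  have hIfin : I < ∞ := by
    calc I ≤ ∫⁻ x in ball (0 : Eu n) 1, 1 := by
          rw [← lintegral_indicator measurableSet_ball]
          apply lintegral_mono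
          intro x
          by_cases hx : x ∈ ball (0 : Eu n) 1
          · rw [indicator_of_mem hx]
            simp only
            rw [← ENNReal.ofReal_one]
            exact ENNReal.ofReal_le_ofReal (gg_le_one hζ _ _ _ _)
          · rw [indicator_of_notMem hx]
            simp only
            have : gg ζ (2 * N) δ v x = 0 := by
              unfold gg
              rw [hζ.supp x (fun h => hx (ball_subset_ball hr1 h)), zero_pow (by omega), zero_mul]
            rw [this]; simp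
      _ < ∞ := by
          rw [setLIntegral_const, one_mul]; exact measure_ball_lt_top
  have h1 := gain_lower hp hs hv.meas hv1 hε hc0 hNC (δ := δ) hr1 hζ hL1
  have h2 := gain_int hp hs hs1 hN1 hC hb hv hv1 hδ hδ1 hr1 hζ
  have hA := measurableSet_LvS hv.meas δ r1
  have hCδ : 0 ≤ C * δ ^ σ := by positivity
  have h3 := lint_Q1g (s := s) hp hCδ hζ hA
  have h4 := lint_Q2g (p := p) (s := s) hv.meas hζ (2 * N) δ
  have hQ20 : ∀ z, 0 ≤ Q2g p s ζ (2 * N) δ v z := by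
    intro z
    unfold Q2g
    have h1 := gg_nonneg hζ (2 * N) δ v z.1
    have h2 := td_nonneg p s v z.2
    positivity
  have hmQ2 : Measurable (Q2g p s ζ (2 * N) δ v) := by
    unfold Q2g
    exact measurable_const.mul (((measurable_gg hζ.measurable _ _ hv.meas).comp measurable_fst).mul
      ((measurable_td p s hv.meas).comp measurable_snd))
  have hmQ1 := measurable_Q1g (p := p) (s := s) (C := C * δ ^ σ) hζ.measurable hA
  set V1 := volume (LvS v δ r1) with hV1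
  have h5 : ∫⁻ z, ENNReal.ofReal (Q2g p s ζ (2 * N) δ v z) ≤ ENNReal.ofReal (a / 4) * I := by
    rw [h4]
    calc ENNReal.ofReal (4 ^ κ) * (I * TS p s v)
        ≤ ENNReal.ofReal (4 ^ κ) * (I * ENNReal.ofReal (a / (4 * 4 ^ κ))) := by gcongr
      _ = (ENNReal.ofReal (4 ^ κ) * ENNReal.ofReal (a / (4 * 4 ^ κ))) * I := by ring
      _ = _ := by
          rw [← ENNReal.ofReal_mul (by positivity)]
          congr 2
          field_simp
  have h6 : ENNReal.ofReal a * I ≤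
      ENNReal.ofReal (2 * (C * δ ^ σ)) * (ENNReal.ofReal (Λ ^ p) * CK n p s) * V1
        + ENNReal.ofReal (a / 2) * I := by
    refine h1.trans (h2.trans ?_)
    have e0 : ∀ z, ENNReal.ofReal (Q1g p s (C * δ ^ σ) ζ (LvS v δ r1) z
        + (Q2g p s ζ (2 * N) δ v z + Q2g p s ζ (2 * N) δ v z.swap))
        = ENNReal.ofReal (Q1g p s (C * δ ^ σ) ζ (LvS v δ r1) z)
        + (ENNReal.ofReal (Q2g p s ζ (2 * N) δ v z)
          + ENNReal.ofReal (Q2g p s ζ (2 * N) δ v z.swap)) := by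
      intro z
      rw [ENNReal.ofReal_add (Q1g_nonneg hCδ _ _ _) (add_nonneg (hQ20 _) (hQ20 _)),
        ENNReal.ofReal_add (hQ20 _) (hQ20 _)]
    simp_rw [e0]
    rw [lintegral_add_left hmQ1.ennreal_ofReal, lintegral_add_left hmQ2.ennreal_ofReal,
      lintegral_swap' hmQ2.ennreal_ofReal]
    calc _ ≤ ENNReal.ofReal (2 * (C * δ ^ σ)) * (ENNReal.ofReal (Λ ^ p) * CK n p s) * V1
          + (ENNReal.ofReal (a / 4) * I + ENNReal.ofReal (a / 4) * I) := by
          gcongr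
      _ = _ := by
          congr 1
          rw [← add_mul, ← ENNReal.ofReal_add (by positivity) (by positivity)]
          congr 2
          ring
  have h7 : ENNReal.ofReal (a / 2) * I ≤
      ENNReal.ofReal (2 * (C * δ ^ σ)) * (ENNReal.ofReal (Λ ^ p) * CK n p s) * V1 := by
    have e1 : ENNReal.ofReal a * I = ENNReal.ofReal (a / 2) * I + ENNReal.ofReal (a / 2) * I := by
      rw [← add_mul, ← ENNReal.ofReal_add (by positivity) (by positivity)]
      congr 2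
      ring
    rw [e1] at h6
    have hfin : ENNReal.ofReal (a / 2) * I ≠ ∞ := (ENNReal.mul_lt_top ENNReal.ofReal_lt_top hIfin).ne
    exact (ENNReal.add_le_add_iff_right hfin).1 h6
  have h8 : ENNReal.ofReal (1/2) * volume (LvS v (δ / 2) r2) ≤ I := by
    rw [← setLIntegral_const]
    calc ∫⁻ x in LvS v (δ / 2) r2, ENNReal.ofReal (1/2)
        ≤ ∫⁻ x in LvS v (δ / 2) r2, ENNReal.ofReal (gg ζ (2 * N) δ v x) := by
          apply setLIntegral_mono' (measurableSet_LvS hv.meas _ _)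
          rintro x ⟨hx, hxq⟩
          have hx' : ‖x‖ < r2 := by simpa using hx
          have hxq' : 1 - δ / 2 < ‖v x‖ ^ 2 := hxq
          apply ENNReal.ofReal_le_ofReal
          unfold gg
          rw [hζdef, radCut_eq_one hr hx'.le, one_pow, one_mul]
          calc (1/2 : ℝ) = clampG (1 - δ) δ (1 - δ / 2) := by
                rw [clampG_eq hδ (by linarith) (by linarith)]
                field_simp
                ring
            _ ≤ _ := clampG_mono hδ hxq'.le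
      _ ≤ I := setLIntegral_le_lintegral _ _
  have h9 : ENNReal.ofReal (a / 4) * volume (LvS v (δ / 2) r2) ≤
      ENNReal.ofReal (2 * (C * δ ^ σ) * (Λ ^ p * cK)) * V1 := by
    calc ENNReal.ofReal (a / 4) * volume (LvS v (δ / 2) r2)
        = ENNReal.ofReal (a / 2) * (ENNReal.ofReal (1/2) * volume (LvS v (δ / 2) r2)) := by
          rw [← mul_assoc, ← ENNReal.ofReal_mul (by positivity)]
          congr 2
          ring
      _ ≤ ENNReal.ofReal (a / 2) * I := by gcongr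
      _ ≤ _ := h7
      _ = _ := by
          rw [hCK, ← ENNReal.ofReal_mul (by positivity), ← ENNReal.ofReal_mul (by positivity)]
  refine (le_of_ofReal_mul_le (by positivity) h9).trans ?_
  gcongr
  have : (2 * (C * δ ^ σ) * (Λ ^ p * cK)) / (a / 4)
      = 8 * C * cK / a * δ ^ σ * Λ ^ p := by field_simp; ring
  rw [this]
  gcongr
  linarith

theorem gain_iter [NeZero n] {p s : ℝ} (hp : 1 < p) (hs : 0 < s) (hs1 : s < 1) :
    ∃ σ : ℝ, 0 < σ ∧ ∀ ε c0 : ℝ, 0 < ε → 0 < c0 → ∃ τ : ℝ, 0 < τ ∧ ∀ N : ℕ, ∃ CN : ℝ, 0 < CN ∧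
      ∀ v : Eu n → Eu m, Sol p s v → (∀ᵐ x, x ∈ ball (0 : Eu n) 2 → ‖v x‖ ≤ 1) →
      TS p s v ≤ ENNReal.ofReal τ → NC v ε c0 → ∀ δ : ℝ, 0 < δ → δ ≤ 1 →
      volume (LvS v (δ / 2 ^ N) (1/2 + (1/2) ^ (N + 1))) ≤ ENNReal.ofReal (CN * δ ^ (σ * N)) := by
  obtain ⟨σ, hσ, hstep⟩ := gain_step (n := n) (m := m) hp hs hs1
  refine ⟨σ, hσ, ?_⟩
  intro ε c0 hε hc0
  obtain ⟨Cg, τ, hCg, hτ, hst⟩ := hstep ε c0 hε hc0
  refine ⟨τ, hτ, ?_⟩
  intro N
  induction N with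
  | zero =>
    set ω := (volume (ball (0 : Eu n) 1)).toReal with hω
    have hωfin : volume (ball (0 : Eu n) 1) ≠ ∞ := measure_ball_lt_top.ne
    have hω0 : 0 < ω := ENNReal.toReal_pos (measure_ball_pos _ _ zero_lt_one).ne' hωfin
    refine ⟨ω, hω0, ?_⟩
    intro v hv hv1 hTS hNC δ hδ hδ1
    have : ENNReal.ofReal (ω * δ ^ (σ * ((0:ℕ):ℝ))) = volume (ball (0 : Eu n) 1) := by
      rw [Nat.cast_zero, mul_zero, Real.rpow_zero, mul_one, hω, ENNReal.ofReal_toReal hωfin]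
    rw [this]
    apply measure_mono
    rintro x ⟨hx, _⟩
    exact ball_subset_ball (by norm_num) hx
  | succ N ih =>
    obtain ⟨CN, hCN, hN⟩ := ih
    refine ⟨Cg * (2 ^ (N + 2)) ^ p * CN, by positivity, ?_⟩
    intro v hv hv1 hTS hNC δ hδ hδ1
    have h1 := hN v hv hv1 hTS hNC δ hδ hδ1
    set r1 : ℝ := 1/2 + (1/2) ^ (N + 1) with hr1
    set r2 : ℝ := 1/2 + (1/2) ^ (N + 1 + 1) with hr2
    have hdiff : r1 - r2 = 1 / 2 ^ (N + 2) := by
      rw [hr1, hr2, pow_succ _ (N + 1), one_div_pow, one_div]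
      rw [show N + 2 = (N + 1) + 1 by ring, pow_succ]
      field_simp
      ring
    have hpos : (0:ℝ) < 1 / 2 ^ (N + 2) := by positivity
    have h2N : (1:ℝ) ≤ 2 ^ N := one_le_pow₀ (by norm_num)
    have hδN : 0 < δ / 2 ^ N := by positivity
    have hδN1 : δ / 2 ^ N ≤ δ := div_le_self hδ.le h2N
    have h2 := hst v hv hv1 hTS hNC (δ / 2 ^ N) r1 r2 hδN (hδN1.trans hδ1) (by positivity)
      (by linarith) (by
        rw [hr1]
        have : ((1:ℝ)/2) ^ (N + 1) ≤ 1/2 := by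
          calc ((1:ℝ)/2) ^ (N + 1) ≤ (1/2) ^ 1 :=
                pow_le_pow_of_le_one (by norm_num) (by norm_num) (by omega)
            _ = 1/2 := by norm_num
        linarith)
    have e1 : δ / 2 ^ N / 2 = δ / 2 ^ (N + 1) := by rw [pow_succ]; field_simp
    rw [e1] at h2
    have e2 : 1 / (r1 - r2) = 2 ^ (N + 2) := by rw [hdiff, one_div_one_div]
    rw [e2] at h2
    calc volume (LvS v (δ / 2 ^ (N + 1)) r2) ≤ _ := h2
      _ ≤ ENNReal.ofReal (Cg * (δ / 2 ^ N) ^ σ * (2 ^ (N + 2)) ^ p)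
          * ENNReal.ofReal (CN * δ ^ (σ * N)) := by gcongr
      _ = ENNReal.ofReal ((Cg * (δ / 2 ^ N) ^ σ * (2 ^ (N + 2)) ^ p) * (CN * δ ^ (σ * N))) := by
          rw [← ENNReal.ofReal_mul (by positivity)]
      _ ≤ ENNReal.ofReal (Cg * (2 ^ (N + 2)) ^ p * CN * δ ^ (σ * ((N + 1 : ℕ) : ℝ))) := by
          apply ENNReal.ofReal_le_ofReal
          have e3 : (δ / 2 ^ N) ^ σ ≤ δ ^ σ := Real.rpow_le_rpow hδN.le hδN1 hσ.le
          have e4 : δ ^ (σ * ((N + 1 : ℕ) : ℝ)) = δ ^ σ * δ ^ (σ * N) := by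
            rw [← Real.rpow_add hδ]
            congr 1
            push_cast
            ring
          rw [e4]
          calc (Cg * (δ / 2 ^ N) ^ σ * (2 ^ (N + 2)) ^ p) * (CN * δ ^ (σ * N))
              ≤ (Cg * δ ^ σ * (2 ^ (N + 2)) ^ p) * (CN * δ ^ (σ * N)) := by gcongr
            _ = _ := by ring

end Pool.Agent.helper32.Frac
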