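import Mathlib

/-! Kernel integrals. -/

namespace Pool.Agent.helper32.Frac

open Real MeasureTheory Set Metric
open scoped ENNReal

/-- Euclidean space. -/
abbrev Eu (n : ℕ) := EuclideanSpace ℝ (Fin n)

variable {n : ℕ}

theorem rpow_natpow_smul_integrable {q : ℝ} {k : ℕ} (hq : -1 < (k:ℝ) + q) :
    IntegrableOn (fun y : ℝ => y ^ k * y ^ q) (Ioc 0 1) := by
  have h1 : IntegrableOn (fun y : ℝ => y ^ ((k:ℝ) + q)) (Ioc 0 1) := by
    have := intervalIntegral.intervalIntegrable_rpow' (a := 0) (b := 1) hq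
    rwa [intervalIntegrable_iff_integrableOn_Ioc_of_le zero_le_one] at this
  refine h1.congr_fun ?_ measurableSet_Ioc
  intro y hy
  simp only
  rw [Real.rpow_add hy.1, Real.rpow_natCast]

theorem rpow_natpow_smul_integrable' {q : ℝ} {k : ℕ} (hq : (k:ℝ) + q < -1) :
    IntegrableOn (fun y : ℝ => y ^ k * y ^ q) (Ioi 1) := by
  have h1 : IntegrableOn (fun y : ℝ => y ^ ((k:ℝ) + q)) (Ioi 1) :=
    integrableOn_Ioi_rpow_of_lt hq zero_lt_one
  refine h1.congr_fun ?_ measurableSet_Ioi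
  intro y hy
  have : 0 < y := lt_trans zero_lt_one hy
  simp only
  rw [Real.rpow_add this, Real.rpow_natCast]

/-- The basic kernel integral. -/
theorem integrable_kernel [NeZero n] {p s : ℝ} (hp : 1 < p) (hs : 0 < s) (hs1 : s < 1) :
    Integrable (fun h : Eu n => (min 1 ‖h‖) ^ p * ‖h‖ ^ (-((n:ℝ) + s * p))) := by
  have : Nontrivial (Eu n) := by
    have : 0 < n := Nat.pos_of_ne_zero (NeZero.ne n)
    have h : Module.finrank ℝ (Eu n) = n := by simp
    exact Module.nontrivial_of_finrank_pos (R := ℝ) (by rw [h]; exact this)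
  have h := integrable_fun_norm_addHaar (E := Eu n) (F := ℝ) (volume : Measure (Eu n))
    (f := fun y : ℝ => (min 1 y) ^ p * y ^ (-((n:ℝ) + s * p)))
  rw [h]
  have hfin : Module.finrank ℝ (Eu n) = n := by simp
  rw [hfin]
  have hn : 1 ≤ n := Nat.pos_of_ne_zero (NeZero.ne n)
  have hcast : ((n - 1 : ℕ) : ℝ) = (n:ℝ) - 1 := by rw [Nat.cast_sub hn]; simp
  rw [← Ioc_union_Ioi_eq_Ioi (zero_le_one (α := ℝ)), integrableOn_union]
  constructor
  · have h1 := rpow_natpow_smul_integrable (q := p - ((n:ℝ) + s * p)) (k := n - 1)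
      (by rw [hcast]; nlinarith)
    refine h1.congr_fun ?_ measurableSet_Ioc
    intro y hy
    simp only [smul_eq_mul]
    rw [min_eq_right hy.2, ← Real.rpow_add hy.1]
    rfl
  · have h1 := rpow_natpow_smul_integrable' (q := -((n:ℝ) + s * p)) (k := n - 1)
      (by rw [hcast]; nlinarith)
    refine h1.congr_fun ?_ measurableSet_Ioi
    intro y hy
    simp only [smul_eq_mul]
    rw [min_eq_left (le_of_lt hy), Real.one_rpow, one_mul]

/-- The exponent `n + s p`. -/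
noncomputable def kap (n : ℕ) (p s : ℝ) : ℝ := (n:ℝ) + s * p

theorem kap_pos [NeZero n] {p s : ℝ} (hp : 1 < p) (hs : 0 < s) : 0 < kap n p s := by
  have : 0 < (n:ℝ) := by exact_mod_cast Nat.pos_of_ne_zero (NeZero.ne n)
  unfold kap
  positivity

/-- The kernel. -/
noncomputable def Kr (κ : ℝ) (x y : Eu n) : ℝ := ‖x - y‖ ^ (-κ)

theorem Kr_nonneg (κ : ℝ) (x y : Eu n) : 0 ≤ Kr κ x y := Real.rpow_nonneg (norm_nonneg _) _

theorem Kr_symm (κ : ℝ) (x y : Eu n) : Kr κ x y = Kr κ y x := by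
  unfold Kr; rw [norm_sub_rev]

theorem measurable_Kr (κ : ℝ) : Measurable (fun z : Eu n × Eu n => Kr κ z.1 z.2) := by
  unfold Kr; fun_prop

/-- The kernel constant. -/
noncomputable def CK (n : ℕ) (p s : ℝ) : ℝ≥0∞ :=
  ∫⁻ h : Eu n, ENNReal.ofReal ((min 1 ‖h‖) ^ p * ‖h‖ ^ (-(kap n p s)))

theorem CK_lt_top [NeZero n] {p s : ℝ} (hp : 1 < p) (hs : 0 < s) (hs1 : s < 1) :
    CK n p s < ∞ := by
  have h := (integrable_kernel (n := n) hp hs hs1).lintegral_lt_top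
  exact h

theorem lintegral_cutoff_le {p s : ℝ} (hp : 1 < p) (ζ : Eu n → ℝ) {Λ : ℝ} (hΛ : 1 ≤ Λ)
    (hζ : ∀ x y, |ζ x - ζ y| ≤ Λ * ‖x - y‖) (hζ1 : ∀ x y, |ζ x - ζ y| ≤ 1) (x : Eu n) :
    ∫⁻ y, ENNReal.ofReal (|ζ x - ζ y| ^ p * Kr (kap n p s) x y)
      ≤ ENNReal.ofReal (Λ ^ p) * CK n p s := by
  have hpt : ∀ y, ENNReal.ofReal (|ζ x - ζ y| ^ p * Kr (kap n p s) x y)
      ≤ ENNReal.ofReal (Λ ^ p) *
        ENNReal.ofReal ((min 1 ‖x - y‖) ^ p * ‖x - y‖ ^ (-(kap n p s))) := by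
    intro y
    rw [← ENNReal.ofReal_mul (by positivity)]
    apply ENNReal.ofReal_le_ofReal
    rw [← mul_assoc]
    unfold Kr
    apply mul_le_mul_of_nonneg_right _ (Real.rpow_nonneg (norm_nonneg _) _)
    rw [← Real.mul_rpow (by positivity) (by positivity)]
    apply Real.rpow_le_rpow (abs_nonneg _) _ (by linarith)
    rcases le_total 1 ‖x - y‖ with h | h
    · rw [min_eq_left h]; linarith [hζ1 x y]
    · rw [min_eq_right h]; exact hζ x y
  calc ∫⁻ y, ENNReal.ofReal (|ζ x - ζ y| ^ p * Kr (kap n p s) x y)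
      ≤ ∫⁻ y, ENNReal.ofReal (Λ ^ p) *
        ENNReal.ofReal ((min 1 ‖x - y‖) ^ p * ‖x - y‖ ^ (-(kap n p s))) := lintegral_mono hpt
    _ = ENNReal.ofReal (Λ ^ p) *
        ∫⁻ y, ENNReal.ofReal ((min 1 ‖x - y‖) ^ p * ‖x - y‖ ^ (-(kap n p s))) := by
        rw [lintegral_const_mul' _ _ ENNReal.ofReal_ne_top]
    _ = _ := by
        congr 1
        exact lintegral_sub_left_eq_self
          (fun h : Eu n => ENNReal.ofReal ((min 1 ‖h‖) ^ p * ‖h‖ ^ (-(kap n p s)))) x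

/-- The weight at infinity. -/
noncomputable def wt (κ : ℝ) (y : Eu n) : ℝ := (1 + ‖y‖) ^ (-κ)

theorem wt_pos (κ : ℝ) (y : Eu n) : 0 < wt κ y := by
  unfold wt; positivity

theorem measurable_wt (κ : ℝ) : Measurable (fun y : Eu n => wt κ y) := by
  unfold wt; fun_prop

theorem integrable_wt {p s : ℝ} (hp : 1 < p) (hs : 0 < s) :
    Integrable (fun y : Eu n => wt (kap n p s) y) := by
  have : (Module.finrank ℝ (Eu n) : ℝ) < kap n p s := by
    unfold kap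
    rw [finrank_euclideanSpace_fin]
    nlinarith
  exact integrable_one_add_norm this

theorem Kr_le_wt {κ : ℝ} (hκ : 0 < κ) {x y : Eu n} {ρ : ℝ} (hρ : 0 < ρ) (hρ1 : ρ ≤ 1)
    (hx : ‖x‖ ≤ 2) (hxy : ρ ≤ ‖x - y‖) : Kr κ x y ≤ (4 / ρ) ^ κ * wt κ y := by
  unfold Kr wt
  have h0 : 0 < ‖x - y‖ := lt_of_lt_of_le hρ hxy
  have h1 : ‖y‖ ≤ ‖x‖ + ‖x - y‖ := by
    have := norm_sub_le x (x - y)
    simpa using this
  have h2 : 1 + ‖y‖ ≤ (4 / ρ) * ‖x - y‖ := by
    have h3 : 1 + ‖y‖ ≤ 3 + ‖x - y‖ := by linarith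
    have h4 : 3 + ‖x - y‖ ≤ (4 / ρ) * ‖x - y‖ := by
      rw [div_mul_eq_mul_div, le_div_iff₀ hρ]
      nlinarith
    linarith
  have h5 : ((4 / ρ) * ‖x - y‖) ^ (-κ) ≤ (1 + ‖y‖) ^ (-κ) :=
    Real.rpow_le_rpow_of_nonpos (by positivity) h2 (by linarith)
  rw [Real.mul_rpow (by positivity) (by positivity)] at h5
  calc ‖x - y‖ ^ (-κ) = (4 / ρ) ^ κ * ((4 / ρ) ^ (-κ) * ‖x - y‖ ^ (-κ)) := by
        rw [← mul_assoc, ← Real.rpow_add (by positivity)]
        simp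
    _ ≤ _ := by gcongr

/-- The exponent conversions. -/
theorem Kr_rpow_mul {κ p : ℝ} (hp : 1 < p) (x y : Eu n) :
    (Kr κ x y) ^ ((p - 1) / p) * (Kr κ x y) ^ (1 / p) = Kr κ x y := by
  rcases (Kr_nonneg κ x y).eq_or_lt with h | h
  · rw [← h, Real.zero_rpow (by positivity), zero_mul]
  · rw [← Real.rpow_add h]
    have : (p - 1) / p + 1 / p = 1 := by field_simp; ring
    rw [this, Real.rpow_one]

end Pool.Agent.helper32.Frac
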