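import Pool.Agent.helper32.Frac.Scale

/-! Continuity of weak solutions. -/

namespace Pool.Agent.helper32.Frac

open Real MeasureTheory Set Metric Filter Topology
open scoped ENNReal RealInnerProductSpace

variable {n m : ℕ}

/-- Vanishing of the tail above 1 under zooming. -/
theorem TS_small [NeZero n] {p s : ℝ} (hp : 1 < p) (hs : 0 < s) {u1 : Eu n → Eu m}
    (hu : Sol p s u1) (hu1 : ∀ᵐ x, x ∈ ball (0 : Eu n) 1 → ‖u1 x‖ ≤ 1) {τ : ℝ} (hτ : 0 < τ) :
    ∃ t0 : ℝ, 0 < t0 ∧ ∀ t : ℝ, 0 < t → t ≤ t0 →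
      TS p s (fun x => u1 (t • x)) ≤ ENNReal.ofReal τ := by
  set κ := kap n p s with hκ
  have hκ0 : 0 < κ := kap_pos hp hs
  have hp0 : 0 < p := by linarith
  have hp1 : 0 < p - 1 := by linarith
  have hsp : 0 < s * p := by positivity
  set D : Eu n → ℝ := fun z => {z : Eu n | 1 ≤ ‖z‖}.indicator
    (fun z => (1 + ‖u1 z‖) ^ (p - 1) * ‖z‖ ^ (-κ)) z with hD
  have hSm : MeasurableSet {z : Eu n | 1 ≤ ‖z‖} := measurableSet_le measurable_const measurable_norm
  have hDm : Measurable D :=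
    (((measurable_const.add hu.meas.norm).pow_const _).mul (measurable_norm.pow_const _)).indicator hSm
  have hD0 : ∀ z, 0 ≤ D z := fun z => indicator_nonneg (fun z _ => by positivity) _
  have hDint : Integrable D := by
    have h1 : Integrable (fun z : Eu n => (2 ^ (p - 1) * 2 ^ κ) * (wt κ z
        + ‖u1 z‖ ^ (p - 1) * wt κ z)) := ((integrable_wt hp hs).add hu.tail).const_mul _
    refine Integrable.mono' h1 hDm.aestronglyMeasurable ?_
    filter_upwards with z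
    rw [Real.norm_of_nonneg (hD0 z)]
    have hw := (wt_pos κ z).le
    by_cases hz : z ∈ {z : Eu n | 1 ≤ ‖z‖}
    · have hz1 : 1 ≤ ‖z‖ := hz
      simp only [hD]
      rw [indicator_of_mem hz]
      have e1 : (1 + ‖u1 z‖) ^ (p - 1) ≤ 2 ^ (p - 1) * (1 + ‖u1 z‖ ^ (p - 1)) := by
        have := add_rpow_le (a := 1) (b := ‖u1 z‖) (q := p - 1) zero_le_one (norm_nonneg _) hp1.le
        rwa [Real.one_rpow] at this
      have e2 : ‖z‖ ^ (-κ) ≤ 2 ^ κ * wt κ z := by
        unfold wt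
        have h3 : 1 + ‖z‖ ≤ 2 * ‖z‖ := by linarith
        have h4 : (2 * ‖z‖) ^ (-κ) ≤ (1 + ‖z‖) ^ (-κ) :=
          Real.rpow_le_rpow_of_nonpos (by positivity) h3 (by linarith)
        rw [Real.mul_rpow (by norm_num) (norm_nonneg _)] at h4
        calc ‖z‖ ^ (-κ) = 2 ^ κ * (2 ^ (-κ) * ‖z‖ ^ (-κ)) := by
              rw [← mul_assoc, ← Real.rpow_add (by norm_num)]; simp
          _ ≤ _ := by gcongr
      calc (1 + ‖u1 z‖) ^ (p - 1) * ‖z‖ ^ (-κ)
          ≤ (2 ^ (p - 1) * (1 + ‖u1 z‖ ^ (p - 1))) * (2 ^ κ * wt κ z) := by gcongr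
        _ = _ := by ring
    · simp only [hD]
      rw [indicator_of_notMem hz]
      positivity
  set A : ℝ≥0∞ := ∫⁻ z, ENNReal.ofReal (D z) with hA
  have hAfin : A < ∞ := hDint.lintegral_lt_top
  have hbound : ∀ t : ℝ, 0 < t → TS p s (fun x => u1 (t • x)) ≤ ENNReal.ofReal (t ^ (s * p)) * A := by
    intro t ht
    have h1 : ∀ᵐ y : Eu n, ((0 : Eu n) + t • y ∈ ball (0 : Eu n) 1 → ‖u1 (0 + t • y)‖ ≤ 1) :=
      ae_affine hu1 0 ht.ne'
    have h2 : TS p s (fun x => u1 (t • x)) ≤ ∫⁻ y : Eu n, ENNReal.ofReal (t ^ κ) *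
        ENNReal.ofReal (D (0 + t • y)) := by
      unfold TS
      apply lintegral_mono_ae
      filter_upwards [h1] with y hy
      rw [zero_add] at hy ⊢
      rw [← ENNReal.ofReal_mul (by positivity)]
      apply ENNReal.ofReal_le_ofReal
      by_cases hty : t • y ∈ ball (0 : Eu n) 1
      · have h3 := hy hty
        have : td p s (fun x => u1 (t • x)) y = 0 := by
          unfold td
          rw [indicator_of_notMem]
          simp only [Set.mem_ofPred_eq, not_lt]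
          exact h3
        rw [this]
        exact mul_nonneg (by positivity) (hD0 _)
      · have hty1 : 1 ≤ ‖t • y‖ := by simpa using hty
        have hDy : D (t • y) = (1 + ‖u1 (t • y)‖) ^ (p - 1) * ‖t • y‖ ^ (-κ) := by
          simp only [hD]
          rw [indicator_of_mem (show t • y ∈ {z : Eu n | 1 ≤ ‖z‖} from hty1)]
        have hy0 : 0 < ‖y‖ := by
          rw [norm_smul, Real.norm_of_nonneg ht.le] at hty1
          by_contra h
          push Not at h
          have : ‖y‖ = 0 := le_antisymm h (norm_nonneg _)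
          rw [this] at hty1
          linarith
        have e1 : wt κ y ≤ t ^ κ * ‖t • y‖ ^ (-κ) := by
          unfold wt
          rw [norm_smul, Real.norm_of_nonneg ht.le, Real.mul_rpow ht.le (norm_nonneg _), ← mul_assoc,
            ← Real.rpow_add ht]
          simp only [add_neg_cancel, Real.rpow_zero, one_mul]
          exact Real.rpow_le_rpow_of_nonpos hy0 (by linarith) (by linarith)
        have e2 : td p s (fun x => u1 (t • x)) y ≤ (1 + ‖u1 (t • y)‖) ^ (p - 1) * wt κ y := by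
          unfold td
          by_cases h : y ∈ {y | 1 < ‖(fun x => u1 (t • x)) y‖}
          · rw [indicator_of_mem h]
          · rw [indicator_of_notMem h]
            have := (wt_pos κ y).le
            positivity
        rw [hDy]
        calc _ ≤ (1 + ‖u1 (t • y)‖) ^ (p - 1) * wt κ y := e2
          _ ≤ (1 + ‖u1 (t • y)‖) ^ (p - 1) * (t ^ κ * ‖t • y‖ ^ (-κ)) := by gcongr
          _ = _ := by ring
    refine h2.trans ?_
    rw [lintegral_const_mul' _ _ ENNReal.ofReal_ne_top,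
      lintegral_affine (μ := (volume : Measure (Eu n))) hDm.ennreal_ofReal 0 ht.ne', ← mul_assoc,
      ← ENNReal.ofReal_mul (by positivity), finrank_euclideanSpace_fin]
    gcongr
    rw [abs_of_nonneg (by positivity), ← Real.rpow_natCast t n, ← Real.rpow_neg ht.le,
      ← Real.rpow_add ht]
    apply le_of_eq
    congr 1
    rw [hκ]; unfold kap; ring
  have hlim : Tendsto (fun t : ℝ => ENNReal.ofReal (t ^ (s * p)) * A) (𝓝[>] 0) (𝓝 0) := by
    have h1 : Tendsto (fun t : ℝ => t ^ (s * p)) (𝓝[>] 0) (𝓝 0) := by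
      have := (Real.continuousAt_rpow_const 0 (s * p) (Or.inr hsp.le)).tendsto
      rw [Real.zero_rpow hsp.ne'] at this
      exact this.mono_left nhdsWithin_le_nhds
    have h2 := ENNReal.tendsto_ofReal h1
    rw [ENNReal.ofReal_zero] at h2
    have h3 := ENNReal.Tendsto.mul_const (b := A) h2 (Or.inr hAfin.ne)
    simpa using h3
  have hev : ∀ᶠ t in 𝓝[>] (0:ℝ), ENNReal.ofReal (t ^ (s * p)) * A < ENNReal.ofReal τ :=
    hlim.eventually_lt_const (by simpa using hτ)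
  rw [eventually_nhdsWithin_iff, Metric.eventually_nhds_iff] at hev
  obtain ⟨ε, hε, hb⟩ := hev
  refine ⟨ε / 2, by positivity, ?_⟩
  intro t ht htε
  refine (hbound t ht).trans (hb (y := t) ?_ ht).le
  rw [Real.dist_eq, sub_zero, abs_of_pos ht]
  linarith

/-- Oscillation decay at a point. -/
theorem osc_small [NeZero n] {p s : ℝ} (hp : 1 < p) (hs : 0 < s) (hs1 : s < 1) {Ω : Set (Eu n)}
    (hΩ : IsOpen Ω) {u : Eu n → Eu m} (h : IsWeakSolution n m p s Ω u) (hm : Measurable u)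
    {x0 : Eu n} (hx0 : x0 ∈ Ω) {ε : ℝ} (hε : 0 < ε) :
    ∃ ρ : ℝ, 0 < ρ ∧ ∃ c : Eu m, ∀ᵐ z, z ∈ ball x0 ρ → ‖u z - c‖ ≤ ε := by
  obtain ⟨ρs, τ, hρs0, hρs1, hτ, hdecay⟩ := decay (n := n) (m := m) hp hs hs1
  obtain ⟨R', hR', hR'Ω⟩ := Metric.isOpen_iff.1 hΩ x0 hx0
  set R := R' / 3 with hR
  have hR0 : 0 < R := by positivity
  have hRΩ : ∀ ρ, ρ ≤ R → closedBall x0 (2 * ρ) ⊆ Ω := by
    intro ρ hρ
    refine (closedBall_subset_ball ?_).trans hR'Ω
    linarith
  -- scaled solutions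
  have hsol : ∀ ρ, 0 < ρ → ρ ≤ R → ∀ (M : ℝ) (c : Eu m), 0 < M →
      Sol p s (fun x => M⁻¹ • (u (x0 + ρ • x) - c)) := by
    intro ρ hρ hρR M c hM
    exact ((h.scale hp hs hm x0 hρ (hRΩ ρ hρR)).sub_const hp hs c).smul_const (by positivity)
  -- initial bound
  have hinit : ∃ M0 : ℝ, 0 < M0 ∧ ∃ ρ : ℝ, 0 < ρ ∧ ρ ≤ R ∧ ∃ c : Eu m,
      ∀ᵐ z, z ∈ ball x0 ρ → ‖u z - c‖ ≤ M0 := by
    have hv := h.scale hp hs hm x0 hR0 (hRΩ R le_rfl)
    obtain ⟨M, hM, hb⟩ := bounded hp hs hs1 hv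
    refine ⟨M, hM, R / 4, by positivity, by linarith, 0, ?_⟩
    rw [ae_restrict_iff' measurableSet_ball] at hb
    apply ae_affine' x0 hR0.ne'
    filter_upwards [hb] with x hx hxb
    rw [sub_zero]
    apply hx
    rw [mem_ball, dist_eq_norm, add_sub_cancel_left, norm_smul, Real.norm_of_nonneg hR0.le] at hxb
    rw [mem_ball_zero_iff]
    have : R * ‖x‖ < R * (1/4) := by linarith
    exact lt_of_mul_lt_mul_left this hR0.le
  -- one step
  have hstep : ∀ M : ℝ, 0 < M → (∃ ρ : ℝ, 0 < ρ ∧ ρ ≤ R ∧ ∃ c : Eu m,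
      ∀ᵐ z, z ∈ ball x0 ρ → ‖u z - c‖ ≤ M) → (∃ ρ : ℝ, 0 < ρ ∧ ρ ≤ R ∧ ∃ c : Eu m,
      ∀ᵐ z, z ∈ ball x0 ρ → ‖u z - c‖ ≤ ρs * M) := by
    rintro M hM ⟨ρ, hρ, hρR, c, hb⟩
    have hu1 := hsol ρ hρ hρR M c hM
    have hscale : ∀ t : ℝ, 0 < t → ∀ a : ℝ, a * t ≤ 1 → ∀ᵐ x : Eu n, x ∈ ball (0 : Eu n) a →
        ‖M⁻¹ • (u (x0 + (ρ * t) • x) - c)‖ ≤ 1 := by
      intro t ht a hat
      have h1 := ae_affine hb x0 (r := ρ * t) (by positivity)
      filter_upwards [h1] with x hx hxb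
      rw [norm_smul, norm_inv, Real.norm_of_nonneg hM.le, inv_mul_le_iff₀ hM, mul_one]
      apply hx
      rw [mem_ball, dist_eq_norm, add_sub_cancel_left, norm_smul,
        Real.norm_of_nonneg (by positivity)]
      have hx1 : ‖x‖ < a := by simpa using hxb
      have : t * ‖x‖ < 1 := by nlinarith
      calc ρ * t * ‖x‖ = ρ * (t * ‖x‖) := by ring
        _ < ρ * 1 := by gcongr
        _ = ρ := mul_one _
    have hb1 : ∀ᵐ x : Eu n, x ∈ ball (0 : Eu n) 1 → ‖M⁻¹ • (u (x0 + ρ • x) - c)‖ ≤ 1 := by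
      have := hscale 1 one_pos 1 (by norm_num)
      simpa using this
    obtain ⟨t0, ht0, hTS⟩ := TS_small hp hs hu1 hb1 hτ
    set t := min t0 (1/2) with ht
    have ht00 : 0 < t := by positivity
    have ht12 : t ≤ 1/2 := min_le_right _ _
    have hTSt := hTS t ht00 (min_le_left _ _)
    have hρt : ρ * t ≤ R := by nlinarith
    have hv := hsol (ρ * t) (by positivity) hρt M c hM
    have hfun : (fun x => M⁻¹ • (u (x0 + ρ • (t • x)) - c))
        = fun x => M⁻¹ • (u (x0 + (ρ * t) • x) - c) := by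
      ext1 x; rw [smul_smul]
    rw [hfun] at hTSt
    have hv1 := hscale t ht00 2 (by linarith)
    obtain ⟨c', hc'⟩ := hdecay _ hv hv1 hTSt
    refine ⟨ρ * t / 4, by positivity, by linarith, c + M • c', ?_⟩
    rw [ae_restrict_iff' measurableSet_ball] at hc'
    apply ae_affine' x0 (r := ρ * t) (by positivity)
    filter_upwards [hc'] with x hx hxb
    have hρt0 : 0 < ρ * t := by positivity
    have hxb' : x ∈ ball (0 : Eu n) (1/4) := by
      rw [mem_ball, dist_eq_norm, add_sub_cancel_left, norm_smul,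
        Real.norm_of_nonneg hρt0.le] at hxb
      rw [mem_ball_zero_iff]
      have : ρ * t * ‖x‖ < ρ * t * (1/4) := by linarith
      exact lt_of_mul_lt_mul_left this hρt0.le
    have h1 := hx hxb'
    have h2 : u (x0 + (ρ * t) • x) - (c + M • c')
        = M • (M⁻¹ • (u (x0 + (ρ * t) • x) - c) - c') := by
      rw [smul_sub, smul_smul, mul_inv_cancel₀ hM.ne', one_smul]; abel
    rw [h2, norm_smul, Real.norm_of_nonneg hM.le, mul_comm]
    gcongr
  obtain ⟨M0, hM0, hP0⟩ := hinit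
  have hall : ∀ k : ℕ, ∃ ρ : ℝ, 0 < ρ ∧ ρ ≤ R ∧ ∃ c : Eu m,
      ∀ᵐ z, z ∈ ball x0 ρ → ‖u z - c‖ ≤ ρs ^ k * M0 := by
    intro k
    induction k with
    | zero => simpa using hP0
    | succ k ih =>
      have := hstep (ρs ^ k * M0) (by positivity) ih
      rw [pow_succ']
      simpa [mul_assoc] using this
  have hlim : Tendsto (fun k : ℕ => ρs ^ k * M0) atTop (𝓝 0) := by
    have := (tendsto_pow_atTop_nhds_zero_of_lt_one hρs0.le hρs1).mul_const M0
    simpa using this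
  obtain ⟨k, hk⟩ := (hlim.eventually_lt_const hε).exists
  obtain ⟨ρ, hρ, _, c, hc⟩ := hall k
  refine ⟨ρ, hρ, c, ?_⟩
  filter_upwards [hc] with z hz hzb
  exact (hz hzb).trans hk.le

/-- A function whose essential oscillation vanishes at every point has a continuous
representative. -/
theorem continuous_rep {Ω : Set (Eu n)} {u : Eu n → Eu m}
    (h : ∀ x ∈ Ω, ∀ ε : ℝ, 0 < ε → ∃ ρ : ℝ, 0 < ρ ∧ ∃ c : Eu m,
      ∀ᵐ z, z ∈ ball x ρ → ‖u z - c‖ ≤ ε) :
    ∃ w : Eu n → Eu m, ContinuousOn w Ω ∧ ∀ᵐ x, x ∈ Ω → u x = w x := by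
  classical
  -- comparison of centers
  have hK : ∀ (x y : Eu n) (ρ ρ' ε ε' : ℝ) (c c' : Eu m),
      (∀ᵐ z, z ∈ ball x ρ → ‖u z - c‖ ≤ ε) → (∀ᵐ z, z ∈ ball y ρ' → ‖u z - c'‖ ≤ ε') →
      (ball x ρ ∩ ball y ρ').Nonempty → ‖c - c'‖ ≤ ε + ε' := by
    intro x y ρ ρ' ε ε' c c' h1 h2 hne
    have hopen : IsOpen (ball x ρ ∩ ball y ρ') := isOpen_ball.inter isOpen_ball
    have hpos : 0 < volume (ball x ρ ∩ ball y ρ') := hopen.measure_pos _ hne
    by_contra hcon
    push Not at hcon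
    have h3 : ∀ᵐ z, z ∉ ball x ρ ∩ ball y ρ' := by
      filter_upwards [h1, h2] with z hz1 hz2 hz
      have a1 := hz1 hz.1
      have a2 := hz2 hz.2
      have : ‖c - c'‖ ≤ ‖u z - c‖ + ‖u z - c'‖ := by
        have e : c - c' = (u z - c') - (u z - c) := by abel
        rw [e]
        refine (norm_sub_le _ _).trans (by linarith)
      linarith
    have h4 : volume (ball x ρ ∩ ball y ρ') = 0 := measure_eq_zero_iff_ae_notMem.2 h3
    exact hpos.ne' h4
  choose! ρ hρ c hc using h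
  have hε : ∀ k : ℕ, (0:ℝ) < 1 / (k + 1) := fun k => by positivity
  set cs : Eu n → ℕ → Eu m := fun x k => c x (1 / (k + 1)) with hcs
  have hcauchy : ∀ x ∈ Ω, CauchySeq (cs x) := by
    intro x hx
    rw [Metric.cauchySeq_iff']
    intro ε hε0
    obtain ⟨N, hN⟩ := exists_nat_one_div_lt (half_pos hε0)
    refine ⟨N, ?_⟩
    intro k hk
    have h1 := hK x x _ _ _ _ _ _ (hc x hx _ (hε k)) (hc x hx _ (hε N))
      ⟨x, mem_ball_self (hρ x hx _ (hε k)), mem_ball_self (hρ x hx _ (hε N))⟩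
    rw [dist_eq_norm]
    refine lt_of_le_of_lt h1 ?_
    have : (1:ℝ) / (k + 1) ≤ 1 / (N + 1) := by
      apply one_div_le_one_div_of_le (by positivity)
      have : (N:ℝ) ≤ k := by exact_mod_cast hk
      linarith
    linarith
  set w : Eu n → Eu m := fun x => if hx : x ∈ Ω then
    (cauchySeq_tendsto_of_complete (hcauchy x hx)).choose else 0 with hw
  have hwlim : ∀ x ∈ Ω, Tendsto (cs x) atTop (𝓝 (w x)) := by
    intro x hx
    simp only [hw]
    rw [dif_pos hx]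
    exact (cauchySeq_tendsto_of_complete (hcauchy x hx)).choose_spec
  have hG : ∀ (x : Eu n) (ρ' ε' : ℝ) (c' : Eu m), (∀ᵐ z, z ∈ ball x ρ' → ‖u z - c'‖ ≤ ε') →
      ∀ y ∈ Ω, y ∈ ball x ρ' → ‖w y - c'‖ ≤ ε' := by
    intro x ρ' ε' c' h1 y hy hyb
    have h2 : ∀ k : ℕ, ‖cs y k - c'‖ ≤ 1 / (k + 1) + ε' := by
      intro k
      exact hK y x _ _ _ _ _ _ (hc y hy _ (hε k)) h1 ⟨y, mem_ball_self (hρ y hy _ (hε k)), hyb⟩
    have h3 : Tendsto (fun k : ℕ => ‖cs y k - c'‖) atTop (𝓝 ‖w y - c'‖) :=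
      ((hwlim y hy).sub_const c').norm
    have h4 : Tendsto (fun k : ℕ => (1:ℝ) / (k + 1) + ε') atTop (𝓝 (0 + ε')) :=
      tendsto_one_div_add_atTop_nhds_zero_nat.add_const ε'
    rw [zero_add] at h4
    exact le_of_tendsto_of_tendsto' h3 h4 h2
  refine ⟨w, ?_, ?_⟩
  · intro x hx
    rw [ContinuousWithinAt, Metric.tendsto_nhdsWithin_nhds]
    intro ε hε0
    obtain ⟨N, hN⟩ := exists_nat_one_div_lt (half_pos hε0)
    refine ⟨ρ x (1 / (N + 1)), hρ x hx _ (hε N), ?_⟩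
    intro y hy hyd
    have h1 := hG x _ _ _ (hc x hx _ (hε N)) y hy (by rw [mem_ball]; exact hyd)
    have h2 := hG x _ _ _ (hc x hx _ (hε N)) x hx (mem_ball_self (hρ x hx _ (hε N)))
    rw [dist_eq_norm]
    have : ‖w y - w x‖ ≤ ‖w y - c x (1 / (N + 1))‖ + ‖w x - c x (1 / (N + 1))‖ := by
      have e : w y - w x = (w y - c x (1 / (N + 1))) - (w x - c x (1 / (N + 1))) := by abel
      rw [e]
      exact norm_sub_le _ _
    linarith
  · have hae : ∀ k : ℕ, ∀ᵐ x, x ∈ Ω → ‖u x - w x‖ ≤ 2 * (1 / (k + 1)) := by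
      intro k
      rw [ae_iff]
      apply measure_null_of_locally_null
      rintro x hx
      simp only [Set.mem_ofPred_eq, Classical.not_imp] at hx
      have hxΩ := hx.1
      refine ⟨{a | ¬(a ∈ Ω → ‖u a - w a‖ ≤ 2 * (1 / (k + 1)))} ∩ ball x (ρ x (1 / (k + 1))),
        inter_mem self_mem_nhdsWithin (mem_nhdsWithin_of_mem_nhds
          (ball_mem_nhds _ (hρ x hxΩ _ (hε k)))), ?_⟩
      have h1 := hc x hxΩ _ (hε k)
      rw [ae_iff] at h1
      refine measure_mono_null ?_ h1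
      rintro z ⟨hz, hzb⟩
      simp only [Set.mem_ofPred_eq, Classical.not_imp] at hz ⊢
      refine ⟨hzb, ?_⟩
      intro hcon
      apply hz.2
      have h2 := hG x _ _ _ (hc x hxΩ _ (hε k)) z hz.1 hzb
      have : ‖u z - w z‖ ≤ ‖u z - c x (1 / (k + 1))‖ + ‖w z - c x (1 / (k + 1))‖ := by
        have e : u z - w z = (u z - c x (1 / (k + 1))) - (w z - c x (1 / (k + 1))) := by abel
        rw [e]
        exact norm_sub_le _ _
      linarith
    have hall : ∀ᵐ x, ∀ k : ℕ, x ∈ Ω → ‖u x - w x‖ ≤ 2 * (1 / (k + 1)) := ae_all_iff.2 hae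
    filter_upwards [hall] with x hx hxΩ
    have h1 : Tendsto (fun k : ℕ => 2 * ((1:ℝ) / (k + 1))) atTop (𝓝 (2 * 0)) :=
      tendsto_one_div_add_atTop_nhds_zero_nat.const_mul 2
    rw [mul_zero] at h1
    have h2 : ‖u x - w x‖ ≤ 0 := ge_of_tendsto h1 (Eventually.of_forall fun k => hx k hxΩ)
    exact sub_eq_zero.1 (norm_le_zero_iff.1 h2)

/-- Weak solutions of the fractional p-Laplace system are continuous. -/
theorem main [NeZero n] {p s : ℝ} (hp : 1 < p) (hs : 0 < s) (hs1 : s < 1) {Ω : Set (Eu n)}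
    (hΩ : IsOpen Ω) {u : Eu n → Eu m} (h : IsWeakSolution n m p s Ω u) :
    ∃ w : Eu n → Eu m, ContinuousOn w Ω ∧ ∀ᵐ x, x ∈ Ω → u x = w x := by
  set u' := h.aemeasurable.mk u with hu'
  have hm : Measurable u' := h.aemeasurable.measurable_mk
  have hae : u =ᵐ[volume] u' := h.aemeasurable.ae_eq_mk
  have h' := h.congr hae
  obtain ⟨w, hw, hwe⟩ := continuous_rep (u := u') (Ω := Ω)
    (fun x hx ε hε => osc_small hp hs hs1 hΩ h' hm hx hε)
  refine ⟨w, hw, ?_⟩
  filter_upwards [hae, hwe] with x h1 h2 hx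
  rw [h1]; exact h2 hx

end Pool.Agent.helper32.Frac
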