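import Pool.Agent.helper32.Frac.Decay
import Pool.Agent.helper32.Frac.Def

/-! Scaling. -/

namespace Pool.Agent.helper32.Frac

open Real MeasureTheory Set Metric Filter Topology
open scoped ENNReal RealInnerProductSpace

variable {n m : ℕ}

section affine

variable {X : Type*} [NormedAddCommGroup X] [NormedSpace ℝ X] [FiniteDimensional ℝ X]
  [MeasurableSpace X] [BorelSpace X] {μ : Measure X} [μ.IsAddHaarMeasure]

theorem integrable_affine {G : Type*} [NormedAddCommGroup G] {f : X → G}
    (hf : Integrable f μ) (a : X) {r : ℝ} (hr : r ≠ 0) :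
    Integrable (fun x => f (a + r • x)) μ :=
  (hf.comp_add_left a).comp_smul hr

theorem integrableOn_affine {G : Type*} [NormedAddCommGroup G] {f : X → G} {K B : Set X}
    (hK : MeasurableSet K) (hB : MeasurableSet B)
    (hf : IntegrableOn f K μ) (a : X) {r : ℝ} (hr : r ≠ 0) (hsub : ∀ x ∈ B, a + r • x ∈ K) :
    IntegrableOn (fun x => f (a + r • x)) B μ := by
  have h1 : Integrable (K.indicator f) μ := (integrable_indicator_iff hK).2 hf
  have h2 := (integrable_affine h1 a hr).integrableOn (s := B)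
  refine h2.congr_fun ?_ hB
  intro x hx
  simp only
  rw [indicator_of_mem (hsub x hx)]

theorem integral_affine_eq_zero {f : X → ℝ} (hf : ∫ x, f x ∂μ = 0) (a : X) {r : ℝ} :
    ∫ x, f (a + r • x) ∂μ = 0 := by
  have h1 := Measure.integral_comp_smul μ (fun x => f (a + x)) r
  rw [h1, integral_add_left_eq_self, hf, smul_zero]

theorem lintegral_affine {f : X → ℝ≥0∞} (hf : Measurable f) (a : X) {r : ℝ} (hr : r ≠ 0) :
    ∫⁻ x, f (a + r • x) ∂μ = ENNReal.ofReal (abs (r ^ Module.finrank ℝ X)⁻¹) * ∫⁻ x, f x ∂μ := by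
  have h1 : ∫⁻ x, f (a + r • x) ∂μ = ∫⁻ y, f (a + y) ∂(Measure.map (r • ·) μ) :=
    (lintegral_map (hf.comp (measurable_const_add a)) (measurable_const_smul r)).symm
  rw [h1, Measure.map_addHaar_smul μ hr, lintegral_smul_measure, lintegral_add_left_eq_self,
    smul_eq_mul]

theorem ae_affine {P : X → Prop} (h : ∀ᵐ z ∂μ, P z) (a : X) {r : ℝ} (hr : r ≠ 0) :
    ∀ᵐ x ∂μ, P (a + r • x) := by
  have h1 : ∀ᵐ y ∂μ, P (a + y) := (measurePreserving_add_left μ a).quasiMeasurePreserving.ae h
  have h2 : Measure.QuasiMeasurePreserving (r • · : X → X) μ μ := by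
    refine ⟨measurable_const_smul r, ?_⟩
    rw [Measure.map_addHaar_smul μ hr]
    exact Measure.smul_absolutelyContinuous
  exact h2.ae h1

theorem ae_affine' {P : X → Prop} (a : X) {r : ℝ} (hr : r ≠ 0) (h : ∀ᵐ x ∂μ, P (a + r • x)) :
    ∀ᵐ z ∂μ, P z := by
  have := ae_affine h (-(r⁻¹ • a)) (inv_ne_zero hr)
  filter_upwards [this] with z hz
  rw [smul_add, smul_neg, smul_smul, smul_smul, mul_inv_cancel₀ hr, one_smul, one_smul] at hz
  simpa using hz

end affine

theorem IsWeakSolution.congr {p s : ℝ} {Ω : Set (Eu n)} {u u' : Eu n → Eu m}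
    (h : IsWeakSolution n m p s Ω u) (huu : u =ᵐ[volume] u') : IsWeakSolution n m p s Ω u' where
  aemeasurable := h.aemeasurable.congr huu
  locLp K hK hKc := by
    refine (h.locLp K hK hKc).congr ?_
    filter_upwards [ae_restrict_of_ae huu] with x hx
    rw [hx]
  locGagliardo K hK hKc := by
    refine (h.locGagliardo K hK hKc).congr ?_
    filter_upwards [ae_restrict_of_ae (ae_fst huu), ae_restrict_of_ae (ae_snd huu)] with z h1 h2
    rw [h1, h2]
  tail := by
    refine h.tail.congr ?_
    filter_upwards [huu] with x hx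
    rw [hx]
  weak φ h1 h2 h3 := by
    rw [← h.weak φ h1 h2 h3]
    apply integral_congr_ae
    filter_upwards [ae_fst huu, ae_snd huu] with z h1 h2
    rw [h1, h2]

/-- Scaling of weak solutions to unit scale. -/
theorem IsWeakSolution.scale [NeZero n] {p s : ℝ} (hp : 1 < p) (hs : 0 < s) {Ω : Set (Eu n)}
    {u : Eu n → Eu m} (h : IsWeakSolution n m p s Ω u) (hm : Measurable u) (x0 : Eu n) {r : ℝ}
    (hr : 0 < r) (hball : closedBall x0 (2 * r) ⊆ Ω) :
    Sol p s (fun x => u (x0 + r • x)) := by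
  set κ := kap n p s with hκ
  have hκ0 : 0 < κ := kap_pos hp hs
  have hκ' : (n : ℝ) + s * p = κ := rfl
  have hmT : Measurable (fun x : Eu n => u (x0 + r • x)) :=
    hm.comp (measurable_const.add (measurable_const_smul r))
  have hTsub : ∀ x ∈ ball (0 : Eu n) 2, x0 + r • x ∈ closedBall x0 (2 * r) := by
    intro x hx
    rw [mem_closedBall, dist_eq_norm, add_sub_cancel_left, norm_smul, Real.norm_of_nonneg hr.le]
    have : ‖x‖ < 2 := by simpa using hx
    nlinarith
  refine ⟨hmT, ?_, ?_, ?_, ?_⟩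
  · have h1 := h.locLp _ hball (isCompact_closedBall x0 (2 * r))
    exact integrableOn_affine measurableSet_closedBall measurableSet_ball h1 x0 hr.ne' hTsub
  · have hh := haar_prod n
    have h1 := h.locGagliardo _ hball (isCompact_closedBall x0 (2 * r))
    have h2 := integrableOn_affine (μ := (volume : Measure (Eu n × Eu n)))
      (measurableSet_closedBall.prod measurableSet_closedBall)
      (measurableSet_ball.prod measurableSet_ball) h1 (x0, x0) hr.ne'
      (B := ball (0 : Eu n) 2 ×ˢ ball (0 : Eu n) 2)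
      (by
        rintro ⟨x, y⟩ ⟨hx, hy⟩
        exact ⟨hTsub x hx, hTsub y hy⟩)
    have h3 := h2.const_mul (r ^ κ)
    refine IntegrableOn.congr_fun h3 ?_ (measurableSet_ball.prod measurableSet_ball)
    rintro ⟨x, y⟩ _
    simp only [Prod.smul_mk, Prod.mk_add_mk]
    have e1 : x0 + r • x - (x0 + r • y) = r • (x - y) := by
      rw [smul_sub]; abel
    rw [e1, norm_smul, Real.norm_of_nonneg hr.le, hκ', Real.mul_rpow hr.le (norm_nonneg _)]
    unfold Kr
    rw [← hκ, Real.rpow_neg (norm_nonneg _)]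
    have : r ^ κ ≠ 0 := (Real.rpow_pos_of_pos hr _).ne'
    rw [div_eq_mul_inv, mul_inv]
    field_simp
  · have h1 := integrable_affine h.tail x0 hr.ne'
    set C : ℝ := 1 + ‖x0‖ + r with hC
    have hC0 : 0 < C := by positivity
    have h2 := h1.const_mul (C ^ κ)
    refine Integrable.mono' h2 ((hmT.norm.pow_const _).mul (measurable_wt _)).aestronglyMeasurable ?_
    filter_upwards with y
    have hw := (wt_pos κ y).le
    rw [Real.norm_of_nonneg (by positivity), hκ']
    unfold wt
    have e1 : 1 + ‖x0 + r • y‖ ≤ C * (1 + ‖y‖) := by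
      have : ‖x0 + r • y‖ ≤ ‖x0‖ + r * ‖y‖ := by
        refine (norm_add_le _ _).trans ?_
        rw [norm_smul, Real.norm_of_nonneg hr.le]
      have h3 := norm_nonneg y
      have h4 := norm_nonneg x0
      rw [hC]
      nlinarith
    have e2 : (C * (1 + ‖y‖)) ^ (-κ) ≤ (1 + ‖x0 + r • y‖) ^ (-κ) :=
      Real.rpow_le_rpow_of_nonpos (by positivity) e1 (by linarith)
    rw [Real.mul_rpow hC0.le (by positivity)] at e2
    have e3 : (1 + ‖y‖) ^ (-κ) ≤ C ^ κ * (1 + ‖x0 + r • y‖) ^ (-κ) := by
      calc (1 + ‖y‖) ^ (-κ) = C ^ κ * (C ^ (-κ) * (1 + ‖y‖) ^ (-κ)) := by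
            rw [← mul_assoc, ← Real.rpow_add hC0]; simp
        _ ≤ _ := by gcongr
    calc ‖u (x0 + r • y)‖ ^ (p - 1) * (1 + ‖y‖) ^ (-κ)
        ≤ ‖u (x0 + r • y)‖ ^ (p - 1) * (C ^ κ * (1 + ‖x0 + r • y‖) ^ (-κ)) := by gcongr
      _ = _ := by ring
  · intro φ hφ hφc hφs
    set S : Eu n → Eu n := fun x => r⁻¹ • (x - x0) with hS
    have hScont : Continuous S := by rw [hS]; fun_prop
    have hSdiff : ContDiff ℝ (⊤ : ℕ∞) S := by
      rw [hS]; exact (contDiff_id.sub contDiff_const).const_smul _
    set φ' : Eu n → Eu m := fun x => φ (S x) with hφ'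
    have hts : tsupport φ' ⊆ S ⁻¹' (tsupport φ) := by
      apply closure_minimal _ ((isClosed_tsupport φ).preimage hScont)
      intro x hx
      exact subset_tsupport φ hx
    have hts2 : tsupport φ' ⊆ closedBall x0 (2 * r) := by
      intro x hx
      have h1 := hφs (hts hx)
      rw [mem_ball_zero_iff, hS] at h1
      simp only at h1
      rw [norm_smul, norm_inv, Real.norm_of_nonneg hr.le, inv_mul_lt_iff₀ hr] at h1
      rw [mem_closedBall, dist_eq_norm]
      linarith
    have hφ'c : HasCompactSupport φ' :=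
      HasCompactSupport.of_support_subset_isCompact (isCompact_closedBall x0 (2 * r))
        ((subset_tsupport φ').trans hts2)
    have h1 := h.weak φ' (hφ.comp hSdiff) hφ'c (hts2.trans hball)
    have hh := haar_prod n
    have h2 := integral_affine_eq_zero (μ := (volume : Measure (Eu n × Eu n))) h1 (x0, x0) (r := r)
    have h3 : ∀ z : Eu n × Eu n, Fm p s (fun x => u (x0 + r • x)) φ z = r ^ κ *
        (‖u ((x0, x0) + r • z).1 - u ((x0, x0) + r • z).2‖ ^ (p - 2) *
        ⟪u ((x0, x0) + r • z).1 - u ((x0, x0) + r • z).2,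
          φ' ((x0, x0) + r • z).1 - φ' ((x0, x0) + r • z).2⟫
        / ‖((x0, x0) + r • z).1 - ((x0, x0) + r • z).2‖ ^ ((n : ℝ) + s * p)) := by
      rintro ⟨x, y⟩
      simp only [Prod.smul_mk, Prod.mk_add_mk]
      have e1 : x0 + r • x - (x0 + r • y) = r • (x - y) := by
        rw [smul_sub]; abel
      have e2 : ∀ x, φ' (x0 + r • x) = φ x := by
        intro x
        rw [hφ', hS]
        simp only [add_sub_cancel_left]
        rw [smul_smul, inv_mul_cancel₀ hr.ne', one_smul]
      rw [e2, e2, e1, norm_smul, Real.norm_of_nonneg hr.le, hκ',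
        Real.mul_rpow hr.le (norm_nonneg _)]
      unfold Fm form Kr
      simp only
      rw [← hκ, Real.rpow_neg (norm_nonneg _)]
      have : r ^ κ ≠ 0 := (Real.rpow_pos_of_pos hr _).ne'
      rw [div_eq_mul_inv, mul_inv]
      field_simp
    simp_rw [h3]
    rw [integral_const_mul, h2, mul_zero]

theorem Sol.smul_const {p s : ℝ} {v : Eu n → Eu m} (hv : Sol p s v) {c : ℝ} (hc : 0 ≤ c) :
    Sol p s (fun x => c • v x) where
  meas := hv.meas.const_smul c
  lp := by
    refine IntegrableOn.congr_fun (hv.lp.const_mul (c ^ p)) ?_ measurableSet_ball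
    intro x _
    simp only
    rw [norm_smul, Real.norm_of_nonneg hc, Real.mul_rpow hc (norm_nonneg _)]
  wsp := by
    refine IntegrableOn.congr_fun (hv.wsp.const_mul (c ^ p)) ?_
      (measurableSet_ball.prod measurableSet_ball)
    intro z _
    simp only
    rw [← smul_sub, norm_smul, Real.norm_of_nonneg hc, Real.mul_rpow hc (norm_nonneg _)]
    ring
  tail := by
    refine (hv.tail.const_mul (c ^ (p - 1))).congr ?_
    filter_upwards with y
    rw [norm_smul, Real.norm_of_nonneg hc, Real.mul_rpow hc (norm_nonneg _)]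
    ring
  eq := by
    intro φ h1 h2 h3
    have h := hv.eq φ h1 h2 h3
    have e : ∀ z, Fm p s (fun x => c • v x) φ z = (c ^ (p - 2) * c) * Fm p s v φ z := by
      intro z
      unfold Fm form
      rw [← smul_sub, norm_smul, Real.norm_of_nonneg hc, Real.mul_rpow hc (norm_nonneg _),
        inner_smul_left]
      simp only [conj_trivial]
      ring
    simp_rw [e]
    rw [integral_const_mul, h, mul_zero]

end Pool.Agent.helper32.Frac
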