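import Pool.Agent.helper32.Frac.Alg
import Pool.Agent.helper32.Frac.Kernel

/-! Solutions at unit scale and the a priori bound of the nonlinear form. -/

namespace Pool.Agent.helper32.Frac

open Real MeasureTheory Set Metric
open scoped ENNReal RealInnerProductSpace

variable {n m : ℕ}

/-- The integrand of the weak formulation. -/
noncomputable def Fm (p s : ℝ) (v φ : Eu n → Eu m) (z : Eu n × Eu n) : ℝ :=
  form p (v z.1) (v z.2) (φ z.1) (φ z.2) * Kr (kap n p s) z.1 z.2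

/-- Solutions at unit scale. -/
structure Sol (p s : ℝ) (v : Eu n → Eu m) : Prop where
  meas : Measurable v
  lp : IntegrableOn (fun x => ‖v x‖ ^ p) (ball 0 2)
  wsp : IntegrableOn (fun z : Eu n × Eu n => ‖v z.1 - v z.2‖ ^ p * Kr (kap n p s) z.1 z.2)
    (ball 0 2 ×ˢ ball 0 2)
  tail : Integrable (fun y => ‖v y‖ ^ (p - 1) * wt (kap n p s) y)
  eq : ∀ φ : Eu n → Eu m, ContDiff ℝ (⊤ : ℕ∞) φ → HasCompactSupport φ → tsupport φ ⊆ ball 0 2 →
    ∫ z : Eu n × Eu n, Fm p s v φ z = 0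

theorem norm_form_le {F : Type*} [NormedAddCommGroup F] [InnerProductSpace ℝ F]
    {p : ℝ} (hp : 1 < p) (a b c d : F) :
    |form p a b c d| ≤ ‖a - b‖ ^ (p - 1) * ‖c - d‖ := by
  unfold form
  rw [abs_mul, abs_of_nonneg (Real.rpow_nonneg (norm_nonneg _) _)]
  calc ‖a - b‖ ^ (p - 2) * |⟪a - b, c - d⟫|
      ≤ ‖a - b‖ ^ (p - 2) * (‖a - b‖ * ‖c - d‖) := by
        gcongr
        exact abs_real_inner_le_norm _ _
    _ = (‖a - b‖ ^ (p - 2) * ‖a - b‖) * ‖c - d‖ := by ring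
    _ = _ := by rw [rpow_sub_two_mul hp (norm_nonneg _)]

theorem measurable_Fm {p s : ℝ} {v φ : Eu n → Eu m} (hv : Measurable v) (hφ : Measurable φ) :
    Measurable (Fm (n := n) (m := m) p s v φ) := by
  unfold Fm form
  have := measurable_Kr (n := n) (kap n p s)
  have h1 : Measurable (fun z : Eu n × Eu n => v z.1 - v z.2) :=
    (hv.comp measurable_fst).sub (hv.comp measurable_snd)
  have h2 : Measurable (fun z : Eu n × Eu n => φ z.1 - φ z.2) :=
    (hφ.comp measurable_fst).sub (hφ.comp measurable_snd)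
  exact ((h1.norm.pow_const _).mul (h1.inner h2)).mul this

/-- `(a+b)^q ≤ 2^q (a^q + b^q)`. -/
theorem add_rpow_le {a b q : ℝ} (ha : 0 ≤ a) (hb : 0 ≤ b) (hq : 0 ≤ q) :
    (a + b) ^ q ≤ 2 ^ q * (a ^ q + b ^ q) := by
  have h1 : (a + b) ^ q ≤ (2 * max a b) ^ q := by
    apply Real.rpow_le_rpow (by positivity) _ hq
    linarith [le_max_left a b, le_max_right a b]
  rw [Real.mul_rpow (by norm_num) (le_max_of_le_left ha)] at h1
  refine h1.trans ?_
  gcongr
  rcases le_total a b with h | h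
  · rw [max_eq_right h]
    have : 0 ≤ a ^ q := Real.rpow_nonneg ha _
    linarith
  · rw [max_eq_left h]
    have : 0 ≤ b ^ q := Real.rpow_nonneg hb _
    linarith

/-- The `W^{s,p}` part of the size of a test function. -/
noncomputable def N1 (p s : ℝ) (ψ : Eu n → Eu m) : ℝ≥0∞ :=
  (∫⁻ z : Eu n × Eu n, ENNReal.ofReal (‖ψ z.1 - ψ z.2‖ ^ p * Kr (kap n p s) z.1 z.2)) ^ (1 / p)

/-- The `L^p` part of the size of a test function. -/
noncomputable def N2 (p : ℝ) (ψ : Eu n → Eu m) : ℝ≥0∞ :=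
  (∫⁻ x : Eu n, ENNReal.ofReal (‖ψ x‖ ^ p)) ^ (1 / p)

/-- near part. -/
theorem near_bound {p s : ℝ} (hp : 1 < p) {v : Eu n → Eu m} (hv : Sol p s v) :
    ∃ A : ℝ≥0∞, A < ∞ ∧ ∀ ψ : Eu n → Eu m, Measurable ψ →
      ∫⁻ z in (ball (0 : Eu n) 2 ×ˢ ball (0 : Eu n) 2), ENNReal.ofReal |Fm p s v ψ z|
        ≤ A * N1 p s ψ := by
  set κ := kap n p s with hκ
  set B := (ball (0 : Eu n) 2 ×ˢ ball (0 : Eu n) 2) with hB
  have hp0 : 0 < p := by linarith
  have hpq : (p / (p - 1)).HolderConjugate p := by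
    have h1 : 0 < p - 1 := by linarith
    rw [Real.holderConjugate_iff]
    refine ⟨?_, ?_⟩
    · rw [lt_div_iff₀ h1]; linarith
    · field_simp; ring
  set A : ℝ≥0∞ := (∫⁻ z in B, ENNReal.ofReal (‖v z.1 - v z.2‖ ^ p * Kr κ z.1 z.2)) ^ ((p - 1) / p)
    with hA
  refine ⟨A, ?_, ?_⟩
  · apply ENNReal.rpow_lt_top_of_nonneg (by positivity)
    exact (hv.wsp.lintegral_lt_top).ne
  intro ψ hψ
  have hmK := measurable_Kr (n := n) κ
  have h1 : Measurable (fun z : Eu n × Eu n => v z.1 - v z.2) :=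
    (hv.meas.comp measurable_fst).sub (hv.meas.comp measurable_snd)
  have h2 : Measurable (fun z : Eu n × Eu n => ψ z.1 - ψ z.2) :=
    (hψ.comp measurable_fst).sub (hψ.comp measurable_snd)
  set f : Eu n × Eu n → ℝ≥0∞ := fun z =>
    ENNReal.ofReal (‖v z.1 - v z.2‖ ^ (p - 1) * (Kr κ z.1 z.2) ^ ((p - 1) / p)) with hf
  set g : Eu n × Eu n → ℝ≥0∞ := fun z =>
    ENNReal.ofReal (‖ψ z.1 - ψ z.2‖ * (Kr κ z.1 z.2) ^ (1 / p)) with hg
  have hfm : Measurable f :=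
    ((h1.norm.pow_const _).mul (hmK.pow_const _)).ennreal_ofReal
  have hgm : Measurable g :=
    (h2.norm.mul (hmK.pow_const _)).ennreal_ofReal
  have hpt : ∀ z, ENNReal.ofReal |Fm p s v ψ z| ≤ (f * g) z := by
    intro z
    simp only [hf, hg, Pi.mul_apply]
    rw [← ENNReal.ofReal_mul
      (mul_nonneg (Real.rpow_nonneg (norm_nonneg _) _) (Real.rpow_nonneg (Kr_nonneg _ _ _) _))]
    apply ENNReal.ofReal_le_ofReal
    unfold Fm
    rw [abs_mul, abs_of_nonneg (Kr_nonneg _ _ _), ← hκ]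
    have h3 := norm_form_le hp (v z.1) (v z.2) (ψ z.1) (ψ z.2)
    have h4 := Kr_rpow_mul (κ := κ) hp z.1 z.2
    calc |form p (v z.1) (v z.2) (ψ z.1) (ψ z.2)| * Kr κ z.1 z.2
        ≤ (‖v z.1 - v z.2‖ ^ (p - 1) * ‖ψ z.1 - ψ z.2‖) * Kr κ z.1 z.2 :=
          mul_le_mul_of_nonneg_right h3 (Kr_nonneg _ _ _)
      _ = (‖v z.1 - v z.2‖ ^ (p - 1) * ‖ψ z.1 - ψ z.2‖) *
            ((Kr κ z.1 z.2) ^ ((p - 1) / p) * (Kr κ z.1 z.2) ^ (1 / p)) := by rw [h4]
      _ = _ := by ring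
  have hHolder := ENNReal.lintegral_mul_le_Lp_mul_Lq (volume.restrict B) hpq hfm.aemeasurable
    hgm.aemeasurable
  have hf' : (∫⁻ z in B, f z ^ (p / (p - 1))) ^ (1 / (p / (p - 1))) = A := by
    rw [hA]
    have e1 : 1 / (p / (p - 1)) = (p - 1) / p := by rw [one_div_div]
    rw [e1]
    congr 1
    apply lintegral_congr
    intro z
    simp only [hf]
    have hp1 : 0 < p - 1 := by linarith
    rw [ENNReal.ofReal_rpow_of_nonneg
      (mul_nonneg (Real.rpow_nonneg (norm_nonneg _) _) (Real.rpow_nonneg (Kr_nonneg _ _ _) _))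
      (by positivity)]
    congr 1
    rw [Real.mul_rpow (Real.rpow_nonneg (norm_nonneg _) _) (Real.rpow_nonneg (Kr_nonneg _ _ _) _),
      ← Real.rpow_mul (norm_nonneg _), ← Real.rpow_mul (Kr_nonneg _ _ _)]
    have e2 : (p - 1) * (p / (p - 1)) = p := by field_simp
    have e3 : (p - 1) / p * (p / (p - 1)) = 1 := by field_simp
    rw [e2, e3, Real.rpow_one]
  have hg' : (∫⁻ z in B, g z ^ p) ^ (1 / p) ≤ N1 p s ψ := by
    unfold N1
    apply ENNReal.rpow_le_rpow _ (by positivity)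
    have e0 : ∀ z, g z ^ p = ENNReal.ofReal (‖ψ z.1 - ψ z.2‖ ^ p * Kr (kap n p s) z.1 z.2) := by
      intro z
      simp only [hg]
      rw [ENNReal.ofReal_rpow_of_nonneg
        (mul_nonneg (norm_nonneg _) (Real.rpow_nonneg (Kr_nonneg _ _ _) _)) hp0.le]
      congr 1
      rw [Real.mul_rpow (norm_nonneg _) (Real.rpow_nonneg (Kr_nonneg _ _ _) _),
        ← Real.rpow_mul (Kr_nonneg _ _ _)]
      have e3 : 1 / p * p = 1 := by field_simp
      rw [e3, Real.rpow_one]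
    simp_rw [e0]
    exact setLIntegral_le_lintegral _ _
  calc ∫⁻ z in B, ENNReal.ofReal |Fm p s v ψ z| ≤ ∫⁻ z in B, (f * g) z := lintegral_mono hpt
    _ ≤ _ := hHolder
    _ ≤ A * N1 p s ψ := by
      rw [hf']
      gcongr

theorem lintegral_norm_le_N2 {p : ℝ} (hp : 1 < p) {w : Eu n → ℝ} (hw : Measurable w)
    (hw0 : ∀ x, 0 ≤ w x)
    (B : Set (Eu n)) (ψ : Eu n → Eu m) (hψ : Measurable ψ) :
    ∫⁻ x in B, ENNReal.ofReal (w x * ‖ψ x‖) ≤
      (∫⁻ x in B, ENNReal.ofReal (w x ^ (p / (p - 1)))) ^ ((p - 1) / p) * N2 p ψ := by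
  have hp0 : 0 < p := by linarith
  have hp1 : 0 < p - 1 := by linarith
  have hpq : (p / (p - 1)).HolderConjugate p := by
    rw [Real.holderConjugate_iff]
    refine ⟨?_, ?_⟩
    · rw [lt_div_iff₀ hp1]; linarith
    · field_simp; ring
  have h := ENNReal.lintegral_mul_le_Lp_mul_Lq (volume.restrict B) hpq
    (f := fun x => ENNReal.ofReal (w x)) (g := fun x => ENNReal.ofReal ‖ψ x‖)
    hw.ennreal_ofReal.aemeasurable hψ.norm.ennreal_ofReal.aemeasurable
  have e1 : 1 / (p / (p - 1)) = (p - 1) / p := by rw [one_div_div]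
  rw [e1] at h
  have e2 : ∀ x, ENNReal.ofReal (w x) ^ (p / (p - 1)) = ENNReal.ofReal (w x ^ (p / (p - 1))) :=
    fun x => ENNReal.ofReal_rpow_of_nonneg (hw0 x) (by positivity)
  have e3 : ∀ x, ENNReal.ofReal ‖ψ x‖ ^ p = ENNReal.ofReal (‖ψ x‖ ^ p) :=
    fun x => ENNReal.ofReal_rpow_of_nonneg (norm_nonneg _) hp0.le
  simp_rw [e2, e3] at h
  calc ∫⁻ x in B, ENNReal.ofReal (w x * ‖ψ x‖)
      = ∫⁻ x in B, ((fun x => ENNReal.ofReal (w x)) * fun x => ENNReal.ofReal ‖ψ x‖) x := by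
        apply lintegral_congr
        intro x
        simp only [Pi.mul_apply]
        rw [ENNReal.ofReal_mul (hw0 x)]
    _ ≤ _ := h
    _ ≤ _ := by
        unfold N2
        gcongr
        exact Measure.restrict_le_self

/-- far part. -/
theorem far_bound [NeZero n] {p s : ℝ} (hp : 1 < p) (hs : 0 < s) {v : Eu n → Eu m}
    (hv : Sol p s v) :
    ∃ A : ℝ≥0∞, A < ∞ ∧ ∀ ψ : Eu n → Eu m, Measurable ψ → (∀ x, x ∉ ball (0 : Eu n) (3/2) → ψ x = 0) →
      ∫⁻ z in (ball (0 : Eu n) 2 ×ˢ (ball (0 : Eu n) 2)ᶜ), ENNReal.ofReal |Fm p s v ψ z|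
        ≤ A * N2 p ψ := by
  set κ := kap n p s with hκ
  have hκ0 : 0 < κ := kap_pos hp hs
  have hp0 : 0 < p := by linarith
  have hp1 : 0 < p - 1 := by linarith
  set W : ℝ≥0∞ := ∫⁻ y : Eu n, ENNReal.ofReal (wt κ y) with hW
  have hWfin : W < ∞ := (integrable_wt hp hs).lintegral_lt_top
  set T : ℝ≥0∞ := ∫⁻ y : Eu n, ENNReal.ofReal (‖v y‖ ^ (p - 1) * wt κ y) with hT
  have hTfin : T < ∞ := hv.tail.lintegral_lt_top
  set c : ℝ := 2 ^ (p - 1) * (8:ℝ) ^ κ with hc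
  have hc0 : 0 ≤ c := by positivity
  set B := ball (0 : Eu n) 2 with hB
  set V1 : ℝ≥0∞ := (∫⁻ x in B, ENNReal.ofReal ((‖v x‖ ^ (p - 1)) ^ (p / (p - 1)))) ^ ((p - 1) / p)
    with hV1
  set V2 : ℝ≥0∞ := (∫⁻ x in B, ENNReal.ofReal ((1:ℝ) ^ (p / (p - 1)))) ^ ((p - 1) / p)
    with hV2
  refine ⟨ENNReal.ofReal c * (V1 * W + V2 * T), ?_, ?_⟩
  · have hV1fin : V1 < ∞ := by
      apply ENNReal.rpow_lt_top_of_nonneg (by positivity)
      have : ∀ x, (‖v x‖ ^ (p - 1)) ^ (p / (p - 1)) = ‖v x‖ ^ p := by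
        intro x
        rw [← Real.rpow_mul (norm_nonneg _)]
        congr 1
        field_simp
      simp_rw [this]
      exact hv.lp.lintegral_lt_top.ne
    have hV2fin : V2 < ∞ := by
      apply ENNReal.rpow_lt_top_of_nonneg (by positivity)
      simp only [Real.one_rpow, ENNReal.ofReal_one, lintegral_const, one_mul]
      rw [Measure.restrict_apply_univ]
      exact measure_ball_lt_top.ne
    exact ENNReal.mul_lt_top ENNReal.ofReal_lt_top
      (ENNReal.add_lt_top.2 ⟨ENNReal.mul_lt_top hV1fin hWfin, ENNReal.mul_lt_top hV2fin hTfin⟩)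
  intro ψ hψ hsupp
  have hBm : MeasurableSet B := measurableSet_ball
  -- pointwise bound
  have hpt : ∀ z ∈ (B ×ˢ Bᶜ : Set (Eu n × Eu n)), ENNReal.ofReal |Fm p s v ψ z| ≤
      ENNReal.ofReal c * (ENNReal.ofReal (‖v z.1‖ ^ (p - 1) * ‖ψ z.1‖) * ENNReal.ofReal (wt κ z.2)
        + ENNReal.ofReal (1 * ‖ψ z.1‖) * ENNReal.ofReal (‖v z.2‖ ^ (p - 1) * wt κ z.2)) := by
    rintro ⟨x, y⟩ ⟨hx, hy⟩
    simp only at hx hy ⊢
    have hwt0 : 0 ≤ wt κ y := (wt_pos _ _).le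
    have hvx : 0 ≤ ‖v x‖ ^ (p - 1) := Real.rpow_nonneg (norm_nonneg _) _
    have hvy : 0 ≤ ‖v y‖ ^ (p - 1) := Real.rpow_nonneg (norm_nonneg _) _
    rw [← ENNReal.ofReal_mul (by positivity), ← ENNReal.ofReal_mul (by positivity),
      ← ENNReal.ofReal_add (by positivity) (by positivity), ← ENNReal.ofReal_mul hc0]
    apply ENNReal.ofReal_le_ofReal
    have hy2 : (2:ℝ) ≤ ‖y‖ := by
      simpa [hB] using hy
    have hψy : ψ y = 0 := hsupp y (by simp; linarith)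
    unfold Fm
    simp only
    rw [abs_mul, abs_of_nonneg (Kr_nonneg _ _ _), ← hκ]
    by_cases hxs : x ∈ ball (0 : Eu n) (3/2)
    · have hx1 : ‖x‖ < 3/2 := by simpa using hxs
      have hxy : (1/2 : ℝ) ≤ ‖x - y‖ := by
        have : ‖y‖ - ‖x‖ ≤ ‖x - y‖ := by
          rw [norm_sub_rev]; exact norm_sub_norm_le y x
        linarith
      have hK := Kr_le_wt hκ0 (x := x) (y := y) (ρ := 1/2) (by norm_num) (by norm_num)
        (by linarith) hxy
      have e8 : (4:ℝ) / (1/2) = 8 := by norm_num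
      rw [e8] at hK
      have h3 := norm_form_le hp (v x) (v y) (ψ x) (ψ y)
      rw [hψy, sub_zero] at h3
      have h4 : ‖v x - v y‖ ^ (p - 1) ≤ 2 ^ (p - 1) * (‖v x‖ ^ (p - 1) + ‖v y‖ ^ (p - 1)) := by
        refine le_trans ?_ (add_rpow_le (norm_nonneg _) (norm_nonneg _) hp1.le)
        apply Real.rpow_le_rpow (norm_nonneg _) (norm_sub_le _ _) hp1.le
      rw [hψy]
      calc |form p (v x) (v y) (ψ x) 0| * Kr κ x y
          ≤ (‖v x - v y‖ ^ (p - 1) * ‖ψ x‖) * (8 ^ κ * wt κ y) := by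
            apply mul_le_mul h3 hK (Kr_nonneg _ _ _)
            apply mul_nonneg (Real.rpow_nonneg (norm_nonneg _) _) (norm_nonneg _)
        _ ≤ ((2 ^ (p - 1) * (‖v x‖ ^ (p - 1) + ‖v y‖ ^ (p - 1))) * ‖ψ x‖) * (8 ^ κ * wt κ y) := by
            gcongr
        _ = _ := by rw [hc]; ring
    · have hψx : ψ x = 0 := hsupp x hxs
      have : form p (v x) (v y) (ψ x) (ψ y) = 0 := by
        rw [hψx, hψy]; simp [form]
      rw [this]
      simp only [abs_zero, zero_mul]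
      positivity
  have hm1 : Measurable (fun x : Eu n => ENNReal.ofReal (‖v x‖ ^ (p - 1) * ‖ψ x‖)) :=
    ((hv.meas.norm.pow_const _).mul hψ.norm).ennreal_ofReal
  have hm2 : Measurable (fun x : Eu n => ENNReal.ofReal (1 * ‖ψ x‖)) :=
    ((measurable_const).mul hψ.norm).ennreal_ofReal
  have hm3 : Measurable (fun y : Eu n => ENNReal.ofReal (wt κ y)) :=
    (measurable_wt κ).ennreal_ofReal
  have hm4 : Measurable (fun y : Eu n => ENNReal.ofReal (‖v y‖ ^ (p - 1) * wt κ y)) :=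
    ((hv.meas.norm.pow_const _).mul (measurable_wt κ)).ennreal_ofReal
  have hstep : ∫⁻ z in (B ×ˢ Bᶜ), ENNReal.ofReal |Fm p s v ψ z| ≤
      ∫⁻ z in (B ×ˢ Bᶜ : Set (Eu n × Eu n)), ENNReal.ofReal c *
        (ENNReal.ofReal (‖v z.1‖ ^ (p - 1) * ‖ψ z.1‖) * ENNReal.ofReal (wt κ z.2)
        + ENNReal.ofReal (1 * ‖ψ z.1‖) * ENNReal.ofReal (‖v z.2‖ ^ (p - 1) * wt κ z.2)) :=
    setLIntegral_mono' (hBm.prod hBm.compl) hpt
  refine hstep.trans ?_
  rw [lintegral_const_mul' _ _ ENNReal.ofReal_ne_top, mul_assoc]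
  gcongr
  have hm12 : Measurable (fun z : Eu n × Eu n =>
      ENNReal.ofReal (‖v z.1‖ ^ (p - 1) * ‖ψ z.1‖) * ENNReal.ofReal (wt κ z.2)) :=
    (hm1.comp measurable_fst).mul (hm3.comp measurable_snd)
  rw [lintegral_add_left hm12]
  have hprod : (volume : Measure (Eu n × Eu n)).restrict (B ×ˢ Bᶜ)
      = ((volume : Measure (Eu n)).restrict B).prod ((volume : Measure (Eu n)).restrict Bᶜ) := by
    rw [Measure.prod_restrict]; rfl
  rw [hprod, lintegral_prod_mul hm1.aemeasurable hm3.aemeasurable,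
    lintegral_prod_mul hm2.aemeasurable hm4.aemeasurable, add_mul]
  have k1 := lintegral_norm_le_N2 (n := n) (m := m) hp (w := fun x => ‖v x‖ ^ (p - 1))
    (hv.meas.norm.pow_const _) (fun x => Real.rpow_nonneg (norm_nonneg _) _) B ψ hψ
  have k2 := lintegral_norm_le_N2 (n := n) (m := m) hp (w := fun _ => 1)
    measurable_const (fun x => zero_le_one) B ψ hψ
  apply add_le_add
  · calc (∫⁻ x in B, ENNReal.ofReal (‖v x‖ ^ (p - 1) * ‖ψ x‖)) * ∫⁻ y in Bᶜ, ENNReal.ofReal (wt κ y)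
        ≤ (V1 * N2 p ψ) * W := by
          gcongr
          exact setLIntegral_le_lintegral _ _
      _ = _ := by ring
  · calc (∫⁻ x in B, ENNReal.ofReal (1 * ‖ψ x‖)) *
          ∫⁻ y in Bᶜ, ENNReal.ofReal (‖v y‖ ^ (p - 1) * wt κ y)
        ≤ (V2 * N2 p ψ) * T := by
          gcongr
          exact setLIntegral_le_lintegral _ _
      _ = _ := by ring

theorem form_swap {F : Type*} [NormedAddCommGroup F] [InnerProductSpace ℝ F]
    (p : ℝ) (a b c d : F) : form p b a d c = form p a b c d := by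
  unfold form
  rw [norm_sub_rev, ← neg_sub a b, ← neg_sub c d, inner_neg_neg]

theorem Fm_swap (p s : ℝ) (v φ : Eu n → Eu m) (z : Eu n × Eu n) :
    Fm p s v φ z.swap = Fm p s v φ z := by
  unfold Fm
  simp only [Prod.fst_swap, Prod.snd_swap]
  rw [form_swap, Kr_symm]

theorem lintegral_swap_eq (f : Eu n × Eu n → ℝ≥0∞) (A B : Set (Eu n))
    (hA : MeasurableSet A) (hB : MeasurableSet B) :
    ∫⁻ z in (A ×ˢ B), f z.swap = ∫⁻ z in (B ×ˢ A), f z := by
  have hmp : MeasurePreserving (Prod.swap : Eu n × Eu n → Eu n × Eu n) volume volume :=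
    Measure.measurePreserving_swap
  have h := hmp.setLIntegral_comp_preimage_emb (MeasurableEquiv.prodComm.measurableEmbedding)
    f (B ×ˢ A)
  rw [← h]
  congr 2
  ext z
  simp [and_comm]

theorem total_bound [NeZero n] {p s : ℝ} (hp : 1 < p) (hs : 0 < s) {v : Eu n → Eu m}
    (hv : Sol p s v) :
    ∃ A1 A2 : ℝ≥0∞, A1 < ∞ ∧ A2 < ∞ ∧ ∀ ψ : Eu n → Eu m, Measurable ψ →
      (∀ x, x ∉ ball (0 : Eu n) (3/2) → ψ x = 0) →
      ∫⁻ z, ENNReal.ofReal |Fm p s v ψ z| ≤ A1 * N1 p s ψ + A2 * N2 p ψ := by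
  obtain ⟨A1, hA1, h1⟩ := near_bound hp hv
  obtain ⟨A2, hA2, h2⟩ := far_bound hp hs hv
  refine ⟨A1, 2 * A2, hA1, ENNReal.mul_lt_top (by norm_num) hA2, ?_⟩
  intro ψ hψ hsupp
  set B := ball (0 : Eu n) 2 with hB
  have hBm : MeasurableSet B := measurableSet_ball
  have hfm : Measurable (fun z => ENNReal.ofReal |Fm p s v ψ z|) :=
    ((measurable_Fm hv.meas hψ).abs).ennreal_ofReal
  have hpt : ∀ z, ENNReal.ofReal |Fm p s v ψ z| ≤
      (B ×ˢ B).indicator (fun z => ENNReal.ofReal |Fm p s v ψ z|) z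
      + ((B ×ˢ Bᶜ).indicator (fun z => ENNReal.ofReal |Fm p s v ψ z|) z
      + (Bᶜ ×ˢ B).indicator (fun z => ENNReal.ofReal |Fm p s v ψ z|) z) := by
    rintro ⟨x, y⟩
    by_cases hx : x ∈ B <;> by_cases hy : y ∈ B
    · simp [Set.indicator, hx, hy]
    · simp [Set.indicator, hx, hy]
    · simp [Set.indicator, hx, hy]
    · have hx' : ψ x = 0 := hsupp x (by
        intro h; apply hx; rw [hB]; exact ball_subset_ball (by norm_num) h)
      have hy' : ψ y = 0 := hsupp y (by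
        intro h; apply hy; rw [hB]; exact ball_subset_ball (by norm_num) h)
      have : Fm p s v ψ (x, y) = 0 := by
        unfold Fm form; simp [hx', hy']
      rw [this]; simp
  have hi1 : Measurable (fun z => (B ×ˢ B).indicator (fun z => ENNReal.ofReal |Fm p s v ψ z|) z) :=
    hfm.indicator (hBm.prod hBm)
  have hi2 : Measurable (fun z => (B ×ˢ Bᶜ).indicator (fun z => ENNReal.ofReal |Fm p s v ψ z|) z) :=
    hfm.indicator (hBm.prod hBm.compl)
  calc ∫⁻ z, ENNReal.ofReal |Fm p s v ψ z|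
      ≤ ∫⁻ z, ((B ×ˢ B).indicator (fun z => ENNReal.ofReal |Fm p s v ψ z|) z
      + ((B ×ˢ Bᶜ).indicator (fun z => ENNReal.ofReal |Fm p s v ψ z|) z
      + (Bᶜ ×ˢ B).indicator (fun z => ENNReal.ofReal |Fm p s v ψ z|) z)) := lintegral_mono hpt
    _ = (∫⁻ z in B ×ˢ B, ENNReal.ofReal |Fm p s v ψ z|)
        + ((∫⁻ z in B ×ˢ Bᶜ, ENNReal.ofReal |Fm p s v ψ z|)
        + ∫⁻ z in Bᶜ ×ˢ B, ENNReal.ofReal |Fm p s v ψ z|) := by
        rw [lintegral_add_left hi1, lintegral_add_left hi2, lintegral_indicator (hBm.prod hBm),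
          lintegral_indicator (hBm.prod hBm.compl), lintegral_indicator (hBm.compl.prod hBm)]
    _ = (∫⁻ z in B ×ˢ B, ENNReal.ofReal |Fm p s v ψ z|)
        + ((∫⁻ z in B ×ˢ Bᶜ, ENNReal.ofReal |Fm p s v ψ z|)
        + ∫⁻ z in B ×ˢ Bᶜ, ENNReal.ofReal |Fm p s v ψ z|) := by
        congr 2
        rw [← lintegral_swap_eq _ _ _ hBm.compl hBm]
        simp_rw [Fm_swap]
    _ ≤ A1 * N1 p s ψ + (A2 * N2 p ψ + A2 * N2 p ψ) := by
        gcongr
        · exact h1 ψ hψ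
        · exact h2 ψ hψ hsupp
        · exact h2 ψ hψ hsupp
    _ = _ := by ring

end Pool.Agent.helper32.Frac
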