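import Pool.Agent.helper32.Frac.Ext

/-! The test functions and the integrated inequality. -/

namespace Pool.Agent.helper32.Frac

open Real MeasureTheory Set Metric Filter Topology
open scoped ENNReal RealInnerProductSpace

variable {n m : ℕ}

/-- A clamp. -/
noncomputable def clampG (c δ q : ℝ) : ℝ := max 0 (min 1 ((q - c) / δ))

theorem clampG_nonneg (c δ q : ℝ) : 0 ≤ clampG c δ q := le_max_left _ _

theorem clampG_le_one (c δ q : ℝ) : clampG c δ q ≤ 1 :=
  max_le zero_le_one (min_le_left _ _)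

theorem clampG_mono {c δ : ℝ} (hδ : 0 < δ) {q q' : ℝ} (h : q ≤ q') :
    clampG c δ q ≤ clampG c δ q' := by
  unfold clampG
  gcongr

theorem clampG_eq_zero {c δ : ℝ} (hδ : 0 < δ) {q : ℝ} (h : q ≤ c) : clampG c δ q = 0 := by
  unfold clampG
  apply max_eq_left
  apply (min_le_right _ _).trans
  apply div_nonpos_of_nonpos_of_nonneg (by linarith) hδ.le

theorem clampG_eq_one {c δ : ℝ} (hδ : 0 < δ) {q : ℝ} (h : c + δ ≤ q) : clampG c δ q = 1 := by
  unfold clampG
  rw [min_eq_left, max_eq_right zero_le_one]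
  rw [le_div_iff₀ hδ]; linarith

theorem clampG_eq {c δ : ℝ} (hδ : 0 < δ) {q : ℝ} (h : c ≤ q) (h' : q ≤ c + δ) :
    clampG c δ q = (q - c) / δ := by
  unfold clampG
  rw [min_eq_right, max_eq_right]
  · apply div_nonneg (by linarith) hδ.le
  · rw [div_le_iff₀ hδ]; linarith

theorem clampG_lip {c δ : ℝ} (hδ : 0 < δ) (q q' : ℝ) :
    |clampG c δ q - clampG c δ q'| ≤ |q - q'| / δ := by
  unfold clampG
  have h1 : |max 0 (min 1 ((q - c) / δ)) - max 0 (min 1 ((q' - c) / δ))|
      ≤ |min 1 ((q - c) / δ) - min 1 ((q' - c) / δ)| := by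
    rw [max_comm 0, max_comm 0]
    exact abs_max_sub_max_le_abs _ _ _
  have h2 : |min 1 ((q - c) / δ) - min 1 ((q' - c) / δ)| ≤ |(q - c) / δ - (q' - c) / δ| := by
    have := abs_min_sub_min_le_max 1 ((q - c) / δ) 1 ((q' - c) / δ)
    simpa using this
  have h3 : (q - c) / δ - (q' - c) / δ = (q - q') / δ := by ring
  rw [h3, abs_div, abs_of_pos hδ] at h2
  exact h1.trans h2

theorem measurable_clampG (c δ : ℝ) : Measurable (clampG c δ) := by
  unfold clampG; fun_prop

theorem Phi_lip {F : Type*} [NormedAddCommGroup F] [InnerProductSpace ℝ F] {c δ : ℝ} (hc : 0 ≤ c)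
    (hδ : 0 < δ) (a b : F) :
    ‖clampG c δ (‖a‖ ^ 2) • a - clampG c δ (‖b‖ ^ 2) • b‖ ≤ (1 + 2 * (c + δ) / δ) * ‖a - b‖ := by
  wlog hab : ‖b‖ ≤ ‖a‖ generalizing a b
  · have := this b a (by linarith)
    rwa [norm_sub_rev, norm_sub_rev b a] at this
  set Q := c + δ with hQ
  have hQ0 : 0 < Q := by linarith
  set R := Real.sqrt Q with hR
  have hR0 : 0 < R := Real.sqrt_pos.2 hQ0
  have hRQ : R ^ 2 = Q := Real.sq_sqrt hQ0.le
  have e1 : clampG c δ (‖a‖ ^ 2) • a - clampG c δ (‖b‖ ^ 2) • b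
      = clampG c δ (‖a‖ ^ 2) • (a - b) + (clampG c δ (‖a‖ ^ 2) - clampG c δ (‖b‖ ^ 2)) • b := by
    rw [smul_sub, sub_smul]; abel
  have h1 : ‖clampG c δ (‖a‖ ^ 2) • (a - b)‖ ≤ ‖a - b‖ := by
    rw [norm_smul, Real.norm_of_nonneg (clampG_nonneg _ _ _)]
    exact mul_le_of_le_one_left (norm_nonneg _) (clampG_le_one _ _ _)
  have h2 : ‖(clampG c δ (‖a‖ ^ 2) - clampG c δ (‖b‖ ^ 2)) • b‖ ≤ 2 * Q / δ * ‖a - b‖ := by
    rw [norm_smul, Real.norm_eq_abs]
    by_cases hb : R ≤ ‖b‖
    · have hb2 : Q ≤ ‖b‖ ^ 2 := by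
        rw [← hRQ]; exact pow_le_pow_left₀ hR0.le hb 2
      have ha2 : Q ≤ ‖a‖ ^ 2 := hb2.trans (pow_le_pow_left₀ (norm_nonneg _) hab 2)
      rw [clampG_eq_one hδ hb2, clampG_eq_one hδ ha2]
      simp only [sub_self, abs_zero, zero_mul]
      positivity
    · push Not at hb
      have e2 : clampG c δ (‖a‖ ^ 2) = clampG c δ ((min ‖a‖ R) ^ 2) := by
        rcases le_total ‖a‖ R with h | h
        · rw [min_eq_left h]
        · rw [min_eq_right h, hRQ, clampG_eq_one hδ le_rfl, clampG_eq_one hδ]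
          rw [← hQ, ← hRQ]; exact pow_le_pow_left₀ hR0.le h 2
      rw [e2]
      have h3 := clampG_lip (c := c) hδ ((min ‖a‖ R) ^ 2) (‖b‖ ^ 2)
      have hmin : ‖b‖ ≤ min ‖a‖ R := le_min hab hb.le
      have h4 : |(min ‖a‖ R) ^ 2 - ‖b‖ ^ 2| ≤ ‖a - b‖ * (2 * R) := by
        rw [abs_of_nonneg (by
          have := pow_le_pow_left₀ (norm_nonneg b) hmin 2
          linarith)]
        have h5 : (min ‖a‖ R) ^ 2 - ‖b‖ ^ 2 = (min ‖a‖ R - ‖b‖) * (min ‖a‖ R + ‖b‖) := by ring
        rw [h5]
        have h6 : min ‖a‖ R - ‖b‖ ≤ ‖a - b‖ := by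
          have := norm_sub_norm_le a b
          have := min_le_left ‖a‖ R
          linarith
        have h7 : min ‖a‖ R + ‖b‖ ≤ 2 * R := by
          have := min_le_right ‖a‖ R
          linarith
        have h8 : 0 ≤ min ‖a‖ R - ‖b‖ := by linarith
        have h9 : 0 ≤ min ‖a‖ R + ‖b‖ := by
          have := norm_nonneg b
          linarith
        exact mul_le_mul h6 h7 h9 (norm_nonneg _)
      calc |clampG c δ ((min ‖a‖ R) ^ 2) - clampG c δ (‖b‖ ^ 2)| * ‖b‖
          ≤ (‖a - b‖ * (2 * R) / δ) * R := by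
            apply mul_le_mul _ hb.le (norm_nonneg _) (by positivity)
            refine h3.trans ?_
            gcongr
        _ = 2 * (R ^ 2) / δ * ‖a - b‖ := by ring
        _ = _ := by rw [hRQ]
  rw [e1]
  calc _ ≤ ‖clampG c δ (‖a‖ ^ 2) • (a - b)‖
        + ‖(clampG c δ (‖a‖ ^ 2) - clampG c δ (‖b‖ ^ 2)) • b‖ := norm_add_le _ _
    _ ≤ ‖a - b‖ + 2 * Q / δ * ‖a - b‖ := add_le_add h1 h2
    _ = _ := by ring

/-- Cutoff functions. -/
structure Cut (ζ : Eu n → ℝ) (Λ r : ℝ) : Prop where
  nonneg : ∀ x, 0 ≤ ζ x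
  le_one : ∀ x, ζ x ≤ 1
  lip : ∀ x y, |ζ x - ζ y| ≤ Λ * ‖x - y‖
  supp : ∀ x, x ∉ ball (0 : Eu n) r → ζ x = 0
  one_le : 1 ≤ Λ

theorem Cut.measurable {ζ : Eu n → ℝ} {Λ r : ℝ} (h : Cut ζ Λ r) : Measurable ζ := by
  have : LipschitzWith (Real.toNNReal Λ) ζ := by
    apply LipschitzWith.of_dist_le_mul
    intro x y
    rw [Real.dist_eq, dist_eq_norm, Real.coe_toNNReal _ (by linarith [h.one_le])]
    exact h.lip x y
  exact this.continuous.measurable

theorem Cut.abs_le_one {ζ : Eu n → ℝ} {Λ r : ℝ} (h : Cut ζ Λ r) (x y : Eu n) :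
    |ζ x - ζ y| ≤ 1 := by
  rw [abs_le]
  constructor <;> linarith [h.nonneg x, h.nonneg y, h.le_one x, h.le_one y]

theorem Cut.lint {ζ : Eu n → ℝ} {Λ r : ℝ} (h : Cut ζ Λ r) {p s : ℝ} (hp : 1 < p)
    {w : Eu n → ℝ≥0∞} (hw : Measurable w) :
    ∫⁻ z : Eu n × Eu n, w z.1 * ENNReal.ofReal (|ζ z.1 - ζ z.2| ^ p * Kr (kap n p s) z.1 z.2)
      ≤ (ENNReal.ofReal (Λ ^ p) * CK n p s) * ∫⁻ x, w x := by
  have hζ := h.measurable
  have hm : Measurable (fun z : Eu n × Eu n =>
      ENNReal.ofReal (|ζ z.1 - ζ z.2| ^ p * Kr (kap n p s) z.1 z.2)) := by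
    have h1 : Measurable (fun z : Eu n × Eu n => |ζ z.1 - ζ z.2|) :=
      ((hζ.comp measurable_fst).sub (hζ.comp measurable_snd)).abs
    exact ((h1.pow_const _).mul (measurable_Kr _)).ennreal_ofReal
  have hm2 : Measurable (fun z : Eu n × Eu n =>
      w z.1 * ENNReal.ofReal (|ζ z.1 - ζ z.2| ^ p * Kr (kap n p s) z.1 z.2)) :=
    (hw.comp measurable_fst).mul hm
  rw [Measure.volume_eq_prod, lintegral_prod _ hm2.aemeasurable]
  calc ∫⁻ x, ∫⁻ y, w x * ENNReal.ofReal (|ζ x - ζ y| ^ p * Kr (kap n p s) x y)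
      = ∫⁻ x, w x * ∫⁻ y, ENNReal.ofReal (|ζ x - ζ y| ^ p * Kr (kap n p s) x y) := by
        apply lintegral_congr
        intro x
        rw [lintegral_const_mul]
        exact hm.comp measurable_prodMk_left
    _ ≤ ∫⁻ x, w x * (ENNReal.ofReal (Λ ^ p) * CK n p s) := by
        apply lintegral_mono
        intro x
        exact mul_le_mul' le_rfl (lintegral_cutoff_le hp ζ h.one_le h.lip h.abs_le_one x)
    _ = _ := by
        rw [lintegral_mul_const _ hw, mul_comm]

theorem lintegral_swap' {f : Eu n × Eu n → ℝ≥0∞} (hf : Measurable f) :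
    ∫⁻ z : Eu n × Eu n, f z.swap = ∫⁻ z, f z := by
  have hmp : MeasurePreserving (Prod.swap : Eu n × Eu n → Eu n × Eu n) volume volume :=
    Measure.measurePreserving_swap
  exact hmp.lintegral_comp hf

/-- The power of a cutoff is a cutoff. -/
theorem Cut.pow {ζ : Eu n → ℝ} {Λ r : ℝ} (h : Cut ζ Λ r) {L : ℕ} (hL : 1 ≤ L) :
    Cut (fun x => ζ x ^ L) (L * Λ) r where
  nonneg x := pow_nonneg (h.nonneg x) _
  le_one x := pow_le_one₀ (h.nonneg x) (h.le_one x)
  lip x y := by
    have h1 := abs_pow_sub_pow_le' (h.nonneg x) (h.nonneg y) L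
    have h2 : (max (ζ x) (ζ y)) ^ (L - 1) ≤ 1 :=
      pow_le_one₀ (le_max_of_le_left (h.nonneg x)) (max_le (h.le_one x) (h.le_one y))
    calc _ ≤ L * (max (ζ x) (ζ y)) ^ (L - 1) * |ζ x - ζ y| := h1
      _ ≤ L * 1 * (Λ * ‖x - y‖) := by
        gcongr
        exact h.lip x y
      _ = _ := by ring
  supp x hx := by
    rw [h.supp x hx, zero_pow (by omega)]
  one_le := by
    have h1 := h.one_le
    have : (1:ℝ) ≤ L := by exact_mod_cast hL
    nlinarith

/-- The test function. -/
noncomputable def tf (ζ : Eu n → ℝ) (L : ℕ) (c δ : ℝ) (v : Eu n → Eu m) (x : Eu n) : Eu m :=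
  (ζ x ^ L * clampG c δ (‖v x‖ ^ 2)) • v x

theorem measurable_tf {ζ : Eu n → ℝ} (hζ : Measurable ζ) (L : ℕ) (c δ : ℝ) {v : Eu n → Eu m}
    (hv : Measurable v) : Measurable (tf ζ L c δ v) := by
  unfold tf
  exact ((hζ.pow_const _).mul ((measurable_clampG c δ).comp (hv.norm.pow_const _))).smul hv

theorem norm_tf_le {ζ : Eu n → ℝ} {Λ r : ℝ} (hζ : Cut ζ Λ r) (L : ℕ) (c δ : ℝ)
    (v : Eu n → Eu m) (x : Eu n) : ‖tf ζ L c δ v x‖ ≤ ζ x ^ L * ‖v x‖ := by
  unfold tf
  have h1 := hζ.nonneg x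
  rw [norm_smul, norm_mul, Real.norm_of_nonneg (pow_nonneg h1 _),
    Real.norm_of_nonneg (clampG_nonneg _ _ _)]
  apply mul_le_mul_of_nonneg_right _ (norm_nonneg _)
  exact mul_le_of_le_one_right (pow_nonneg h1 _) (clampG_le_one _ _ _)

theorem tf_adm [NeZero n] {p s : ℝ} (hp : 1 < p) (hs : 0 < s) (hs1 : s < 1) {v : Eu n → Eu m}
    (hv : Sol p s v) {ζ : Eu n → ℝ} {Λ : ℝ} (hζ : Cut ζ Λ 1) {L : ℕ} (hL : 1 ≤ L) {c δ : ℝ}
    (hc : 0 ≤ c) (hδ : 0 < δ) : Adm p s (tf ζ L c δ v) := by
  set κ := kap n p s with hκ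
  have hp0 : 0 < p := by linarith
  set B := ball (0 : Eu n) 2 with hB
  have hBm : MeasurableSet B := measurableSet_ball
  have hcut := hζ.pow hL
  have hB1 : ∀ x, x ∉ B → x ∉ ball (0 : Eu n) 1 := fun x hx hx' =>
    hx (ball_subset_ball (by norm_num) hx')
  have hvpm : Measurable (fun x : Eu n => ENNReal.ofReal (‖v x‖ ^ p)) :=
    (hv.meas.norm.pow_const _).ennreal_ofReal
  refine ⟨measurable_tf hζ.measurable _ _ _ hv.meas, ?_, ?_, ?_⟩
  · intro x hx
    unfold tf
    rw [hζ.supp x hx, zero_pow (by omega)]; simp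
  · unfold N1
    apply ENNReal.rpow_lt_top_of_nonneg (by positivity)
    apply ne_of_lt
    set C := (1 + 2 * (c + δ) / δ) with hC
    have hC0 : 0 < C := by positivity
    set h := fun x => ζ x ^ L with hh
    set w : Eu n → ℝ≥0∞ := B.indicator (fun x => ENNReal.ofReal (‖v x‖ ^ p)) with hw
    have hwm : Measurable w := hvpm.indicator hBm
    have hwint : ∫⁻ x, w x < ∞ := by
      rw [hw, lintegral_indicator hBm]
      exact hv.lp.lintegral_lt_top
    set k : Eu n × Eu n → ℝ≥0∞ := fun z =>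
      ENNReal.ofReal (|h z.1 - h z.2| ^ p * Kr κ z.1 z.2) with hk
    have hkm : Measurable k := by
      have h1 : Measurable (fun z : Eu n × Eu n => |h z.1 - h z.2|) :=
        ((hcut.measurable.comp measurable_fst).sub (hcut.measurable.comp measurable_snd)).abs
      exact ((h1.pow_const _).mul (measurable_Kr _)).ennreal_ofReal
    set e : Eu n × Eu n → ℝ≥0∞ := (B ×ˢ B).indicator
      (fun z => ENNReal.ofReal (‖v z.1 - v z.2‖ ^ p * Kr κ z.1 z.2)) with he
    have hpt : ∀ z : Eu n × Eu n,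
        ENNReal.ofReal (‖tf ζ L c δ v z.1 - tf ζ L c δ v z.2‖ ^ p * Kr κ z.1 z.2)
        ≤ ENNReal.ofReal (2 ^ p * (1 + C ^ p)) * (w z.1 * k z + (w z.2 * k z + e z)) := by
      rintro ⟨x, y⟩
      simp only
      have hK := Kr_nonneg κ x y
      have hhx : 0 ≤ h x := hcut.nonneg x
      have hhy : 0 ≤ h y := hcut.nonneg y
      have htx : ‖tf ζ L c δ v x‖ ≤ h x * ‖v x‖ := norm_tf_le hζ L c δ v x
      have hty : ‖tf ζ L c δ v y‖ ≤ h y * ‖v y‖ := norm_tf_le hζ L c δ v y
      have h1C : (1:ℝ) ≤ 2 ^ p * (1 + C ^ p) := by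
        have : (1:ℝ) ≤ 2 ^ p := Real.one_le_rpow (by norm_num) hp0.le
        have : 0 ≤ C ^ p := by positivity
        nlinarith
      by_cases hx : x ∈ B <;> by_cases hy : y ∈ B
      · -- both inside
        have e1 : tf ζ L c δ v x - tf ζ L c δ v y = (h x - h y) • (clampG c δ (‖v x‖ ^ 2) • v x)
            + h y • (clampG c δ (‖v x‖ ^ 2) • v x - clampG c δ (‖v y‖ ^ 2) • v y) := by
          unfold tf
          rw [smul_sub, sub_smul, smul_smul, smul_smul, smul_smul]
          abel
        have e2 : ‖tf ζ L c δ v x - tf ζ L c δ v y‖ ≤ |h x - h y| * ‖v x‖ + C * ‖v x - v y‖ := by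
          rw [e1]
          refine (norm_add_le _ _).trans ?_
          apply add_le_add
          · rw [norm_smul, norm_smul, Real.norm_eq_abs, Real.norm_of_nonneg (clampG_nonneg _ _ _)]
            gcongr
            exact mul_le_of_le_one_left (norm_nonneg _) (clampG_le_one _ _ _)
          · rw [norm_smul, Real.norm_of_nonneg hhy]
            calc _ ≤ 1 * (C * ‖v x - v y‖) := by
                  gcongr
                  · exact hcut.le_one y
                  · exact Phi_lip hc hδ _ _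
              _ = _ := one_mul _
        have e3 : ‖tf ζ L c δ v x - tf ζ L c δ v y‖ ^ p ≤
            2 ^ p * (|h x - h y| ^ p * ‖v x‖ ^ p + C ^ p * ‖v x - v y‖ ^ p) := by
          calc _ ≤ (|h x - h y| * ‖v x‖ + C * ‖v x - v y‖) ^ p :=
                Real.rpow_le_rpow (norm_nonneg _) e2 hp0.le
            _ ≤ 2 ^ p * ((|h x - h y| * ‖v x‖) ^ p + (C * ‖v x - v y‖) ^ p) :=
                add_rpow_le (by positivity) (by positivity) hp0.le
            _ = _ := by
                rw [Real.mul_rpow (abs_nonneg _) (norm_nonneg _),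
                  Real.mul_rpow hC0.le (norm_nonneg _)]
        have hwx : w x = ENNReal.ofReal (‖v x‖ ^ p) := by rw [hw, indicator_of_mem hx]
        have hee : e (x, y) = ENNReal.ofReal (‖v x - v y‖ ^ p * Kr κ x y) := by
          rw [he, indicator_of_mem (mk_mem_prod hx hy)]
        calc ENNReal.ofReal (‖tf ζ L c δ v x - tf ζ L c δ v y‖ ^ p * Kr κ x y)
            ≤ ENNReal.ofReal ((2 ^ p * (1 + C ^ p)) * (‖v x‖ ^ p * (|h x - h y| ^ p * Kr κ x y)
                + ‖v x - v y‖ ^ p * Kr κ x y)) := by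
              apply ENNReal.ofReal_le_ofReal
              have t1 := mul_le_mul_of_nonneg_right e3 hK
              refine t1.trans ?_
              have t2 : 0 ≤ |h x - h y| ^ p * ‖v x‖ ^ p * Kr κ x y := by positivity
              have t3 : 0 ≤ ‖v x - v y‖ ^ p * Kr κ x y := by positivity
              have t4 : 0 ≤ C ^ p := by positivity
              have t5 : (0:ℝ) < 2 ^ p := by positivity
              nlinarith [mul_nonneg t4 t2, mul_nonneg t5.le t3, mul_nonneg t5.le
                (mul_nonneg t4 t2), mul_nonneg t5.le (mul_nonneg t4 t3)]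
          _ = ENNReal.ofReal (2 ^ p * (1 + C ^ p)) * (w x * k (x, y) + e (x, y)) := by
              have hk' : k (x, y) = ENNReal.ofReal (|h x - h y| ^ p * Kr κ x y) := rfl
              rw [ENNReal.ofReal_mul (p := 2 ^ p * (1 + C ^ p)) (by positivity),
                ENNReal.ofReal_add (by positivity) (by positivity), hwx, hee, hk',
                ENNReal.ofReal_mul (p := ‖v x‖ ^ p) (by positivity)]
          _ ≤ _ := by
              gcongr
              exact le_add_self
      · -- y outside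
        have hy0 : h y = 0 := hcut.supp y (hB1 y hy)
        have hty0 : tf ζ L c δ v y = 0 := by
          rw [hy0, zero_mul] at hty
          exact norm_le_zero_iff.1 hty
        have hwx : w x = ENNReal.ofReal (‖v x‖ ^ p) := by rw [hw, indicator_of_mem hx]
        calc ENNReal.ofReal (‖tf ζ L c δ v x - tf ζ L c δ v y‖ ^ p * Kr κ x y)
            ≤ ENNReal.ofReal (‖v x‖ ^ p * (|h x - h y| ^ p * Kr κ x y)) := by
              apply ENNReal.ofReal_le_ofReal
              rw [hty0, sub_zero, hy0, sub_zero, abs_of_nonneg hhx, ← mul_assoc]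
              apply mul_le_mul_of_nonneg_right _ hK
              rw [← Real.mul_rpow (norm_nonneg _) hhx]
              apply Real.rpow_le_rpow (norm_nonneg _) _ hp0.le
              linarith
          _ = w x * k (x, y) := by
              rw [hwx, hk, ENNReal.ofReal_mul (by positivity)]
          _ ≤ 1 * (w x * k (x, y) + (w y * k (x, y) + e (x, y))) := by
              rw [one_mul]; exact le_self_add
          _ ≤ _ := by
              gcongr
              rw [← ENNReal.ofReal_one]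
              exact ENNReal.ofReal_le_ofReal h1C
      · -- x outside
        have hx0 : h x = 0 := hcut.supp x (hB1 x hx)
        have htx0 : tf ζ L c δ v x = 0 := by
          rw [hx0, zero_mul] at htx
          exact norm_le_zero_iff.1 htx
        have hwy : w y = ENNReal.ofReal (‖v y‖ ^ p) := by rw [hw, indicator_of_mem hy]
        calc ENNReal.ofReal (‖tf ζ L c δ v x - tf ζ L c δ v y‖ ^ p * Kr κ x y)
            ≤ ENNReal.ofReal (‖v y‖ ^ p * (|h x - h y| ^ p * Kr κ x y)) := by
              apply ENNReal.ofReal_le_ofReal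
              rw [htx0, zero_sub, norm_neg, hx0, zero_sub, abs_neg, abs_of_nonneg hhy, ← mul_assoc]
              apply mul_le_mul_of_nonneg_right _ hK
              rw [← Real.mul_rpow (norm_nonneg _) hhy]
              apply Real.rpow_le_rpow (norm_nonneg _) _ hp0.le
              linarith
          _ = w y * k (x, y) := by
              rw [hwy, hk, ENNReal.ofReal_mul (by positivity)]
          _ ≤ 1 * (w x * k (x, y) + (w y * k (x, y) + e (x, y))) := by
              rw [one_mul]
              exact le_add_left le_self_add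
          _ ≤ _ := by
              gcongr
              rw [← ENNReal.ofReal_one]
              exact ENNReal.ofReal_le_ofReal h1C
      · have hx0 : h x = 0 := hcut.supp x (hB1 x hx)
        have htx0 : tf ζ L c δ v x = 0 := by
          rw [hx0, zero_mul] at htx
          exact norm_le_zero_iff.1 htx
        have hy0 : h y = 0 := hcut.supp y (hB1 y hy)
        have hty0 : tf ζ L c δ v y = 0 := by
          rw [hy0, zero_mul] at hty
          exact norm_le_zero_iff.1 hty
        rw [htx0, hty0, sub_zero, norm_zero, Real.zero_rpow hp0.ne', zero_mul, ENNReal.ofReal_zero]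
        exact zero_le
    have i1 : ∫⁻ z : Eu n × Eu n, w z.1 * k z < ∞ := by
      refine lt_of_le_of_lt (hcut.lint hp hwm) ?_
      exact ENNReal.mul_lt_top (ENNReal.mul_lt_top ENNReal.ofReal_lt_top (CK_lt_top hp hs hs1)) hwint
    have hm1 : Measurable (fun z : Eu n × Eu n => w z.1 * k z) := (hwm.comp measurable_fst).mul hkm
    have hm2 : Measurable (fun z : Eu n × Eu n => w z.2 * k z) := (hwm.comp measurable_snd).mul hkm
    have i2 : ∫⁻ z : Eu n × Eu n, w z.2 * k z < ∞ := by
      have : ∫⁻ z : Eu n × Eu n, w z.2 * k z = ∫⁻ z : Eu n × Eu n, w z.1 * k z := by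
        rw [← lintegral_swap' hm1]
        apply lintegral_congr
        rintro ⟨x, y⟩
        simp only [Prod.swap, hk]
        rw [Kr_symm, abs_sub_comm]
      rw [this]; exact i1
    have i3 : ∫⁻ z, e z < ∞ := by
      rw [he, lintegral_indicator (hBm.prod hBm)]
      exact hv.wsp.lintegral_lt_top
    calc _ ≤ ∫⁻ z : Eu n × Eu n,
          ENNReal.ofReal (2 ^ p * (1 + C ^ p)) * (w z.1 * k z + (w z.2 * k z + e z)) :=
          lintegral_mono hpt
      _ < ∞ := by
          rw [lintegral_const_mul' _ _ ENNReal.ofReal_ne_top, lintegral_add_left hm1,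
            lintegral_add_left hm2]
          exact ENNReal.mul_lt_top ENNReal.ofReal_lt_top
            (ENNReal.add_lt_top.2 ⟨i1, ENNReal.add_lt_top.2 ⟨i2, i3⟩⟩)
  · unfold N2
    apply ENNReal.rpow_lt_top_of_nonneg (by positivity)
    apply ne_of_lt
    calc ∫⁻ x, ENNReal.ofReal (‖tf ζ L c δ v x‖ ^ p)
        ≤ ∫⁻ x, B.indicator (fun x => ENNReal.ofReal (‖v x‖ ^ p)) x := by
          apply lintegral_mono
          intro x
          have h1 := norm_tf_le hζ L c δ v x
          by_cases hx : x ∈ B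
          · simp only
            rw [indicator_of_mem hx]
            apply ENNReal.ofReal_le_ofReal
            apply Real.rpow_le_rpow (norm_nonneg _) _ hp0.le
            refine h1.trans ?_
            exact mul_le_of_le_one_left (norm_nonneg _) (hcut.le_one x)
          · simp only
            rw [indicator_of_notMem hx]
            have : ζ x ^ L = 0 := hcut.supp x (hB1 x hx)
            rw [this, zero_mul] at h1
            rw [norm_le_zero_iff.1 h1, norm_zero, Real.zero_rpow hp0.ne', ENNReal.ofReal_zero]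
      _ < ∞ := by
          rw [lintegral_indicator hBm]
          exact hv.lp.lintegral_lt_top

/-- The main comparison principle: integrated pointwise lower bounds. -/
theorem compare [NeZero n] {p s : ℝ} (hp : 1 < p) (hs : 0 < s) {v : Eu n → Eu m}
    (hv : Sol p s v) {φ : Eu n → Eu m} (h : Adm p s φ) {P Q : Eu n × Eu n → ℝ}
    (hQ : Measurable Q) (hP0 : ∀ z, 0 ≤ P z) (hQ0 : ∀ z, 0 ≤ Q z)
    (hPQ : ∀ᵐ z, P z - Q z ≤ Fm p s v φ z) :
    ∫⁻ z, ENNReal.ofReal (P z) ≤ ∫⁻ z, ENNReal.ofReal (Q z) := by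
  obtain ⟨hi, h0⟩ := ext_form hp hs hv h
  by_cases hfin : ∫⁻ z, ENNReal.ofReal (Q z) = ∞
  · rw [hfin]; exact le_top
  have hQi : Integrable Q := by
    refine ⟨hQ.aestronglyMeasurable, ?_⟩
    rw [hasFiniteIntegral_iff_ofReal (Eventually.of_forall hQ0)]
    exact lt_top_iff_ne_top.2 hfin
  have hsum : Integrable (fun z => Fm p s v φ z + Q z) := hi.add hQi
  calc ∫⁻ z, ENNReal.ofReal (P z) ≤ ∫⁻ z, ENNReal.ofReal (Fm p s v φ z + Q z) := by
        apply lintegral_mono_ae
        filter_upwards [hPQ] with z hz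
        apply ENNReal.ofReal_le_ofReal
        linarith
    _ = ENNReal.ofReal (∫ z, (Fm p s v φ z + Q z)) := by
        rw [ofReal_integral_eq_lintegral_ofReal hsum]
        filter_upwards [hPQ] with z hz
        have := hP0 z
        simp only [Pi.zero_apply]
        linarith
    _ = ENNReal.ofReal (∫ z, Q z) := by
        rw [integral_add hi hQi, h0, zero_add]
    _ = _ := by
        rw [ofReal_integral_eq_lintegral_ofReal hQi (Eventually.of_forall hQ0)]

end Pool.Agent.helper32.Frac
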